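import Pool.Agent.MP_699d75_co.Mg.Tree
import Pool.Agent.MP_699d75_co.Defs

/-!
Rooted pieces of a decomposition, and the absence of bad arrays of pieces.
-/

namespace Pool.Agent.H80W

open Set Relation

variable {V T : Type*}

namespace TD

variable {G : SimpleGraph V} (D : TD G T)

/-- The oriented roots of a piece. -/
def ro (a : T × Bool) : V × V := if a.2 then (D.rt a.1).swap else D.rt a.1

/-- Rooted minor models between pieces. -/
structure PM (a b : T × Bool) (B : V → Set V) : Prop where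
  sub : ∀ v ∈ D.P a.1, B v ⊆ D.P b.1
  conn : ∀ v ∈ D.P a.1, Conn G.Adj (B v)
  ne : ∀ v ∈ D.P a.1, (B v).Nonempty
  disj : ∀ v ∈ D.P a.1, ∀ w ∈ D.P a.1, ∀ z ∈ B v, z ∈ B w → v = w
  adj : ∀ x ∈ D.P a.1, ∀ y ∈ D.P a.1, G.Adj x y →
    ((x = (D.rt a.1).1 ∨ x = (D.rt a.1).2) ∧ (y = (D.rt a.1).1 ∨ y = (D.rt a.1).2)) ∨
      ∃ x' ∈ B x, ∃ y' ∈ B y, G.Adj x' y'
  r1 : (D.ro b).1 ∈ B (D.ro a).1
  r2 : (D.ro b).2 ∈ B (D.ro a).2

/-- The order on pieces. -/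
def ple (a b : T × Bool) : Prop := ∃ B, D.PM a b B

/-- Pieces with a single root. -/
def one (a : T × Bool) : Prop := (D.rt a.1).1 = (D.rt a.1).2

/-- Hereditary descendants. -/
def pr (a b : T × Bool) : Prop := TransGen D.ch a.1 b.1 ∧ ∀ s, D.ple s a → D.ple s b

variable {D}

theorem ro_cases (a : T × Bool) : D.ro a = D.rt a.1 ∨ D.ro a = (D.rt a.1).swap := by
  unfold ro; split_ifs <;> simp

theorem ro_flip (a : T × Bool) : D.ro (a.1, !a.2) = (D.ro a).swap := by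
  unfold ro; cases a.2 <;> simp

theorem ro_mem (a : T × Bool) : (D.ro a).1 ∈ D.bag a.1 ∧ (D.ro a).2 ∈ D.bag a.1 := by
  rcases ro_cases (D := D) a with h | h <;> rw [h]
  exacts [D.rtmem _, (D.rtmem _).symm]

theorem eq_rt_iff {a : T × Bool} {x : V} :
    (x = (D.rt a.1).1 ∨ x = (D.rt a.1).2) ↔ (x = (D.ro a).1 ∨ x = (D.ro a).2) := by
  rcases ro_cases (D := D) a with h | h <;> rw [h]
  exact or_comm

theorem one_iff {a : T × Bool} : D.one a ↔ (D.ro a).1 = (D.ro a).2 := by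
  rcases ro_cases (D := D) a with h | h <;> rw [h]
  exacts [Iff.rfl, eq_comm]

theorem ple.flip {a b : T × Bool} (h : D.ple a b) : D.ple (a.1, !a.2) (b.1, !b.2) := by
  obtain ⟨B, h⟩ := h
  refine ⟨B, h.sub, h.conn, h.ne, h.disj, h.adj, ?_, ?_⟩ <;> rw [ro_flip, ro_flip]
  exacts [h.r2, h.r1]

theorem ple_extend {s a b : T × Bool} (h : D.ple s a) (hab : D.P a.1 ⊆ D.P b.1) {C C' : Set V}
    (h1 : C ⊆ D.P b.1) (h2 : C' ⊆ D.P b.1) (c1 : Conn G.Adj C) (c2 : Conn G.Adj C')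
    (a1 : (D.ro a).1 ∈ C) (a2 : (D.ro a).2 ∈ C') (b1 : (D.ro b).1 ∈ C) (b2 : (D.ro b).2 ∈ C')
    (i1 : ∀ z ∈ C, z ∈ D.P a.1 → z = (D.ro a).1) (i2 : ∀ z ∈ C', z ∈ D.P a.1 → z = (D.ro a).2)
    (hd : (D.ro a).1 = (D.ro a).2 ∨ ∀ z ∈ C, z ∉ C') : D.ple s b := by
  obtain ⟨B, h⟩ := h
  have s1 := bag_subset_P _ (ro_mem (D := D) s).1
  have s2 := bag_subset_P _ (ro_mem (D := D) s).2
  have k1 : ∀ v ∈ D.P s.1, ∀ z ∈ B v, z ∈ C → v = (D.ro s).1 := fun v hv z hz hC =>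
    h.disj v hv _ s1 z hz (i1 z hC (h.sub v hv hz) ▸ h.r1)
  have k2 : ∀ v ∈ D.P s.1, ∀ z ∈ B v, z ∈ C' → v = (D.ro s).2 := fun v hv z hz hC =>
    h.disj v hv _ s2 z hz (i2 z hC (h.sub v hv hz) ▸ h.r2)
  have k3 : ∀ z ∈ C, z ∈ C' → (D.ro s).1 = (D.ro s).2 := fun z hz hz' => by
    rcases hd with e | hd
    · exact h.disj _ s1 _ s2 _ h.r1 (e ▸ h.r2)
    · exact absurd hz' (hd z hz)
  refine ⟨fun v => {z | z ∈ B v ∨ (v = (D.ro s).1 ∧ z ∈ C) ∨ (v = (D.ro s).2 ∧ z ∈ C')},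
    ?_, ?_, fun v hv => (h.ne v hv).mono fun z hz => Or.inl hz, ?_, ?_,
    Or.inr (Or.inl ⟨rfl, b1⟩), Or.inr (Or.inr ⟨rfl, b2⟩)⟩
  · rintro v hv z (hz | hz | hz)
    exacts [hab (h.sub v hv hz), h1 hz.2, h2 hz.2]
  · intro v hv
    refine conn_of_core (h.conn v hv) (fun z hz => Or.inl hz) ?_
    rintro z (hz | hz | hz)
    · exact ⟨B v, fun z hz => Or.inl hz, h.conn v hv, hz, z, hz, hz⟩
    · exact ⟨C, fun y hy => Or.inr (Or.inl ⟨hz.1, hy⟩), c1, hz.2, _, a1, hz.1 ▸ h.r1⟩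
    · exact ⟨C', fun y hy => Or.inr (Or.inr ⟨hz.1, hy⟩), c2, hz.2, _, a2, hz.1 ▸ h.r2⟩
  · rintro v hv w hw z (hz | hz | hz) (hz' | hz' | hz')
    · exact h.disj v hv w hw z hz hz'
    · exact (k1 v hv z hz hz'.2).trans hz'.1.symm
    · exact (k2 v hv z hz hz'.2).trans hz'.1.symm
    · exact hz.1.trans (k1 w hw z hz' hz.2).symm
    · exact hz.1.trans hz'.1.symm
    · exact hz.1.trans ((k3 z hz.2 hz'.2).trans hz'.1.symm)
    · exact hz.1.trans (k2 w hw z hz' hz.2).symm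
    · exact hz.1.trans ((k3 z hz'.2 hz.2).symm.trans hz'.1.symm)
    · exact hz.1.trans hz'.1.symm
  · intro x hx y hy hxy
    exact (h.adj x hx y hy hxy).imp_right fun ⟨x', hx', y', hy', e⟩ =>
      ⟨x', Or.inl hx', y', Or.inl hy', e⟩

theorem pr_of_one {a b : T × Bool} (ha : D.one a) (hab : TransGen D.ch a.1 b.1) : D.pr a b := by
  refine ⟨hab, fun s hs => ?_⟩
  obtain ⟨k1, k2⟩ := conn_P_sdiff ha b.1 fun h => not_transGen _ (hab.trans_left h)
  have e1 : (D.ro a).1 = (D.rt a.1).1 := by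
    rcases ro_cases (D := D) a with h | h <;> rw [h]
    exact ha.symm
  have e2 : (D.ro a).2 = (D.rt a.1).1 := (one_iff.1 ha).symm.trans e1
  have m : (D.rt a.1).1 ∈ D.P b.1 \ (D.P a.1 \ {(D.rt a.1).1}) :=
    ⟨P_mono hab.to_reflTransGen (bag_subset_P _ (D.rtmem _).1), fun h => h.2 rfl⟩
  have i : ∀ z ∈ D.P b.1 \ (D.P a.1 \ {(D.rt a.1).1}), z ∈ D.P a.1 → z = (D.rt a.1).1 :=
    fun z hz hz' => by
      by_contra e
      exact hz.2 ⟨hz', e⟩
  exact ple_extend hs (P_mono hab.to_reflTransGen) sdiff_subset sdiff_subset k2 k2 (e1 ▸ m)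
    (e2 ▸ m) (k1 (ro_mem b).1) (k1 (ro_mem b).2) (e1 ▸ i) (e2 ▸ i) (Or.inl (one_iff.1 ha))

theorem pr_of_link {a b : T × Bool} (hab : D.ch a.1 b.1) {C : Set V}
    (h1 : C ⊆ D.bag b.1) (h2 : Conn (D.ta b.1) C) (h3 : Conn (D.ta b.1) (D.bag b.1 \ C))
    (h4 : (D.ro b).1 ∉ C) (h5 : (D.ro b).2 ∈ C) (h6 : (D.ro a).1 ∉ C) (h7 : (D.ro a).2 ∈ C) :
    D.pr a b := by
  refine ⟨TransGen.single hab, fun s hs => ?_⟩
  have m : (D.ro a).1 ∈ D.bag b.1 := by
    rcases ro_cases (D := D) a with h | h <;> rw [h]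
    exacts [(rt_mem_par hab).1, (rt_mem_par hab).2]
  have k : ∀ C' ⊆ D.bag b.1, ¬ ((D.ro a).1 ∈ C' ∧ (D.ro a).2 ∈ C') → ∀ z ∈ D.ex b.1 C',
      z ∈ D.P a.1 → z ∈ C' ∧ (z = (D.ro a).1 ∨ z = (D.ro a).2) := by
    intro C' hC' hn z hz hz'
    by_cases hb : z ∈ D.bag b.1
    · exact ⟨mem_of_ex hz hb, eq_rt_iff.1 (mem_rt hab hz' hb)⟩
    · have := (rt_mem_of_ex hC' hz hb hab hz').2
      refine absurd ?_ hn
      rcases ro_cases (D := D) a with h | h <;> rw [h]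
      exacts [this, this.symm]
  have n : ∀ C' : Set V, ¬ ((D.ro b).1 ∈ C' ∧ (D.ro b).2 ∈ C') → (D.rt b.1).1 ∈ C' →
      (D.rt b.1).2 ∈ C' → (D.rt b.1).1 = (D.rt b.1).2 := by
    intro C' hn k1 k2
    refine absurd ?_ hn
    rcases ro_cases (D := D) b with h | h <;> rw [h]
    exacts [⟨k1, k2⟩, ⟨k2, k1⟩]
  refine ple_extend hs (P_mono (ReflTransGen.single hab)) (ex_subset sdiff_subset) (ex_subset h1)
    (conn_ex sdiff_subset h3 (n _ fun h => h.2.2 h5)) (conn_ex h1 h2 (n _ fun h => h4 h.1))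
    (Or.inl ⟨m, h6⟩) (Or.inl h7) (Or.inl ⟨(ro_mem b).1, h4⟩) (Or.inl h5) (fun z hz hz' => ?_)
    (fun z hz hz' => ?_) (Or.inr fun z hz hz' => ?_)
  · obtain ⟨k1, k2⟩ := k _ sdiff_subset (fun h => h.2.2 h7) z hz hz'
    exact k2.resolve_right fun e => k1.2 (e ▸ h7)
  · obtain ⟨k1, k2⟩ := k _ h1 (fun h => h6 h.1) z hz hz'
    exact k2.resolve_left fun e => h6 (e ▸ k1)
  · obtain ⟨y, k1, k2⟩ := ex_inter sdiff_subset h1 hz hz'
    exact k1.2 k2

theorem pr_of_two {a b : T × Bool} (ha : ¬ D.one a) (hb : ¬ D.one b) (hab : D.ch a.1 b.1) :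
    D.pr a b ∨ D.pr (a.1, !a.2) b := by
  have m : (D.ro a).1 ∈ D.bag b.1 ∧ (D.ro a).2 ∈ D.bag b.1 := by
    rcases ro_cases (D := D) a with h | h <;> rw [h]
    exacts [rt_mem_par hab, (rt_mem_par hab).symm]
  obtain ⟨C, h1, h2, h3, h4, h5, h6 | h6⟩ := two_link (ta_symm b.1) (D.fin b.1) (D.conn2 b.1)
    (ro_mem b).1 (ro_mem b).2 (fun e => hb (one_iff.2 e)) m.1 m.2 fun e => ha (one_iff.2 e)
  · exact Or.inl (pr_of_link hab h1 h2 h3 h4 h5 h6.1 h6.2)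
  · refine Or.inr (pr_of_link (a := (a.1, !a.2)) hab h1 h2 h3 h4 h5 ?_ ?_) <;> rw [ro_flip]
    exacts [h6.1, h6.2]

variable (D)

/-- The label of a pair of vertices of a bag. -/
def lab (a : T × Bool) (p q : V) : Set (T × Bool) × Prop × Prop × Prop :=
  ({d | D.ch d.1 a.1 ∧ D.ro d = (p, q) ∧ (p = q → d.2 = false)},
    G.Adj p q, p = (D.ro a).1, p = (D.ro a).2)

/-- The order on labels. -/
def lle (l l' : Set (T × Bool) × Prop × Prop × Prop) : Prop := fle D.ple l.1 l'.1 ∧ l.2 = l'.2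

/-- Labelled minor models between torsos. -/
def TM (a b : T × Bool) : Prop :=
  ∃ B : V → Set V, (∀ p ∈ D.bag a.1, B p ⊆ D.bag b.1 ∧ Conn (D.ta b.1) (B p)) ∧
    (∀ p ∈ D.bag a.1, ∀ q ∈ D.bag a.1, ∀ z ∈ B p, z ∈ B q → p = q) ∧
    ∀ p ∈ D.bag a.1, ∀ q ∈ D.bag a.1, (p = q ∨ D.ta a.1 p q) →
      ∃ p' ∈ B p, ∃ q' ∈ B q, (p = q → p' = q') ∧ D.lle (D.lab a p q) (D.lab b p' q')

variable {D}

theorem ro_inj {d : T} {o o' : Bool} (h : D.ro (d, o) = D.ro (d, o'))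
    (h' : (D.ro (d, o)).1 ≠ (D.ro (d, o)).2) : o = o' := by
  cases o <;> cases o'
  · rfl
  · simp only [ro, Bool.false_eq_true, if_false, if_true] at h h'
    exact absurd (congrArg Prod.fst h) h'
  · simp only [ro, Bool.false_eq_true, if_false, if_true] at h h'
    exact absurd (congrArg Prod.fst h) h'
  · rfl

theorem ple_of_TM {a b : T × Bool} (h : D.TM a b) : D.ple a b := by
  obtain ⟨B, h1, h2, h3⟩ := h
  choose! p' hp' q' hq' he hl using h3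
  have hne : ∀ p ∈ D.bag a.1, p' p p ∈ B p := fun p hp => hp' p hp p hp (Or.inl rfl)
  have r1 : (D.ro b).1 ∈ B (D.ro a).1 := by
    have m := (ro_mem (D := D) a).1
    have e := congrArg (fun l => l.2.1) (hl _ m _ m (Or.inl rfl)).2
    simp only [lab, eq_iff_iff, true_iff] at e
    exact e ▸ hne _ m
  have r2 : (D.ro b).2 ∈ B (D.ro a).2 := by
    have m := (ro_mem (D := D) a).2
    have e := congrArg (fun l => l.2.2) (hl _ m _ m (Or.inl rfl)).2
    simp only [lab, eq_iff_iff, true_iff] at e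
    exact e ▸ hne _ m
  have hone : (D.ro a).1 = (D.ro a).2 → (D.ro b).1 = (D.ro b).2 := by
    intro e0
    have m := (ro_mem (D := D) a).1
    have e := congrArg (fun l => l.2.1) (hl _ m _ m (Or.inl rfl)).2
    have e' := congrArg (fun l => l.2.2) (hl _ m _ m (Or.inl rfl)).2
    simp only [lab, eq_iff_iff, true_iff] at e e'
    exact e.symm.trans (e'.1 e0)
  have cex : ∀ v ∈ D.bag a.1, Conn G.Adj (D.ex b.1 (B v)) := by
    intro v hv
    refine conn_ex (h1 v hv).1 (h1 v hv).2 fun k1 k2 => one_iff.2 (hone ?_)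
    have : (D.ro b).1 ∈ B v ∧ (D.ro b).2 ∈ B v := by
      rcases ro_cases (D := D) b with h | h <;> rw [h]
      exacts [⟨k1, k2⟩, ⟨k2, k1⟩]
    exact (h2 _ (ro_mem a).1 v hv _ r1 this.1).trans (h2 _ (ro_mem a).2 v hv _ r2 this.2).symm
  have hc : ∀ c, D.ch c a.1 → (D.rt c).1 = (D.rt c).2 ∨ D.ta a.1 (D.rt c).1 (D.rt c).2 := by
    intro c hc
    by_cases e : (D.rt c).1 = (D.rt c).2
    · exact Or.inl e
    · exact Or.inr ⟨e, (rt_mem_par hc).1, (rt_mem_par hc).2, Or.inr ⟨c, Or.inl hc, D.rtmem c⟩⟩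
  have hφ : ∀ p q, ∃ φ : T × Bool → T × Bool, p ∈ D.bag a.1 → q ∈ D.bag a.1 →
      (p = q ∨ D.ta a.1 p q) → InjOn φ (D.lab a p q).1 ∧ ∀ d ∈ (D.lab a p q).1,
        φ d ∈ (D.lab b (p' p q) (q' p q)).1 ∧ D.ple d (φ d) := by
    intro p q
    by_cases H : p ∈ D.bag a.1 ∧ q ∈ D.bag a.1 ∧ (p = q ∨ D.ta a.1 p q)
    · obtain ⟨φ, hφ⟩ := (hl p H.1 q H.2.1 H.2.2).1
      exact ⟨φ, fun _ _ _ => hφ⟩
    · exact ⟨id, fun k1 k2 k3 => absurd ⟨k1, k2, k3⟩ H⟩
  choose φ hφ using hφ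
  let im : T → T × Bool := fun c => φ (D.rt c).1 (D.rt c).2 (c, false)
  have hmem : ∀ c, D.ch c a.1 → (c, false) ∈ (D.lab a (D.rt c).1 (D.rt c).2).1 :=
    fun c hc => ⟨hc, rfl, fun _ => rfl⟩
  have him : ∀ c, D.ch c a.1 → im c ∈ (D.lab b (p' (D.rt c).1 (D.rt c).2)
      (q' (D.rt c).1 (D.rt c).2)).1 ∧ D.ple (c, false) (im c) := fun c hc' =>
    (hφ _ _ (rt_mem_par hc').1 (rt_mem_par hc').2 (hc c hc')).2 _ (hmem c hc')
  have i1 : ∀ c, D.ch c a.1 → (D.ro (im c)).1 ∈ B (D.rt c).1 := fun c hc' => by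
    rw [(him c hc').1.2.1]
    exact hp' _ (rt_mem_par hc').1 _ (rt_mem_par hc').2 (hc c hc')
  have i2 : ∀ c, D.ch c a.1 → (D.ro (im c)).2 ∈ B (D.rt c).2 := fun c hc' => by
    rw [(him c hc').1.2.1]
    exact hq' _ (rt_mem_par hc').1 _ (rt_mem_par hc').2 (hc c hc')
  have i3 : ∀ c, D.ch c a.1 → (D.rt c).1 = (D.rt c).2 → (D.ro (im c)).1 = (D.ro (im c)).2 :=
    fun c hc' e => by
      rw [(him c hc').1.2.1]
      exact he _ (rt_mem_par hc').1 _ (rt_mem_par hc').2 (hc c hc') e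
  have hinj : ∀ c, D.ch c a.1 → ∀ d, D.ch d a.1 → (im c).1 = (im d).1 → c = d := by
    intro c hc' d hd' e
    have m1 := rt_mem_par hc'
    have m2 := rt_mem_par hd'
    have k : ∀ c, D.ch c a.1 → ∀ d, D.ch d a.1 → (im c).1 = (im d).1 →
        ({(D.rt c).1, (D.rt c).2} : Set V) ⊆ {(D.rt d).1, (D.rt d).2} := by
      intro c hc' d hd' e v hv
      have m1 := rt_mem_par hc'
      have m2 := rt_mem_par hd'
      have k2 : ∀ v ∈ D.bag a.1, ∀ z ∈ B v, (z = (D.ro (im c)).1 ∨ z = (D.ro (im c)).2) →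
          v = (D.rt d).1 ∨ v = (D.rt d).2 := by
        intro v hv z hz hz'
        rw [← eq_rt_iff, e, eq_rt_iff] at hz'
        rcases hz' with rfl | rfl
        · exact Or.inl (h2 v hv _ m2.1 _ hz (i1 d hd'))
        · exact Or.inr (h2 v hv _ m2.2 _ hz (i2 d hd'))
      rcases hv with rfl | rfl
      · exact k2 _ m1.1 _ (i1 c hc') (Or.inl rfl)
      · exact k2 _ m1.2 _ (i2 c hc') (Or.inr rfl)
    have e1 := D.can c d a.1 hc' hd' (Subset.antisymm (k c hc' d hd' e) (k d hd' c hc' e.symm))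
    have k1 := (him c hc').1
    have k2 := (him d hd').1
    rw [← e1] at k2
    have e2 : im c = im d := by
      refine Prod.ext e ?_
      by_cases e3 : p' (D.rt c).1 (D.rt c).2 = q' (D.rt c).1 (D.rt c).2
      · rw [k1.2.2 e3, k2.2.2 e3]
      · refine ro_inj (D := D) (d := (im c).1) ?_ ?_
        · rw [show ((im c).1, (im c).2) = im c from rfl, k1.2.1, e,
            show ((im d).1, (im d).2) = im d from rfl, k2.2.1]
        · rw [show ((im c).1, (im c).2) = im c from rfl, k1.2.1]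
          exact e3
    have := (hφ _ _ m1.1 m1.2 (hc c hc')).1 (hmem c hc') (e1 ▸ hmem d hd')
      (e2.trans (by simp only [im, e1]))
    exact congrArg Prod.fst this
  have hB : ∀ c, ∃ Bc, D.ch c a.1 → D.PM (c, false) (im c) Bc := fun c => by
    by_cases H : D.ch c a.1
    · obtain ⟨Bc, h⟩ := (him c H).2
      exact ⟨Bc, fun _ => h⟩
    · exact ⟨B, fun h => absurd h H⟩
  choose Bc hB using hB
  have rP : ∀ c, (D.rt c).1 ∈ D.P c ∧ (D.rt c).2 ∈ D.P c := fun c =>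
    ⟨bag_subset_P c (D.rtmem c).1, bag_subset_P c (D.rtmem c).2⟩
  have kb : ∀ c, D.ch c a.1 → ∀ v ∈ D.P c, ∀ x ∈ Bc c v, x ∈ D.bag b.1 →
      v ∈ D.bag a.1 ∧ x ∈ B v := by
    intro c hc' v hv x hx hxb
    rcases eq_rt_iff.1 (mem_rt (him c hc').1.1 ((hB c hc').sub v hv hx) hxb) with rfl | rfl
    · rw [(hB c hc').disj v hv _ (rP c).1 _ hx (hB c hc').r1]
      exact ⟨(rt_mem_par hc').1, i1 c hc'⟩
    · rw [(hB c hc').disj v hv _ (rP c).2 _ hx (hB c hc').r2]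
      exact ⟨(rt_mem_par hc').2, i2 c hc'⟩
  have kd : ∀ v ∈ D.bag a.1, ∀ c, D.ch c a.1 → ∀ w ∈ D.P c, ∀ x ∈ D.ex b.1 (B v), x ∈ Bc c w →
      v = w := by
    intro v hv c hc' w hw x hx hx'
    by_cases hxb : x ∈ D.bag b.1
    · obtain ⟨k1, k2⟩ := kb c hc' w hw x hx' hxb
      exact h2 v hv w k1 x (mem_of_ex hx hxb) k2
    · obtain ⟨k1, k2, k3⟩ := rt_mem_of_ex (h1 v hv).1 hx hxb (him c hc').1.1
        ((hB c hc').sub w hw hx')
      have : (D.ro (im c)).1 ∈ B v ∧ (D.ro (im c)).2 ∈ B v := by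
        rcases ro_cases (D := D) (im c) with h | h <;> rw [h]
        exacts [⟨k2, k3⟩, ⟨k3, k2⟩]
      exact absurd (one_iff.2 (i3 c hc' ((h2 _ (rt_mem_par hc').1 v hv _ (i1 c hc') this.1).trans
        (h2 _ (rt_mem_par hc').2 v hv _ (i2 c hc') this.2).symm))) k1
  refine ⟨fun v => {x | (v ∈ D.bag a.1 ∧ x ∈ D.ex b.1 (B v)) ∨
    ∃ c, D.ch c a.1 ∧ v ∈ D.P c ∧ x ∈ Bc c v}, ?_, ?_, ?_, ?_, ?_,
    Or.inl ⟨(ro_mem a).1, Or.inl r1⟩, Or.inl ⟨(ro_mem a).2, Or.inl r2⟩⟩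
  · rintro v _ x (⟨hv, hx⟩ | ⟨c, hc', hv, hx⟩)
    · exact ex_subset (h1 v hv).1 hx
    · exact mem_P.2 (Or.inr ⟨_, (him c hc').1.1, (hB c hc').sub v hv hx⟩)
  · intro v hv
    by_cases hb : v ∈ D.bag a.1
    · refine conn_of_core (cex v hb) (fun x hx => Or.inl ⟨hb, hx⟩) ?_
      rintro x (⟨-, hx⟩ | ⟨c, hc', hv', hx⟩)
      · exact ⟨_, fun x hx => Or.inl ⟨hb, hx⟩, cex v hb, hx, x, hx, hx⟩
      · refine ⟨Bc c v, fun x hx => Or.inr ⟨c, hc', hv', hx⟩, (hB c hc').conn v hv', hx, ?_⟩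
        rcases mem_rt hc' hv' hb with rfl | rfl
        · exact ⟨_, (hB c hc').r1, Or.inl (i1 c hc')⟩
        · exact ⟨_, (hB c hc').r2, Or.inl (i2 c hc')⟩
    · obtain ⟨c, hc', hv'⟩ := (mem_P.1 hv).resolve_left hb
      convert (hB c hc').conn v hv' using 1
      ext x
      constructor
      · rintro (⟨k, -⟩ | ⟨d, hd, k1, k2⟩)
        · exact absurd k hb
        · exact sib hd hc' k1 hv' hb ▸ k2
      · exact fun hx => Or.inr ⟨c, hc', hv', hx⟩
  · intro v hv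
    rcases mem_P.1 hv with hb | ⟨c, hc', hv'⟩
    · exact ⟨_, Or.inl ⟨hb, Or.inl (hne v hb)⟩⟩
    · exact ((hB c hc').ne v hv').mono fun x hx => Or.inr ⟨c, hc', hv', hx⟩
  · rintro v _ w _ x (⟨hv, hx⟩ | ⟨c, hc', hv, hx⟩) (⟨hw, hx'⟩ | ⟨d, hd', hw, hx'⟩)
    · obtain ⟨z, k1, k2⟩ := ex_inter (h1 v hv).1 (h1 w hw).1 hx hx'
      exact h2 v hv w hw z k1 k2
    · exact kd v hv d hd' w hw x hx hx'
    · exact (kd w hw c hc' v hv x hx' hx).symm
    · by_cases hxb : x ∈ D.bag b.1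
      · obtain ⟨k1, k2⟩ := kb c hc' v hv x hx hxb
        obtain ⟨k3, k4⟩ := kb d hd' w hw x hx' hxb
        exact h2 v k1 w k3 x k2 k4
      · have e := hinj c hc' d hd' (sib (him c hc').1.1 (him d hd').1.1
          ((hB c hc').sub v hv hx) ((hB d hd').sub w hw hx') hxb)
        subst e
        exact (hB c hc').disj v hv w hw x hx hx'
  · intro x hx y hy hxy
    right
    have kk : x ∈ D.bag a.1 → y ∈ D.bag a.1 → ∃ x' ∈ B x, ∃ y' ∈ B y, G.Adj x' y' := by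
      intro k1 k2
      have t : x = y ∨ D.ta a.1 x y := Or.inr ⟨hxy.ne, k1, k2, Or.inl hxy⟩
      have e := congrArg (fun l => l.1) (hl x k1 y k2 t).2
      simp only [lab, eq_iff_iff] at e
      exact ⟨_, hp' x k1 y k2 t, _, hq' x k1 y k2 t, e.1 hxy⟩
    by_cases hb : x ∈ D.bag a.1 ∧ y ∈ D.bag a.1
    · obtain ⟨x', k1, y', k2, k3⟩ := kk hb.1 hb.2
      exact ⟨x', Or.inl ⟨hb.1, Or.inl k1⟩, y', Or.inl ⟨hb.2, Or.inl k2⟩, k3⟩
    · obtain ⟨c, hc', k1, k2⟩ := (edge_cases hx hy hxy).resolve_left hb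
      rcases (hB c hc').adj x k1 y k2 hxy with ⟨k3, k4⟩ | ⟨x', k3, y', k4, k5⟩
      · refine absurd ⟨?_, ?_⟩ hb
        · rcases k3 with rfl | rfl
          exacts [(rt_mem_par hc').1, (rt_mem_par hc').2]
        · rcases k4 with rfl | rfl
          exacts [(rt_mem_par hc').1, (rt_mem_par hc').2]
      · exact ⟨x', Or.inr ⟨c, hc', k1, k3⟩, y', Or.inr ⟨c, hc', k2, k4⟩, k5⟩

/-- The torso of the node is a grid with some diagonals. -/
def Grid (D : TD G T) (t : T) : Prop :=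
  ∃ (a b : ℕ) (e : ℕ × ℕ → V), InjOn e (box a b) ∧ e '' box a b = D.bag t ∧
    (∀ p ∈ box a b, ∀ q ∈ box a b, GA p q → D.ta t (e p) (e q)) ∧
    ∀ p ∈ box a b, ∀ q ∈ box a b, D.ta t (e p) (e q) → KA p q

theorem bad_lab_of_bad_TM {k : ℕ} (hsh : ∀ t, D.Grid t ∨ (D.bag t).ncard ≤ k) {A : Set ℕ}
    {f : Set ℕ → T × Bool} (hf : Bad D.TM A f) :
    ∃ B g, Sub A B ∧ Bad D.lle B g ∧ ∀ X, Sub B X → ∃ p q, g X = D.lab (f X) p q := by
  have : Nonempty V := ⟨(D.rt (f A).1).1⟩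
  obtain ⟨B, hB, h | h⟩ := ramsey_prop hf.1 (hf.2.1.comp fun x => D.Grid x.1)
  · have hg : ∀ t, D.Grid t → D.Grid t := fun _ h => h
    choose! a b e h1 h2 h3 h4 using hg
    let R : T × Bool → Rect _ := fun x => ⟨0, 0, a x.1, b x.1, fun p q => D.lab x (e x.1 p) (e x.1 q)⟩
    have hp : ∀ x, (R x).pts = box (a x.1) (b x.1) := fun x => by
      ext p; simp [R, Rect.pts, box]
    obtain ⟨C, g, k1, k2, k3⟩ := bad_of_bad_rle (le := D.lle) (A := B) (f := fun X => R (f X))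
      ⟨hB.2, (hf.2.1.comp R).mono hB.1, fun X hX ⟨M, l, r, b', t, hM⟩ => by
        apply hf.2.2 X (hB.trans hX)
        have g1 := h X hX
        have g2 := h _ hX.sh
        simp only at hM
        generalize f X = x at *
        generalize f (sh X) = y at *
        have hi : ∀ v ∈ D.bag x.1, ∃ p, p ∈ (R x).pts ∧ e x.1 p = v :=
          fun v hv => by rwa [← h2 _ g1, ← hp] at hv
        choose! i hi hi' using hi
        have hs : ∀ v ∈ D.bag x.1, M (i v) ⊆ box (a y.1) (b y.1) :=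
          fun v hv => hp y ▸ hM.sub _ (hi v hv)
        refine ⟨fun v => e y.1 '' M (i v), fun v hv => ⟨?_, ?_⟩, ?_, ?_⟩
        · rw [← h2 _ g2]
          exact image_mono (hs v hv)
        · exact (hM.conn _ (hi v hv)).image _ fun p k1 q k2 =>
            h3 _ g2 p (hs v hv k1) q (hs v hv k2)
        · rintro v hv w hw _ ⟨z, hz, rfl⟩ ⟨z', hz', e'⟩
          rw [h1 _ g2 (hs w hw hz') (hs v hv hz) e'] at hz'
          rw [← hi' v hv, ← hi' w hw, hM.disj _ (hi v hv) _ (hi w hw) z hz hz']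
        · intro v hv w hw hvw
          obtain ⟨p', k1, q', k2, k3, k4⟩ := hM.lab _ (hi v hv) _ (hi w hw) (by
            rcases hvw with rfl | hvw
            · exact ⟨Nat.le_succ _, Nat.le_succ _, Nat.le_succ _, Nat.le_succ _⟩
            · exact h4 _ g1 _ (hp x ▸ hi v hv) _ (hp x ▸ hi w hw) (by rwa [hi' v hv, hi' w hw]))
          refine ⟨_, ⟨p', k1, rfl⟩, _, ⟨q', k2, rfl⟩, fun e' => by rw [k3 (by rw [e'])], ?_⟩
          simp only [R, hi' v hv, hi' w hw] at k4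
          exact k4⟩
    exact ⟨C, g, hB.trans k1, k2, fun X hX => by
      obtain ⟨p, q, e'⟩ := k3 X hX
      exact ⟨_, _, e'⟩⟩
  · obtain ⟨C, hC, m, hm⟩ := ramsey_bdd hB.2
      ((hf.2.1.comp fun x => (D.bag x.1).ncard).mono hB.1) (N := k)
      fun X hX => (hsh _).resolve_left (h X hX)
    have he : ∀ t, ∃ e : ℕ → V, InjOn e (Iio (D.bag t).ncard) ∧
        e '' Iio (D.bag t).ncard = D.bag t := by
      intro t
      have := (D.fin t).to_subtype
      let E := Finite.equivFinOfCardEq (Nat.card_coe_set_eq (D.bag t))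
      refine ⟨fun i => if h : i < (D.bag t).ncard then E.symm ⟨i, h⟩ else (D.rt t).1, ?_, ?_⟩
      · intro i hi j hj e
        simp only [mem_Iio.1 hi, mem_Iio.1 hj, dif_pos] at e
        simpa using E.symm.injective (Subtype.ext e)
      · ext v
        constructor
        · rintro ⟨i, hi, rfl⟩
          simp only [mem_Iio.1 hi, dif_pos]
          exact Subtype.prop _
        · intro hv
          exact ⟨E ⟨v, hv⟩, (E ⟨v, hv⟩).2, by simp⟩
    choose e h1 h2 using he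
    obtain ⟨E, hE, hg | ⟨i, hb⟩⟩ := all_good_or_bad D.lle ((finite_Iio m).prod (finite_Iio m)) hC.2
      (f := fun (i : ℕ × ℕ) X => D.lab (f X) (e (f X).1 i.1) (e (f X).1 i.2))
      fun i => (hf.2.1.comp fun x => D.lab x (e x.1 i.1) (e x.1 i.2)).mono (hC.1.trans hB.1)
    · exfalso
      apply hf.2.2 E (hB.trans (hC.trans hE))
      have g1 := h1 (f E).1
      have g2 := h2 (f E).1
      have g3 := h1 (f (sh E)).1
      have g4 := h2 (f (sh E)).1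
      rw [hm E hE] at g1 g2
      rw [hm _ hE.sh] at g3 g4
      have hi : ∀ v ∈ D.bag (f E).1, ∃ i, i ∈ Iio m ∧ e (f E).1 i = v :=
        fun v hv => by rwa [← g2] at hv
      choose! i hi hi' using hi
      refine ⟨fun v => {e (f (sh E)).1 (i v)},
        fun v hv => ⟨?_, conn_singleton _⟩, ?_, fun v hv w hw _ => ⟨_, rfl, _, rfl,
          fun e' => by rw [e'], ?_⟩⟩
      · rw [← g4]
        exact singleton_subset_iff.2 ⟨_, hi v hv, rfl⟩
      · rintro v hv w hw _ rfl e'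
        rw [← hi' v hv, ← hi' w hw, g3 (hi v hv) (hi w hw) e']
      · have := hg (_, _) ⟨hi v hv, hi w hw⟩ E (Sub.refl hE.2)
        simp only [hi' v hv, hi' w hw] at this
        exact this
    · exact ⟨E, _, hB.trans (hC.trans hE), hb, fun X _ => ⟨_, _, rfl⟩⟩

theorem bad_child {k : ℕ} (hsh : ∀ t, D.Grid t ∨ (D.bag t).ncard ≤ k) {A : Set ℕ}
    {f : Set ℕ → T × Bool} (hf : Bad D.ple A f) :
    ∃ B g, Sub A B ∧ Bad D.ple B g ∧ ∀ X, Sub B X → D.ch (g X).1 (f X).1 := by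
  obtain ⟨B, g, h1, h2, h3⟩ := bad_lab_of_bad_TM hsh (f := f)
    ⟨hf.1, hf.2.1, fun X hX h => hf.2.2 X hX (ple_of_TM h)⟩
  obtain ⟨C, hC, l, hl⟩ := ramsey h1.2 (h2.2.1.comp Prod.snd)
  have hs : ∀ X, Sub C X → ∀ d ∈ (g X).1, D.ch d.1 (f X).1 := fun X hX d hd => by
    obtain ⟨p, q, e⟩ := h3 X (hC.trans hX)
    rw [e] at hd
    exact hd.1
  obtain ⟨E, c, k1, k2, k3⟩ := bad_of_bad_fle (le := D.ple) (A := C) (M := fun X => (g X).1)
    ⟨hC.2, (h2.2.1.comp Prod.fst).mono hC.1, fun X hX h => h2.2.2 X (hC.trans hX)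
      ⟨h, (hl X hX).trans (hl _ hX.sh).symm⟩⟩
    fun X hX => ((D.cnt (f X).1).prod countable_univ).mono fun d hd =>
      mk_mem_prod (hs X hX d hd) (mem_univ _)
  exact ⟨E, c, h1.trans (hC.trans k1), k2, fun X hX => hs X (k1.trans hX) _ (k3 X hX)⟩

theorem pr_trans (a b c : T × Bool) (h : D.pr a b) (h' : D.pr b c) : D.pr a c :=
  ⟨h.1.trans h'.1, fun s hs => h'.2 s (h.2 s hs)⟩

theorem pr_wf (Q : T × Bool → Prop) : WellFounded fun a b => D.pr a b ∧ Q a :=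
  Subrelation.wf (r := InvImage (TransGen D.ch) Prod.fst) (fun h => h.1.1)
    (InvImage.wf _ D.wf.transGen)

theorem bad_one {k : ℕ} (hsh : ∀ t, D.Grid t ∨ (D.bag t).ncard ≤ k) {A : Set ℕ}
    {f : Set ℕ → T × Bool} (hf : Bad D.ple A f) :
    ∃ B g, Sub A B ∧ Bad D.ple B g ∧ ∀ X, Sub B X → D.one (g X) ∧ TransGen D.ch (g X).1 (f X).1 := by
  obtain ⟨B, g, h1, h2, h3⟩ := bad_child hsh hf
  obtain ⟨C, hC, h | h⟩ := ramsey_prop h1.2 (h2.2.1.comp D.one)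
  · exact ⟨C, g, h1.trans hC, h2.mono hC, fun X hX =>
      ⟨h X hX, TransGen.single (h3 X (hC.trans hX))⟩⟩
  obtain ⟨E, g1, k1, k2, k3, kmin⟩ := mba (pr_wf (D := D) fun a => ¬ D.one a)
    (fun a b c h h' => ⟨pr_trans a b c h.1 h'.1, h.2⟩) (fun s t t' h h' => h.1.2 s h') (h2.mono hC)
  have k4 : ∀ X, Sub E X → ¬ D.one (g1 X) ∧ TransGen D.ch (g1 X).1 (f X).1 := fun X hX => by
    have := TransGen.single (h3 X (hC.trans (k1.trans hX)))
    rcases k3 X hX with e | e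
    · rw [e]
      exact ⟨h X (k1.trans hX), this⟩
    · exact ⟨e.2, e.1.1.trans this⟩
  obtain ⟨F, c, l1, l2, l3⟩ := bad_child hsh k2
  obtain ⟨H, hH, m | m⟩ := ramsey_prop l1.2 (l2.2.1.comp D.one)
  · exact ⟨H, c, h1.trans (hC.trans (k1.trans (l1.trans hH))), l2.mono hH, fun X hX =>
      ⟨m X hX, (k4 X (l1.trans (hH.trans hX))).2.head (l3 X (hH.trans hX))⟩⟩
  exfalso
  obtain ⟨J, hJ, n | n⟩ := ramsey_prop hH.2
    ((l2.2.1.comp₂ (k2.2.1.mono l1.1) D.pr).mono hH.1)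
  · exact kmin J c (l1.trans (hH.trans hJ)) (l2.mono (hH.trans hJ))
      fun X hX => ⟨n X hX, m X (hJ.trans hX)⟩
  · have l2' := l2.mono (hH.trans hJ)
    refine kmin J (fun X => ((c X).1, !(c X).2)) (l1.trans (hH.trans hJ))
      ⟨hJ.2, l2'.2.1.comp fun a => (a.1, !a.2), fun X hX hle => l2'.2.2 X hX ?_⟩
      fun X hX => ⟨?_, m X (hJ.trans hX)⟩
    · simpa using hle.flip
    · exact (pr_of_two (m X (hJ.trans hX)) (k4 X (l1.trans (hH.trans (hJ.trans hX)))).1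
        (l3 X (hH.trans (hJ.trans hX)))).resolve_left (n X hX)

theorem not_bad {k : ℕ} (hsh : ∀ t, D.Grid t ∨ (D.bag t).ncard ≤ k) {A : Set ℕ}
    {f : Set ℕ → T × Bool} (hf : Bad D.ple A f) : False := by
  obtain ⟨B, g, h1, h2, h3⟩ := bad_one hsh hf
  obtain ⟨E, g1, k1, k2, k3, kmin⟩ := mba (pr_wf (D := D) D.one)
    (fun a b c h h' => ⟨pr_trans a b c h.1 h'.1, h.2⟩) (fun s t t' h h' => h.1.2 s h') h2
  obtain ⟨F, c, l1, l2, l3⟩ := bad_one hsh k2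
  exact kmin F c l1 l2 fun X hX => ⟨pr_of_one (l3 X hX).1 (l3 X hX).2, (l3 X hX).1⟩

theorem root_unique {r s : T} (hr : D.par r = none) (hs : D.par s = none) {v : V}
    (h1 : v ∈ D.P r) (h2 : v ∈ D.P s) : r = s := by
  obtain ⟨a, a1, a2⟩ := h1
  obtain ⟨b, b1, b2⟩ := h2
  have k : ∀ r s, D.par r = none → ReflTransGen D.ch r s → r = s := fun r s hr h => by
    rcases h.cases_head with e | ⟨p, k, -⟩
    · exact e
    · simp [ch, hr] at k
  by_cases h : ReflTransGen D.ch b r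
  · rcases desc_total h b1 with h' | h'
    exacts [k _ _ hr h', (k _ _ hs h').symm]
  · obtain ⟨-, p, k, -⟩ := key a2 b2 a1 h
    simp [ch, hr] at k

theorem exists_model {k : ℕ} (hsh : ∀ t, D.Grid t ∨ (D.bag t).ncard ≤ k) (R : ℕ → Set T)
    (hc : ∀ n, (R n).Countable) (hR : ∀ n, ∀ r ∈ R n, D.par r = none ∧ D.one (r, false)) :
    ∃ i j, i < j ∧ ∃ B : V → Set V, ∀ r ∈ R i, ∀ v ∈ D.P r, (∃ s ∈ R j, B v ⊆ D.P s) ∧
      Conn G.Adj (B v) ∧ (B v).Nonempty ∧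
      (∀ r' ∈ R i, ∀ w ∈ D.P r', ∀ z ∈ B v, z ∈ B w → v = w) ∧
      ∀ w, G.Adj v w → ∃ x ∈ B v, ∃ y ∈ B w, G.Adj x y := by
  by_contra hcon
  let M : ℕ → Set (T × Bool) := fun n => R n ×ˢ {false}
  obtain ⟨B, g, -, h, -⟩ := bad_of_bad_fle (le := D.ple) (A := univ) (M := fun X => M (sInf X))
    ⟨infinite_univ, (LC_sInf _).comp M, fun X hX ⟨φ, h1, h2⟩ => by
      refine hcon ⟨_, _, hX.lt_sInf_sh, ?_⟩
      have hB : ∀ r, ∃ B, r ∈ R (sInf X) → D.PM (r, false) (φ (r, false)) B := fun r => by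
        by_cases H : r ∈ R (sInf X)
        · obtain ⟨B, h⟩ := (h2 (r, false) ⟨H, rfl⟩).2
          exact ⟨B, fun _ => h⟩
        · exact ⟨fun _ => ∅, fun h => absurd h H⟩
      choose B hB using hB
      have e : ∀ r ∈ R (sInf X), ∀ v ∈ D.P r,
          {z | ∃ r ∈ R (sInf X), v ∈ D.P r ∧ z ∈ B r v} = B r v := fun r hr v hv => by
        ext z
        constructor
        · rintro ⟨s, hs, k1, k2⟩
          exact root_unique (hR _ s hs).1 (hR _ r hr).1 k1 hv ▸ k2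
        · exact fun hz => ⟨r, hr, hv, hz⟩
      refine ⟨fun v => {z | ∃ r ∈ R (sInf X), v ∈ D.P r ∧ z ∈ B r v}, fun r hr v hv => ?_⟩
      have m := fun r hr => (h2 (r, false) ⟨hr, rfl⟩).1.1
      simp only [e r hr v hv]
      refine ⟨⟨_, m r hr, (hB r hr).sub v hv⟩, (hB r hr).conn v hv, (hB r hr).ne v hv,
        fun r' hr' w hw z hz hz' => ?_, fun w hvw => ?_⟩
      · rw [e r' hr' w hw] at hz'
        have e1 := root_unique (hR _ _ (m r hr)).1 (hR _ _ (m r' hr')).1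
          ((hB r hr).sub v hv hz) ((hB r' hr').sub w hw hz')
        have e2 := h1 (x₁ := (r, false)) ⟨hr, rfl⟩ (x₂ := (r', false)) ⟨hr', rfl⟩ (Prod.ext e1
          ((h2 (r, false) ⟨hr, rfl⟩).1.2.trans (h2 (r', false) ⟨hr', rfl⟩).1.2.symm))
        obtain rfl : r = r' := congrArg Prod.fst e2
        exact (hB r hr).disj v hv w hw z hz hz'
      · have hw : w ∈ D.P r := by
          obtain ⟨t, k1, k2⟩ := D.edge v w hvw
          obtain ⟨s, k3, k4⟩ := hv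
          by_cases h : ReflTransGen D.ch t r
          · exact ⟨t, h, k2⟩
          · obtain ⟨-, p, k, -⟩ := key k4 k1 k3 h
            simp [ch, (hR _ r hr).1] at k
        rw [e r hr w hw]
        refine ((hB r hr).adj v hv w hw hvw).resolve_left fun ⟨k1, k2⟩ => hvw.ne ?_
        have := (hR _ r hr).2
        simp only [one] at this k1 k2
        rw [← this, or_self] at k1 k2
        exact k1.trans k2.symm⟩
    fun X _ => (hc _).prod (countable_singleton _)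
  exact not_bad hsh h

end TD

open Pool.Agent.MP_699d75_co SimpleGraph

theorem conn_of_preconnected {W : Type*} {H : SimpleGraph W} {S : Set W}
    (h : (H.induce S).Preconnected) : Conn H.Adj S := by
  intro a ha b hb
  have : Reach (H.induce S).Adj univ ⟨a, ha⟩ ⟨b, hb⟩ := by
    obtain ⟨p⟩ := h ⟨a, ha⟩ ⟨b, hb⟩
    generalize (⟨a, ha⟩ : S) = x at p
    generalize (⟨b, hb⟩ : S) = y at p
    induction p with
    | nil => exact Reach.refl _ _
    | cons h _ ih => exact Reach.trans (Reach.single h (mem_univ _) (mem_univ _)) ih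
  exact this.lift Subtype.val fun x _ y _ h => Reach.single h x.2 y.2

theorem torso_adj {V T : Type} {G : SimpleGraph V} {par : T → Option T} {bag : T → Set V} {t : T}
    {x y : bag t} : (torso G par bag t).Adj x y ↔ TA G par bag t x y := by
  rw [torso, fromRel_adj]
  constructor
  · rintro ⟨h1, h2 | h2⟩
    · exact ⟨fun e => h1 (Subtype.ext e), x.2, y.2, h2⟩
    · exact ⟨fun e => h1 (Subtype.ext e), x.2, y.2,
        h2.imp (fun h => h.symm) fun ⟨s, a, b, c⟩ => ⟨s, a, c, b⟩⟩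
  · exact fun h => ⟨fun e => h.1 (congrArg _ e), Or.inl h.2.2.2⟩

theorem exists_TD {k : ℕ} {V : Type} {G : SimpleGraph V} (h : GridSum k G) :
    ∃ (T : Type) (D : TD G T), Countable T ∧ (∀ t, D.Grid t ∨ (D.bag t).ncard ≤ k) ∧
      (∀ r, D.par r = none → D.one (r, false)) ∧ ∀ v, ∃ r, D.par r = none ∧ v ∈ D.P r := by
  classical
  obtain ⟨T, par, bag, hc, w1, w2, hv, he, hs, ha, hsh⟩ := h
  have hg : ∀ t, GridLike (torso G par bag t) → ∃ (a b : ℕ) (e : ℕ × ℕ → V), 1 ≤ a ∧ 1 ≤ b ∧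
      InjOn e (box a b) ∧ e '' box a b = bag t ∧
      (∀ p ∈ box a b, ∀ q ∈ box a b, GA p q → TA G par bag t (e p) (e q)) ∧
      ∀ p ∈ box a b, ∀ q ∈ box a b, TA G par bag t (e p) (e q) → KA p q := by
    rintro t ⟨a, b, e, h1, h2⟩
    let c : ℕ × ℕ → Fin (a + 2) × Fin (b + 2) := fun p => (Fin.ofNat _ p.1, Fin.ofNat _ p.2)
    have hc : ∀ p ∈ box (a + 1) (b + 1), (c p).1.val = p.1 ∧ (c p).2.val = p.2 := fun p hp =>
      ⟨Nat.mod_eq_of_lt (Nat.lt_succ_of_le hp.1), Nat.mod_eq_of_lt (Nat.lt_succ_of_le hp.2)⟩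
    refine ⟨a + 1, b + 1, fun p => e (c p), Nat.le_add_left _ _, Nat.le_add_left _ _, ?_, ?_, ?_, ?_⟩
    · intro p hp q hq e'
      have := e.injective (Subtype.ext e')
      exact Prod.ext (by rw [← (hc p hp).1, this, (hc q hq).1])
        (by rw [← (hc p hp).2, this, (hc q hq).2])
    · ext v
      constructor
      · rintro ⟨p, -, rfl⟩
        exact Subtype.prop _
      · intro hv
        obtain ⟨⟨i, j⟩, hij⟩ := e.surjective ⟨v, hv⟩
        exact ⟨(i, j), ⟨Nat.le_of_lt_succ i.2, Nat.le_of_lt_succ j.2⟩, by simp [c, hij]⟩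
    · intro p hp q hq hpq
      refine torso_adj.1 (h1 _ _ ?_)
      rw [boxProd_adj, pathGraph_adj, pathGraph_adj, Fin.ext_iff, Fin.ext_iff, (hc p hp).1,
        (hc p hp).2, (hc q hq).1, (hc q hq).2]
      unfold GA at hpq
      omega
    · intro p hp q hq hpq
      have k1 := h2 _ _ (torso_adj.2 hpq)
      have k2 := h2 _ _ (torso_adj.2 hpq).symm
      rw [(hc p hp).1, (hc p hp).2, (hc q hq).1, (hc q hq).2] at k1 k2
      exact ⟨k1.1, k2.1, k1.2, k2.2⟩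
  have hne : ∀ t, (bag t).Nonempty := fun t => by
    rcases hsh t with h | h
    · obtain ⟨a, b, e, -, -, -, h, -⟩ := hg t h
      exact h ▸ ⟨_, (0, 0), ⟨Nat.zero_le _, Nat.zero_le _⟩, rfl⟩
    · exact nonempty_coe_sort.1 h.2.2.1.nonempty
  have hfin : ∀ t, (bag t).Finite := fun t => by
    rcases hsh t with ⟨a, b, e, -⟩ | h
    · exact finite_coe_iff.1 (Finite.of_equiv _ e)
    · exact h.1
  have hc1 : ∀ t (S : Set (bag t)), Conn (torso G par bag t).Adj S →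
      Conn (TA G par bag t) (Subtype.val '' S) := fun t S h =>
    h.image _ fun _ _ _ _ h => torso_adj.1 h
  have hc2 : ∀ t (w : Option V), Conn (TA G par bag t) (bag t \ {v | w = some v}) := by
    intro t w
    rcases hsh t with h | h
    · obtain ⟨a, b, e, h1, h2, h3, h4, h5, -⟩ := hg t h
      obtain ⟨z, hz⟩ : ∃ z, bag t \ {v | w = some v} = e '' (box a b \ {z}) := by
        by_cases H : ∃ z ∈ box a b, w = some (e z)
        · obtain ⟨z, k1, rfl⟩ := H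
          refine ⟨z, ?_⟩
          rw [h3.image_sdiff_subset (singleton_subset_iff.2 k1), h4]
          congr 1
          ext v; simp [eq_comm]
        · refine ⟨(a + 1, 0), ?_⟩
          rw [sdiff_singleton_eq_self (fun h => by simpa using h.1), h4, sdiff_eq_left]
          rw [← h4]
          exact disjoint_left.2 (by rintro _ ⟨z, k, rfl⟩ k'; exact H ⟨z, k, k'⟩)
      rw [hz]
      exact (conn_box h1 h2 z).image _ fun p hp q hq => h5 p hp.1 q hq.1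
    · by_cases H : ∃ z : bag t, w = some z.1
      · obtain ⟨z, rfl⟩ := H
        convert hc1 t _ (conn_of_preconnected (h.2.2.2 z)) using 1
        ext v
        constructor
        · exact fun k => ⟨⟨v, k.1⟩, fun e => k.2 (by simp [← mem_singleton_iff.1 e]), rfl⟩
        · rintro ⟨x, k, rfl⟩
          exact ⟨x.2, fun e => k (Subtype.ext (Option.some_injective _ e).symm)⟩
      · convert hc1 t univ (conn_of_preconnected
          ((induceUnivIso _).preconnected_iff.2 h.2.2.1.preconnected)) using 1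
        ext v
        constructor
        · exact fun k => ⟨⟨v, k.1⟩, trivial, rfl⟩
        · rintro ⟨x, -, rfl⟩
          exact ⟨x.2, fun e => H ⟨x, e⟩⟩
  let pick : Set V → V × V → Prop := fun S p => S = {p.1, p.2}
  let rt : T → V × V := fun c => match par c with
    | none => ((hne c).some, (hne c).some)
    | some t => @Classical.epsilon _ ⟨((hne t).some, (hne t).some)⟩ (pick (bag c ∩ bag t))
  have hrt : ∀ c t, par c = some t → bag c ∩ bag t = {(rt c).1, (rt c).2} := fun c t h => by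
    obtain ⟨u, v, e⟩ := (ha c t h).1
    simp only [rt, h]
    exact Classical.epsilon_spec (p := pick (bag c ∩ bag t)) ⟨(u, v), e⟩
  refine ⟨T, ⟨par, bag, rt, w1, fun _ => to_countable _, he, hs, hrt, fun t => ?_, ?_,
    fun c t h => (ha c t h).2, hfin, fun t => by simpa using hc2 t none,
    fun t w => by simpa [eq_comm] using hc2 t (some w)⟩, hc, fun t => ?_, fun r hr => ?_, fun v => ?_⟩
  · rcases e : par t with _ | p
    · simp only [rt, e]
      exact ⟨(hne t).some_mem, (hne t).some_mem⟩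
    · exact ⟨((hrt t p e).superset (Or.inl rfl)).1, ((hrt t p e).superset (Or.inr rfl)).1⟩
  · intro c d t h1 h2 e
    rw [← hrt c t h1, ← hrt d t h2] at e
    simp only [rt, h1, h2, e]
  · refine (hsh t).imp (fun h => ?_) fun h => h.2.1
    obtain ⟨a, b, e, -, -, h⟩ := hg t h
    exact ⟨a, b, e, h⟩
  · simp only at hr
    simp only [TD.one, rt, hr]
  · obtain ⟨t, ht⟩ := hv v
    have : ∀ t, ∃ r, par r = none ∧ ReflTransGen (fun c t => par c = some t) t r := by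
      intro t
      induction t using w2.induction with
      | _ t ih =>
        rcases e : par t with _ | p
        · exact ⟨t, e, ReflTransGen.refl⟩
        · obtain ⟨r, h1, h2⟩ := ih p e
          exact ⟨r, h1, h2.head e⟩
    obtain ⟨r, h1, h2⟩ := this t
    exact ⟨r, h1, t, h2, ht⟩

section sigma

variable {V T : ℕ → Type} {G : ∀ n, SimpleGraph (V n)}

/-- The disjoint union of a sequence of graphs. -/
def sigG (G : ∀ n, SimpleGraph (V n)) : SimpleGraph (Σ n, V n) where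
  Adj x y := ∃ n a b, x = ⟨n, a⟩ ∧ y = ⟨n, b⟩ ∧ (G n).Adj a b
  symm := ⟨fun _ _ ⟨n, a, b, h1, h2, h⟩ => ⟨n, b, a, h2, h1, h.symm⟩⟩
  loopless := ⟨by
    rintro _ ⟨n, a, b, rfl, h2, h⟩
    exact h.ne (sigma_mk_injective h2)⟩

theorem sigG_adj {n : ℕ} {a : V n} {y : Σ n, V n} :
    (sigG G).Adj ⟨n, a⟩ y ↔ ∃ b, y = ⟨n, b⟩ ∧ (G n).Adj a b := by
  constructor
  · rintro ⟨m, a', b, h1, rfl, h⟩
    cases h1
    exact ⟨b, rfl, h⟩
  · rintro ⟨b, rfl, h⟩
    exact ⟨n, a, b, rfl, rfl, h⟩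

/-- Parents in the disjoint union. -/
def sigP (D : ∀ n, TD (G n) (T n)) (x : Σ n, T n) : Option (Σ n, T n) :=
  ((D x.1).par x.2).map (Sigma.mk x.1)

/-- Bags in the disjoint union. -/
def sigB (D : ∀ n, TD (G n) (T n)) (x : Σ n, T n) : Set (Σ n, V n) :=
  Sigma.mk x.1 '' (D x.1).bag x.2

variable {D : ∀ n, TD (G n) (T n)}

theorem sigP_iff {x y : Σ n, T n} :
    sigP D x = some y ↔ ∃ n c t, x = ⟨n, c⟩ ∧ y = ⟨n, t⟩ ∧ (D n).par c = some t := by
  constructor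
  · intro h
    obtain ⟨t, h1, h2⟩ := Option.map_eq_some_iff.1 h
    exact ⟨x.1, x.2, t, rfl, h2.symm, h1⟩
  · rintro ⟨n, c, t, rfl, rfl, h⟩
    simp [sigP, h]

theorem sigB_iff {n : ℕ} {t : T n} {a : V n} : (⟨n, a⟩ : Σ n, V n) ∈ sigB D ⟨n, t⟩ ↔
    a ∈ (D n).bag t := sigma_mk_injective.mem_set_image

theorem sig_ta {n : ℕ} {t : T n} {a b : V n} :
    TA (sigG G) (sigP D) (sigB D) ⟨n, t⟩ ⟨n, a⟩ ⟨n, b⟩ ↔ (D n).ta t a b := by
  constructor
  · rintro ⟨h1, h2, h3, h4 | ⟨s, h4 | h4, h5, h6⟩⟩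
    · obtain ⟨b', e, h⟩ := sigG_adj.1 h4
      cases e
      exact ⟨h.ne, sigB_iff.1 h2, sigB_iff.1 h3, Or.inl h⟩
    · obtain ⟨m, c, t', rfl, e, h⟩ := sigP_iff.1 h4
      cases e
      exact ⟨fun e => h1 (by rw [e]), sigB_iff.1 h2, sigB_iff.1 h3,
        Or.inr ⟨c, Or.inl h, sigB_iff.1 h5, sigB_iff.1 h6⟩⟩
    · obtain ⟨m, c, t', e, rfl, h⟩ := sigP_iff.1 h4
      cases e
      exact ⟨fun e => h1 (by rw [e]), sigB_iff.1 h2, sigB_iff.1 h3,
        Or.inr ⟨t', Or.inr h, sigB_iff.1 h5, sigB_iff.1 h6⟩⟩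
  · rintro ⟨h1, h2, h3, h4⟩
    refine ⟨fun e => h1 (sigma_mk_injective e), sigB_iff.2 h2, sigB_iff.2 h3,
      h4.imp (fun h => sigG_adj.2 ⟨b, rfl, h⟩) fun ⟨s, h4, h5, h6⟩ => ⟨⟨n, s⟩, h4.imp
        (fun h => sigP_iff.2 ⟨n, s, t, rfl, rfl, h⟩) (fun h => sigP_iff.2 ⟨n, t, s, rfl, rfl, h⟩),
        sigB_iff.2 h5, sigB_iff.2 h6⟩⟩

/-- The disjoint union of decompositions. -/
def sigD (D : ∀ n, TD (G n) (T n)) : TD (sigG G) (Σ n, T n) where
  par := sigP D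
  bag := sigB D
  rt x := (⟨x.1, ((D x.1).rt x.2).1⟩, ⟨x.1, ((D x.1).rt x.2).2⟩)
  wf := ⟨fun ⟨n, t⟩ => by
    induction t using (D n).wf.induction with
    | _ t ih =>
      refine ⟨_, fun y hy => ?_⟩
      obtain ⟨m, c, t', rfl, e, h⟩ := sigP_iff.1 hy
      cases e
      exact ih c h⟩
  cnt := fun ⟨n, t⟩ => (((D n).cnt t).image (Sigma.mk n)).mono fun y hy => by
    obtain ⟨m, c, t', rfl, e, h⟩ := sigP_iff.1 hy
    cases e
    exact ⟨c, h, rfl⟩
  edge := by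
    rintro _ _ ⟨n, a, b, rfl, rfl, h⟩
    obtain ⟨t, h1, h2⟩ := (D n).edge a b h
    exact ⟨⟨n, t⟩, sigB_iff.2 h1, sigB_iff.2 h2⟩
  sub := by
    rintro _ ⟨n, s⟩ ⟨m, t⟩ ⟨a, ha, rfl⟩ ⟨b, hb, e⟩
    cases e
    have := (D n).sub a s t ha hb
    clear ha hb
    induction this with
    | rel x y h => exact EqvGen.rel _ _ ⟨sigP_iff.2 ⟨n, x, y, rfl, rfl, h.1⟩, sigB_iff.2 h.2.1,
        sigB_iff.2 h.2.2⟩
    | refl => exact EqvGen.refl _
    | symm _ _ _ ih => exact EqvGen.symm _ _ ih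
    | trans _ _ _ _ _ ih ih' => exact EqvGen.trans _ _ _ ih ih'
  adh := by
    intro _ _ h
    obtain ⟨n, c, t, rfl, rfl, g⟩ := sigP_iff.1 h
    simp only [sigB]
    rw [← image_inter sigma_mk_injective, (D n).adh c t g, image_pair]
  rtmem := fun ⟨n, t⟩ => ⟨sigB_iff.2 ((D n).rtmem t).1, sigB_iff.2 ((D n).rtmem t).2⟩
  can := by
    intro _ _ _ h h' e
    obtain ⟨n, c, t, rfl, rfl, g⟩ := sigP_iff.1 h
    obtain ⟨m, d, t', rfl, e', g'⟩ := sigP_iff.1 h'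
    cases e'
    simp only [← image_pair (Sigma.mk n)] at e
    simp only [(D n).can c d t g g' (sigma_mk_injective.image_injective e)]
  big := by
    intro _ _ h
    obtain ⟨n, c, t, rfl, rfl, g⟩ := sigP_iff.1 h
    exact fun k => (D n).big c t g fun a ha => sigB_iff.1 (k (sigB_iff.2 ha))
  fin := fun ⟨n, t⟩ => ((D n).fin t).image _
  conn1 := fun ⟨n, t⟩ => ((D n).conn1 t).image _ fun _ _ _ _ h => sig_ta.2 h
  conn2 := by
    rintro ⟨n, t⟩ ⟨m, w⟩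
    by_cases e : m = n
    · subst e
      have := ((D m).conn2 t w).image (Sigma.mk m) fun _ _ _ _ h => (sig_ta (D := D)).2 h
      rwa [image_sdiff sigma_mk_injective, image_singleton] at this
    · rw [sdiff_singleton_eq_self (by
        rintro ⟨a, _, h⟩
        exact e (congrArg Sigma.fst h).symm)]
      exact ((D n).conn1 t).image _ fun _ _ _ _ h => sig_ta.2 h

theorem sig_P {n : ℕ} {t : T n} : (sigD D).P ⟨n, t⟩ = Sigma.mk n '' (D n).P t := by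
  ext x
  constructor
  · rintro ⟨s, h1, h2⟩
    have : ∃ s', s = ⟨n, s'⟩ ∧ ReflTransGen (D n).ch s' t := by
      clear h2
      induction h1 using ReflTransGen.head_induction_on with
      | refl => exact ⟨t, rfl, ReflTransGen.refl⟩
      | head h _ ih =>
        obtain ⟨s', rfl, k⟩ := ih
        obtain ⟨m, c, t', rfl, e, h⟩ := sigP_iff.1 h
        cases e
        exact ⟨c, rfl, k.head h⟩
    obtain ⟨s', rfl, k⟩ := this
    obtain ⟨a, ha, rfl⟩ := h2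
    exact ⟨a, ⟨s', k, ha⟩, rfl⟩
  · rintro ⟨a, ⟨s, h1, h2⟩, rfl⟩
    exact ⟨⟨n, s⟩, h1.lift (Sigma.mk n) fun c t h => sigP_iff.2 ⟨n, c, t, rfl, rfl, h⟩,
      sigB_iff.2 h2⟩

theorem connected_of_conn {n : ℕ} {S : Set (V n)} (h : Conn (sigG G).Adj (Sigma.mk n '' S))
    (hS : S.Nonempty) : ((G n).induce S).Connected := by
  have : Nonempty S := hS.to_subtype
  refine ⟨fun a b => ?_⟩
  have k : ∀ y, Reach (sigG G).Adj (Sigma.mk n '' S) ⟨n, a⟩ y →
      ∃ c : S, y = ⟨n, c⟩ ∧ ((G n).induce S).Reachable a c := by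
    intro y hy
    induction hy with
    | refl => exact ⟨a, rfl, Reachable.refl _⟩
    | tail _ h ih =>
      obtain ⟨c, rfl, k⟩ := ih
      obtain ⟨d, rfl, k'⟩ := sigG_adj.1 h.1
      exact ⟨⟨d, sigma_mk_injective.mem_set_image.1 h.2.2⟩, rfl, k.trans (Adj.reachable k')⟩
  obtain ⟨c, e, k'⟩ := k _ (h _ ⟨a, a.2, rfl⟩ _ ⟨b, b.2, rfl⟩)
  rwa [Subtype.ext (sigma_mk_injective e)]

theorem wqo_gridSum (k : ℕ) (V : ℕ → Type) (G : ∀ n, SimpleGraph (V n))
    (h : ∀ n, GridSum k (G n)) : ∃ i j : ℕ, i < j ∧ ∃ B : V i → Set (V j),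
      (∀ h, ((G j).induce (B h)).Connected) ∧ (∀ h h', h ≠ h' → Disjoint (B h) (B h')) ∧
      (∀ h h', (G i).Adj h h' → ∃ a ∈ B h, ∃ b ∈ B h', (G j).Adj a b) := by
  choose T D hc hsh hone hroot using fun n => exists_TD (h n)
  obtain ⟨i, j, hij, B, hB⟩ := (sigD D).exists_model (k := k) (by
      rintro ⟨n, t⟩
      rcases hsh n t with ⟨a, b, e, h1, h2, h3, h4⟩ | h
      · refine Or.inl ⟨a, b, fun p => ⟨n, e p⟩, sigma_mk_injective.comp_injOn h1, ?_,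
          fun p hp q hq h => sig_ta.2 (h3 p hp q hq h), fun p hp q hq h => h4 p hp q hq (sig_ta.1 h)⟩
        rw [← image_image (Sigma.mk n), h2]
        rfl
      · exact Or.inr ((ncard_image_of_injective _ sigma_mk_injective).trans_le h))
    (fun n => Sigma.mk n '' {r | (D n).par r = none}) (fun n => (to_countable _).image _) (by
      rintro n _ ⟨r, hr, rfl⟩
      exact ⟨by simpa [sigD, sigP] using hr, congrArg (Sigma.mk n) (hone n r hr)⟩)
  choose r hr hv using hroot i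
  have k := fun v => hB ⟨i, r v⟩ ⟨r v, hr v, rfl⟩ ⟨i, v⟩ (sig_P ▸ ⟨v, hv v, rfl⟩)
  have e : ∀ v, B ⟨i, v⟩ = Sigma.mk j '' (Sigma.mk j ⁻¹' B ⟨i, v⟩) := fun v => by
    obtain ⟨_, ⟨s, -, rfl⟩, h⟩ := (k v).1
    rw [sig_P] at h
    exact (image_preimage_eq_of_subset (h.trans (image_subset_range _ _))).symm
  refine ⟨i, j, hij, fun v => Sigma.mk j ⁻¹' B ⟨i, v⟩, fun v => connected_of_conn (e v ▸ (k v).2.1)
    (image_nonempty.1 (e v ▸ (k v).2.2.1)), fun v w hvw => disjoint_left.2 fun z h1 h2 =>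
      hvw (sigma_mk_injective ((k v).2.2.2.1 _ ⟨r w, hr w, rfl⟩ _ (sig_P ▸ ⟨w, hv w, rfl⟩) _ h1 h2)),
    fun v w hvw => ?_⟩
  obtain ⟨x, h1, y, h2, h3⟩ := (k v).2.2.2.2 ⟨i, w⟩ (sigG_adj.2 ⟨w, rfl, hvw⟩)
  rw [e] at h1
  obtain ⟨a, ha, rfl⟩ := h1
  obtain ⟨b, rfl, h4⟩ := sigG_adj.1 h3
  exact ⟨a, ha, b, h2, h4⟩

end sigma

end Pool.Agent.H80W
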