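import Mathlib

-- part MP_699d75_co.Arr
section

/-!
Arrays on infinite subsets of the naturals: locally constant maps, the clopen Ramsey theorem,
the growth lemma, the minimal bad array lemma, and countable sets under injective domination.
-/

namespace Pool.Agent.H80W

open Set

/-- `X` is an infinite subset of `A`. -/
def Sub (A X : Set ℕ) : Prop := X ⊆ A ∧ X.Infinite

/-- The shift: remove the least element. -/
noncomputable def sh (X : Set ℕ) : Set ℕ := X \ {sInf X}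

/-- Locally constant on the infinite subsets of `A`. -/
def LC {α : Sort*} (A : Set ℕ) (f : Set ℕ → α) : Prop :=
  ∀ X, Sub A X → ∃ n, ∀ Y, Sub A Y → (∀ i < n, i ∈ X ↔ i ∈ Y) → f Y = f X

/-- Bad arrays. -/
def Bad {α : Type*} (le : α → α → Prop) (A : Set ℕ) (f : Set ℕ → α) : Prop :=
  A.Infinite ∧ LC A f ∧ ∀ X, Sub A X → ¬ le (f X) (f (sh X))

theorem Sub.trans {A B X : Set ℕ} (h : Sub A B) (h' : Sub B X) : Sub A X :=
  ⟨h'.1.trans h.1, h'.2⟩

theorem Sub.mono {A B X : Set ℕ} (h' : Sub B X) (h : B ⊆ A) : Sub A X := ⟨h'.1.trans h, h'.2⟩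

theorem Sub.refl {A : Set ℕ} (h : A.Infinite) : Sub A A := ⟨Subset.rfl, h⟩

theorem sh_subset (X : Set ℕ) : sh X ⊆ X := sdiff_subset

theorem Sub.sh {A X : Set ℕ} (h : Sub A X) : Sub A (sh X) :=
  ⟨(sh_subset X).trans h.1, h.2.sdiff (finite_singleton _)⟩

theorem Sub.sInf_mem {A X : Set ℕ} (h : Sub A X) : sInf X ∈ X := Nat.sInf_mem h.2.nonempty

theorem mem_sh {X : Set ℕ} {i : ℕ} : i ∈ sh X ↔ i ∈ X ∧ sInf X < i := by
  constructor
  · rintro ⟨h1, h2⟩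
    exact ⟨h1, lt_of_le_of_ne (Nat.sInf_le h1) (Ne.symm h2)⟩
  · rintro ⟨h1, h2⟩
    exact ⟨h1, h2.ne'⟩

theorem Sub.lt_sInf_sh {A X : Set ℕ} (h : Sub A X) : sInf X < sInf (H80W.sh X) :=
  (mem_sh.1 h.sh.sInf_mem).2

theorem Sub.insert_sh {A X : Set ℕ} (h : Sub A X) : insert (sInf X) (H80W.sh X) = X :=
  insert_sdiff_singleton.trans (insert_eq_of_mem h.sInf_mem)

theorem sInf_insert_of_lt {Y : Set ℕ} {x : ℕ} (h : x < sInf Y) : sInf (insert x Y) = x := by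
  apply le_antisymm (Nat.sInf_le (mem_insert _ _))
  rcases Nat.sInf_mem (insert_nonempty x Y) with h1 | h1
  · exact h1.ge
  · exact h.le.trans (Nat.sInf_le h1)

theorem sh_insert_of_lt {Y : Set ℕ} {x : ℕ} (h : x < sInf Y) : sh (insert x Y) = Y := by
  ext i
  rw [mem_sh, sInf_insert_of_lt h]
  constructor
  · rintro ⟨h1 | h1, h2⟩
    · omega
    · exact h1
  · intro h1
    exact ⟨Or.inr h1, h.trans_le (Nat.sInf_le h1)⟩

theorem Sub.insert {A Y : Set ℕ} {x : ℕ} (h : Sub A Y) (hx : x ∈ A) : Sub A (insert x Y) :=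
  ⟨insert_subset hx h.1, h.2.mono (subset_insert _ _)⟩

theorem Sub.union {A Y s : Set ℕ} (h : Sub A Y) (hs : s ⊆ A) : Sub A (s ∪ Y) :=
  ⟨union_subset hs h.1, h.2.mono subset_union_right⟩

theorem sub_inter_Ioi {A : Set ℕ} (h : A.Infinite) (a : ℕ) : Sub A (A ∩ Ioi a) := by
  refine ⟨inter_subset_left, ?_⟩
  have : A ∩ Ioi a = A \ Iic a := by ext i; simp
  rw [this]
  exact h.sdiff (finite_Iic a)

theorem sub_inter_Ici {A : Set ℕ} (h : A.Infinite) (a : ℕ) : Sub A (A ∩ Ici a) :=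
  ⟨inter_subset_left, (sub_inter_Ioi h a).2.mono (inter_subset_inter_right _ Ioi_subset_Ici_self)⟩

variable {α β γ : Type*}

theorem LC.mono {A B : Set ℕ} {f : Set ℕ → α} (h : LC A f) (hB : B ⊆ A) : LC B f := by
  intro X hX
  obtain ⟨n, hn⟩ := h X (hX.mono hB)
  exact ⟨n, fun Y hY => hn Y (hY.mono hB)⟩

theorem LC.comp {A : Set ℕ} {f : Set ℕ → α} (h : LC A f) (g : α → β) :
    LC A (fun X => g (f X)) := by
  intro X hX
  obtain ⟨n, hn⟩ := h X hX
  exact ⟨n, fun Y hY h' => by simp only [hn Y hY h']⟩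

theorem LC.comp₂ {A : Set ℕ} {f : Set ℕ → α} {f' : Set ℕ → β} (h : LC A f) (h' : LC A f')
    (g : α → β → γ) : LC A (fun X => g (f X) (f' X)) := by
  intro X hX
  obtain ⟨n, hn⟩ := h X hX
  obtain ⟨m, hm⟩ := h' X hX
  exact ⟨max n m, fun Y hY e => by
    simp only [hn Y hY fun i hi => e i (lt_max_of_lt_left hi),
      hm Y hY fun i hi => e i (lt_max_of_lt_right hi)]⟩

theorem LC.congr {A : Set ℕ} {f g : Set ℕ → α} (h : LC A f) (e : ∀ X, Sub A X → g X = f X) :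
    LC A g := by
  intro X hX
  obtain ⟨n, hn⟩ := h X hX
  exact ⟨n, fun Y hY h' => by rw [e Y hY, e X hX, hn Y hY h']⟩

theorem sInf_eq_of_agree {X Y : Set ℕ} (hX : X.Nonempty) {n : ℕ} (hn : sInf X < n)
    (e : ∀ i < n, i ∈ X ↔ i ∈ Y) : sInf Y = sInf X := by
  have h1 : sInf X ∈ Y := (e _ hn).1 (Nat.sInf_mem hX)
  have h2 : sInf Y ≤ sInf X := Nat.sInf_le h1
  exact le_antisymm h2 (Nat.sInf_le ((e _ (h2.trans_lt hn)).2 (Nat.sInf_mem ⟨_, h1⟩)))

theorem LC_sInf (A : Set ℕ) : LC A (fun X => sInf X) := fun X hX =>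
  ⟨sInf X + 1, fun _ _ e => sInf_eq_of_agree hX.2.nonempty (Nat.lt_succ_self _) e⟩

theorem LC.sh {A : Set ℕ} {f : Set ℕ → α} (h : LC A f) : LC A (fun X => f (sh X)) := by
  intro X hX
  obtain ⟨n, hn⟩ := h _ hX.sh
  refine ⟨max n (sInf X + 1), fun Y hY e => hn _ hY.sh fun i hi => ?_⟩
  rw [mem_sh, mem_sh, sInf_eq_of_agree hX.2.nonempty (lt_max_of_lt_right (Nat.lt_succ_self _)) e,
    e i (lt_max_of_lt_left hi)]

theorem LC.union {A s : Set ℕ} {f : Set ℕ → α} (h : LC A f) (hs : s ⊆ A) :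
    LC A (fun X => f (s ∪ X)) := by
  intro X hX
  obtain ⟨n, hn⟩ := h _ (hX.union hs)
  exact ⟨n, fun Y hY e => hn _ (hY.union hs) fun i hi => by simp [e i hi]⟩

/-- A uniform modulus for finitely many maps. -/
theorem exists_modulus {ι : Type*} {I : Set ι} (hI : I.Finite) (P : ι → ℕ → Prop)
    (hm : ∀ i n m, n ≤ m → P i n → P i m) (h : ∀ i ∈ I, ∃ n, P i n) : ∃ n, ∀ i ∈ I, P i n := by
  choose! N hN using h
  obtain ⟨M, hM⟩ := (hI.image N).bddAbove
  exact ⟨M, fun i hi => hm i _ _ (hM (mem_image_of_mem _ hi)) (hN i hi)⟩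

/-- The set of values at the predecessors of `Y`. -/
def preds (A : Set ℕ) (f : Set ℕ → α) (Y : Set ℕ) : Set α :=
  (fun x => f (insert x Y)) '' {x | x ∈ A ∧ x < sInf Y}

theorem preds_finite (A : Set ℕ) (f : Set ℕ → α) (Y : Set ℕ) : (preds A f Y).Finite :=
  ((finite_Iio (sInf Y)).subset fun _ hx => hx.2).image _

theorem mem_preds {A X : Set ℕ} (f : Set ℕ → α) (h : Sub A X) : f X ∈ preds A f (sh X) :=
  ⟨sInf X, ⟨h.1 h.sInf_mem, h.lt_sInf_sh⟩, by simp only [h.insert_sh]⟩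

theorem LC.preds {A : Set ℕ} {f : Set ℕ → α} (h : LC A f) : LC A (preds A f) := by
  intro X hX
  obtain ⟨n, hn⟩ := exists_modulus (I := {x | x ∈ A ∧ x < sInf X})
    ((finite_Iio (sInf X)).subset fun _ hx => hx.2)
    (fun x n => ∀ Y, Sub A Y → (∀ i < n, i ∈ X ↔ i ∈ Y) → f (insert x Y) = f (insert x X))
    (fun x n m hnm H Y hY e => H Y hY fun i hi => e i (hi.trans_le hnm))
    (fun x hx => by
      obtain ⟨n, hn⟩ := h _ (hX.insert hx.1)
      exact ⟨n, fun Y hY e => hn _ (hY.insert hx.1) fun i hi => by simp [e i hi]⟩)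
  refine ⟨max n (sInf X + 1), fun Y hY e => ?_⟩
  have e1 := sInf_eq_of_agree hX.2.nonempty (lt_max_of_lt_right (Nat.lt_succ_self _)) e
  unfold H80W.preds
  rw [e1]
  exact image_congr fun x hx => hn x hx Y hY fun i hi => e i (lt_max_of_lt_left hi)

theorem Bad.mono {le : α → α → Prop} {A B : Set ℕ} {f : Set ℕ → α} (h : Bad le A f)
    (hB : Sub A B) : Bad le B f :=
  ⟨hB.2, h.2.1.mono hB.1, fun X hX => h.2.2 X (hB.trans hX)⟩

/-- Dependent choice. -/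
theorem exists_chain {σ : Type*} (P : σ → Prop) (R : σ → σ → Prop) (x : σ) (hx : P x)
    (h : ∀ y, P y → ∃ z, P z ∧ R y z) :
    ∃ u : ℕ → σ, u 0 = x ∧ (∀ n, P (u n)) ∧ ∀ n, R (u n) (u (n + 1)) := by
  choose! F hF using h
  have : ∀ n, P (F^[n] x) := by
    intro n
    induction n with
    | zero => exact hx
    | succ n ih => rw [Function.iterate_succ_apply']; exact (hF _ ih).1
  refine ⟨fun n => F^[n] x, rfl, this, fun n => ?_⟩
  simp only [Function.iterate_succ_apply']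
  exact (hF _ (this n)).2

/-- Fusion. -/
theorem fusion {A : Set ℕ} (hA : A.Infinite) (P : ℕ → Set ℕ → Prop)
    (hm : ∀ a B B', P a B → Sub B B' → P a B')
    (h : ∀ a ∈ A, ∀ A', Sub A A' → ∃ B, Sub A' B ∧ P a B) :
    ∃ C, Sub A C ∧ ∀ a ∈ C, P a (C ∩ Ioi a) := by
  obtain ⟨u, h0, h1, h2⟩ := exists_chain (fun B => Sub A B)
    (fun B B' => B' ⊆ sh B ∧ P (sInf B) B') A (Sub.refl hA) (fun B hB => by
      obtain ⟨B', hB', hP⟩ := h _ (hB.1 hB.sInf_mem) _ hB.sh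
      exact ⟨B', hB.sh.trans hB', hB'.1, hP⟩)
  have hanti : Antitone u := antitone_nat_of_succ_le fun n => (h2 n).1.trans (sh_subset _)
  have hs : StrictMono fun n => sInf (u n) := strictMono_nat_of_lt_succ fun n =>
    (mem_sh.1 ((h2 n).1 (h1 (n + 1)).sInf_mem)).2
  have hC : (range fun n => sInf (u n)).Infinite := infinite_range_of_injective hs.injective
  refine ⟨range fun n => sInf (u n), ⟨?_, hC⟩, ?_⟩
  · rintro _ ⟨n, rfl⟩
    exact (h1 n).1 (h1 n).sInf_mem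
  · rintro _ ⟨n, rfl⟩
    refine hm _ _ _ (h2 n).2 ⟨?_, (sub_inter_Ioi hC _).2⟩
    rintro _ ⟨⟨m, rfl⟩, hlt⟩
    exact hanti (Nat.succ_le_of_lt (hs.lt_iff_lt.1 hlt)) (h1 m).sInf_mem

/-- The clopen Ramsey theorem. -/
theorem ramsey [Finite β] {A : Set ℕ} (hA : A.Infinite) {c : Set ℕ → β} (hc : LC A c) :
    ∃ B, Sub A B ∧ ∃ b, ∀ X, Sub B X → c X = b := by
  by_contra hcon
  let hom : Set ℕ → Set ℕ → Prop := fun s B => ∃ b, ∀ X, Sub B X → c (s ∪ X) = b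
  have hmono : ∀ s B B', hom s B → Sub B B' → hom s B' := fun s B B' ⟨b, hb⟩ hB' =>
    ⟨b, fun X hX => hb X (hB'.trans hX)⟩
  have key : ∀ s A', Sub A A' → (∀ B, Sub A' B → ¬ hom s B) →
      ∃ a ∈ A', ∃ A'', Sub A' A'' ∧ ∀ B, Sub A'' B → ¬ hom (insert a s) B := by
    intro s A' hA' H
    by_contra hn
    push Not at hn
    obtain ⟨C, hC, hP⟩ := fusion hA'.2 (fun a B => hom (insert a s) B)
      (fun a => hmono _) hn
    have : Nonempty β := ⟨c ∅⟩
    choose! col hcol using hP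
    have : Infinite C := hC.2.to_subtype
    obtain ⟨b, hb⟩ := Finite.exists_infinite_fiber (fun a : C => col a)
    have hD : (Subtype.val '' ((fun a : C => col a) ⁻¹' {b})).Infinite :=
      (infinite_coe_iff.1 hb).image Subtype.val_injective.injOn
    refine H _ (hC.trans ⟨?_, hD⟩) ⟨b, fun X hX => ?_⟩
    · rintro _ ⟨a, _, rfl⟩
      exact a.2
    · obtain ⟨a, ha, hae⟩ := hX.1 hX.sInf_mem
      have e : s ∪ X = insert (a : ℕ) s ∪ sh X := by
        rw [hae, insert_union, ← union_insert, hX.insert_sh]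
      rw [e, hcol a a.2 (sh X) ⟨fun i hi => ?_, hX.sh.2⟩]
      · exact ha
      · obtain ⟨a', _, rfl⟩ := hX.1 (mem_sh.1 hi).1
        exact ⟨a'.2, by rw [hae]; exact (mem_sh.1 hi).2⟩
  obtain ⟨u, h0, h1, h2⟩ := exists_chain
    (fun p : ℕ × Set ℕ × Set ℕ => Sub A p.2.2 ∧ p.2.1 ⊆ A ∧ ∀ B, Sub p.2.2 B → ¬ hom p.2.1 B)
    (fun p q => p.1 < q.1 ∧ q.2.1 = insert q.1 p.2.1)
    (0, ∅, A) ⟨Sub.refl hA, empty_subset _, fun B hB ⟨b, hb⟩ =>
      hcon ⟨B, hB, b, fun X hX => by simpa using hb X hX⟩⟩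
    (fun p hp => by
      have hs := sub_inter_Ioi hp.1.2 p.1
      obtain ⟨a, ha, A'', h1, h2⟩ := key p.2.1 _ (hp.1.trans hs) fun B hB => hp.2.2 B (hs.trans hB)
      exact ⟨(a, insert a p.2.1, A''), ⟨hp.1.trans (hs.trans h1),
        insert_subset (hp.1.1 ha.1) hp.2.1, h2⟩, ha.2, rfl⟩)
  have hs : StrictMono fun n => (u n).1 := strictMono_nat_of_lt_succ fun n => (h2 n).1
  have hmem : ∀ n i, i ∈ (u n).2.1 ↔ ∃ m, m < n ∧ i = (u (m + 1)).1 := by
    intro n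
    induction n with
    | zero => intro i; simp [h0]
    | succ n ih =>
      intro i
      rw [(h2 n).2, mem_insert_iff, ih]
      constructor
      · rintro (h | ⟨m, hm, h⟩)
        · exact ⟨n, Nat.lt_succ_self _, h⟩
        · exact ⟨m, hm.trans (Nat.lt_succ_self _), h⟩
      · rintro ⟨m, hm, h⟩
        rcases Nat.lt_succ_iff_lt_or_eq.1 hm with hm | rfl
        · exact Or.inr ⟨m, hm, h⟩
        · exact Or.inl h
  have hX : Sub A (range fun m => (u (m + 1)).1) := by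
    refine ⟨?_, infinite_range_of_injective fun a b e => by simpa using hs.injective e⟩
    rintro _ ⟨m, rfl⟩
    exact (h1 (m + 1)).2.1 ((hmem _ _).2 ⟨m, Nat.lt_succ_self _, rfl⟩)
  obtain ⟨n, hn⟩ := hc _ hX
  have hB := sub_inter_Ici (h1 n).1.2 n
  refine (h1 n).2.2 _ hB ⟨_, fun Y hY => hn _ (((h1 n).1.trans (hB.trans hY)).union (h1 n).2.1)
    fun i hi => ?_⟩
  constructor
  · rintro ⟨m, rfl⟩
    have : m + 1 ≤ (u (m + 1)).1 := hs.id_le (m + 1)
    exact Or.inl ((hmem _ _).2 ⟨m, by simp only at hi; omega, rfl⟩)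
  · rintro (h | h)
    · obtain ⟨m, _, rfl⟩ := (hmem _ _).1 h
      exact ⟨m, rfl⟩
    · exact absurd (hY.1 h).2 (not_le.2 hi)

theorem ramsey_prop {A : Set ℕ} (hA : A.Infinite) {c : Set ℕ → Prop} (hc : LC A c) :
    ∃ B, Sub A B ∧ ((∀ X, Sub B X → c X) ∨ ∀ X, Sub B X → ¬ c X) := by
  obtain ⟨B, hB, b, hb⟩ := ramsey hA hc
  refine ⟨B, hB, ?_⟩
  by_cases h : b
  · exact Or.inl fun X hX => by rw [hb X hX]; exact h
  · exact Or.inr fun X hX => by rw [hb X hX]; exact h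

theorem ramsey_bdd {A : Set ℕ} (hA : A.Infinite) {c : Set ℕ → ℕ} (hc : LC A c) {N : ℕ}
    (hN : ∀ X, Sub A X → c X ≤ N) : ∃ B, Sub A B ∧ ∃ b, ∀ X, Sub B X → c X = b := by
  obtain ⟨B, hB, b, hb⟩ := ramsey hA
    (hc.comp fun n => (⟨min n N, Nat.lt_succ_of_le (min_le_right _ _)⟩ : Fin (N + 1)))
  refine ⟨B, hB, b, fun X hX => ?_⟩
  rw [← hb X hX]
  exact (min_eq_left (hN X (hB.trans hX))).symm

theorem good_or_bad (le : α → α → Prop) {A : Set ℕ} (hA : A.Infinite) {f : Set ℕ → α}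
    (hf : LC A f) : ∃ B, Sub A B ∧ ((∀ X, Sub B X → le (f X) (f (sh X))) ∨ Bad le B f) := by
  obtain ⟨B, hB, h | h⟩ := ramsey_prop hA (hf.comp₂ hf.sh le)
  · exact ⟨B, hB, Or.inl h⟩
  · exact ⟨B, hB, Or.inr ⟨hB.2, hf.mono hB.1, h⟩⟩

theorem all_good_or_bad {ι : Type*} (le : α → α → Prop) {I : Set ι} (hI : I.Finite) {A : Set ℕ}
    (hA : A.Infinite) {f : ι → Set ℕ → α} (hf : ∀ i, LC A (f i)) :
    ∃ B, Sub A B ∧ ((∀ i ∈ I, ∀ X, Sub B X → le (f i X) (f i (sh X))) ∨ ∃ i, Bad le B (f i)) := by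
  induction I, hI using Set.Finite.induction_on with
  | empty => exact ⟨A, Sub.refl hA, Or.inl fun i hi => absurd hi (notMem_empty _)⟩
  | @insert j I _ _ ih =>
    obtain ⟨B, hB, h | h⟩ := ih
    · obtain ⟨C, hC, h' | h'⟩ := good_or_bad le hB.2 ((hf j).mono hB.1)
      · refine ⟨C, hB.trans hC, Or.inl ?_⟩
        rintro i (rfl | hi) X hX
        · exact h' X hX
        · exact h i hi X (hC.trans hX)
      · exact ⟨C, hB.trans hC, Or.inr ⟨j, h'⟩⟩
    · exact ⟨B, hB, Or.inr h⟩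

theorem exists_sub_forall {ι : Type*} {I : Set ι} (hI : I.Finite) (Q : ι → Set ℕ → Prop)
    (hm : ∀ i B B', Q i B → Sub B B' → Q i B') {A : Set ℕ} (hA : A.Infinite)
    (h : ∀ i ∈ I, ∀ A', Sub A A' → ∃ B, Sub A' B ∧ Q i B) : ∃ B, Sub A B ∧ ∀ i ∈ I, Q i B := by
  induction I, hI using Set.Finite.induction_on with
  | empty => exact ⟨A, Sub.refl hA, fun i hi => absurd hi (notMem_empty _)⟩
  | @insert j I _ _ ih =>
    obtain ⟨B, hB, h1⟩ := ih fun i hi => h i (Or.inr hi)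
    obtain ⟨C, hC, h2⟩ := h j (Or.inl rfl) B hB
    refine ⟨C, hB.trans hC, ?_⟩
    rintro i (rfl | hi)
    · exact h2
    · exact hm _ _ _ (h1 i hi) hC

/-- The growth lemma: a locally constant natural number is constant or grows very fast. -/
theorem growth {A : Set ℕ} (hA : A.Infinite) {ρ : Set ℕ → ℕ} (hρ : LC A ρ) (G : ℕ → ℕ) :
    ∃ B, Sub A B ∧ ((∃ b, ∀ X, Sub B X → ρ X = b) ∨
      ∀ X, Sub B X → G (ρ X + sInf X) ≤ ρ (sh X)) := by
  obtain ⟨B, hB, h | hno⟩ := ramsey_prop hA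
    ((hρ.comp₂ (LC_sInf A) fun a b => G (a + b)).comp₂ hρ.sh fun a b => a ≤ b)
  · exact ⟨B, hB, Or.inr h⟩
  by_contra hcon
  let cst : Set ℕ → Set ℕ → Prop := fun s B => ∃ b, ∀ X, Sub B X → ρ (s ∪ X) = b
  let unb : Set ℕ → Set ℕ → Prop := fun s B =>
    ∀ B', Sub B B' → ∀ N, ∃ X, Sub B' X ∧ N < ρ (s ∪ X)
  have hm : ∀ s D D', (s ⊆ B → cst s D ∨ unb s D) → Sub D D' → s ⊆ B → cst s D' ∨ unb s D' := by
    intro s D D' H hD hs
    rcases H hs with ⟨b, hb⟩ | H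
    · exact Or.inl ⟨b, fun X hX => hb X (hD.trans hX)⟩
    · exact Or.inr fun B' hB' => H B' (hD.trans hB')
  obtain ⟨C, hC, hP⟩ := fusion hB.2 (fun a D => ∀ s ∈ {s | s ⊆ Iic a}, s ⊆ B → cst s D ∨ unb s D)
    (fun a D D' H hD s hs => hm s D D' (H s hs) hD) (fun a _ A' hA' =>
      exists_sub_forall (finite_Iic a).finite_subsets _ hm hA'.2 fun s _ A'' hA'' => by
        by_cases hs : s ⊆ B
        · by_cases hu : unb s A''
          · exact ⟨A'', Sub.refl hA''.2, fun _ => Or.inr hu⟩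
          · simp only [unb, not_forall, not_exists, not_and, not_lt] at hu
            obtain ⟨B', hB', N, hN⟩ := hu
            obtain ⟨D, hD, b, hb⟩ := ramsey_bdd hB'.2 ((hρ.union (hs.trans hB.1)).mono
              (hB'.1.trans (hA''.1.trans (hA'.1.trans hB.1)))) hN
            exact ⟨D, hB'.trans hD, fun _ => Or.inl ⟨b, hb⟩⟩
        · exact ⟨A'', Sub.refl hA''.2, fun h => absurd h hs⟩)
  let dec : Set ℕ → ℕ → Prop := fun X n =>
    ∀ Y, Sub C Y → (∀ i < n, i ∈ X ↔ i ∈ Y) → ρ Y = ρ X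
  let nn : Set ℕ → ℕ := fun X => sInf {n | dec X n}
  have hdec : ∀ X, Sub C X → dec X (nn X) := fun X hX =>
    Nat.sInf_mem (s := {n | dec X n}) (hρ.mono (hC.1.trans hB.1) X hX)
  have c1 : ∀ X, Sub C X → sInf X < nn X := by
    intro X hX
    by_contra hle
    have hs := sub_inter_Ici hC.2 (nn X)
    refine hcon ⟨_, hB.trans (hC.trans hs), Or.inl ⟨ρ X, fun Y hY =>
      hdec X hX Y (hs.trans hY) fun i hi => ⟨fun h => ?_, fun h => ?_⟩⟩⟩
    · have := Nat.sInf_le h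
      omega
    · exact absurd (hY.1 h).2 (not_le.2 hi)
  have c2 : ∃ X, Sub C X ∧ nn X < nn (sh X) := by
    by_contra hn
    push Not at hn
    have : ∀ k, Sub C (sh^[k] C) ∧ k ≤ sInf (sh^[k] C) ∧ nn (sh^[k] C) ≤ nn C := by
      intro k
      induction k with
      | zero => exact ⟨Sub.refl hC.2, Nat.zero_le _, le_rfl⟩
      | succ k ih =>
        rw [Function.iterate_succ_apply']
        exact ⟨ih.1.sh, ih.2.1.trans_lt ih.1.lt_sInf_sh, (hn _ ih.1).trans ih.2.2⟩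
    have h1 := this (nn C)
    have h2 := c1 _ h1.1
    omega
  obtain ⟨X, hX, hlt⟩ := c2
  have hx := c1 X hX
  have hnd : ¬ dec (sh X) (nn X) := fun h => absurd (Nat.sInf_le (s := {n | dec (sh X) n}) h)
    (not_le.2 hlt)
  obtain ⟨a, ⟨ha1, ha2⟩, ha3⟩ := Set.exists_max_image (C ∩ Iio (nn X)) id
    ((finite_Iio _).subset inter_subset_right) ⟨_, hX.1 hX.sInf_mem, hx⟩
  have hs1 : sh X ∩ Iio (nn X) ⊆ Iic a := fun i hi => ha3 i ⟨hX.sh.1 hi.1, hi.2⟩
  have hs2 : sh X ∩ Iio (nn X) ⊆ C := fun i hi => hX.sh.1 hi.1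
  have hge : ∀ i ∈ C ∩ Ioi a, nn X ≤ i := fun i hi => by
    by_contra h
    exact absurd (ha3 i ⟨hi.1, not_le.1 h⟩) (not_le.2 hi.2)
  rcases hP a ha1 _ hs1 (hs2.trans hC.1) with ⟨b, hb⟩ | hu
  · have : ∀ Y, Sub C Y → (∀ i < nn X, i ∈ sh X ↔ i ∈ Y) → ρ Y = b := by
      intro Y hY e
      have e1 : Y = sh X ∩ Iio (nn X) ∪ Y ∩ Ici (nn X) := by
        ext i
        by_cases hi : i < nn X
        · simp [hi, e i hi, not_le.2 hi]
        · simp [hi, not_lt.1 hi]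
      rw [e1]
      exact hb _ ⟨fun i hi => ⟨hY.1 hi.1, (lt_of_lt_of_le ha2 hi.2 : a < i)⟩, (sub_inter_Ici hY.2 _).2⟩
    exact hnd fun Y hY e => (this Y hY e).trans (this _ hX.sh fun _ _ => Iff.rfl).symm
  · obtain ⟨Z, hZ, hN⟩ := hu _ (Sub.refl (sub_inter_Ioi hC.2 a).2) (G (ρ X + sInf X))
    have hY : Sub C (sh X ∩ Iio (nn X) ∪ Z) := (hZ.mono inter_subset_left).union hs2
    have hlt2 : sInf X < sInf (sh X ∩ Iio (nn X) ∪ Z) := by
      rcases hY.sInf_mem with h | h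
      · exact (mem_sh.1 h.1).2
      · exact hx.trans_le (hge _ (hZ.1 h))
    have hX' := hY.insert (hX.1 hX.sInf_mem)
    have e := hdec X hX _ hX' fun i hi => by
      constructor
      · intro h
        by_cases h' : i = sInf X
        · exact Or.inl h'
        · exact Or.inr (Or.inl ⟨⟨h, h'⟩, hi⟩)
      · rintro (h | h | h)
        · rw [h]; exact hX.sInf_mem
        · exact h.1.1
        · exact absurd (hge _ (hZ.1 h)) (not_le.2 hi)
    have := hno _ (hC.trans hX')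
    simp only [sh_insert_of_lt hlt2, sInf_insert_of_lt hlt2, e] at this
    exact this hN.le

theorem not_desc {r : α → α → Prop} (hwf : WellFounded r) {S : Set ℕ} (hS : S.Infinite)
    (v : ℕ → α) (h : ∀ i ∈ S, ∀ j ∈ S, i < j → r (v j) (v i)) : False := by
  obtain ⟨_, ⟨i, hi, rfl⟩, hmin⟩ := hwf.has_min (v '' S) (hS.nonempty.image _)
  obtain ⟨j, hj, hij⟩ := hS.exists_gt i
  exact hmin _ ⟨j, hj, rfl⟩ (h i hi j hj hij)

open Classical in
theorem Bad.patch {le r : α → α → Prop} (hher : ∀ s t t', r t' t → le s t' → le s t)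
    {D C : Set ℕ} {g h : Set ℕ → α} (hg : Bad le D g) (hC : Sub D C) (hh : Bad le C h)
    (hr : ∀ X, Sub C X → r (h X) (g X)) (k : ℕ) :
    Bad le (C ∪ D ∩ Iio k) fun X => if X ⊆ C then h X else g X := by
  have hsub : C ∪ D ∩ Iio k ⊆ D := union_subset hC.1 inter_subset_left
  refine ⟨hC.2.mono subset_union_left, fun X hX => ?_, fun X hX => ?_⟩
  · by_cases hXC : X ⊆ C
    · obtain ⟨n, hn⟩ := hh.2.1 X ⟨hXC, hX.2⟩
      refine ⟨max n k, fun Y hY e => ?_⟩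
      have hYC : Y ⊆ C := fun i hi => by
        rcases hY.1 hi with h1 | h1
        · exact h1
        · exact hXC ((e i (lt_max_of_lt_right h1.2)).2 hi)
      simp only [hXC, hYC, if_true]
      exact hn Y ⟨hYC, hY.2⟩ fun i hi => e i (lt_max_of_lt_left hi)
    · obtain ⟨n, hn⟩ := hg.2.1 X (hX.mono hsub)
      refine ⟨max n k, fun Y hY e => ?_⟩
      have hYC : ¬ Y ⊆ C := fun hc => hXC fun i hi => by
        rcases hX.1 hi with h1 | h1
        · exact h1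
        · exact hc ((e i (lt_max_of_lt_right h1.2)).1 hi)
      simp only [hXC, hYC, if_false]
      exact hn Y (hY.mono hsub) fun i hi => e i (lt_max_of_lt_left hi)
  · by_cases hXC : X ⊆ C
    · simp only [hXC, (sh_subset X).trans hXC, if_true]
      exact hh.2.2 X ⟨hXC, hX.2⟩
    · by_cases hS : sh X ⊆ C
      · simp only [hXC, hS, if_true, if_false]
        exact fun hle => hg.2.2 X (hX.mono hsub) (hher _ _ _ (hr _ ⟨hS, hX.sh.2⟩) hle)
      · simp only [hXC, hS, if_false]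
        exact hg.2.2 X (hX.mono hsub)

/-- The minimal bad array lemma. -/
theorem mba {le r : α → α → Prop} (hwf : WellFounded r) (htr : ∀ a b c, r a b → r b c → r a c)
    (hher : ∀ s t t', r t' t → le s t' → le s t) {A : Set ℕ} {f : Set ℕ → α} (hf : Bad le A f) :
    ∃ B g, Sub A B ∧ Bad le B g ∧ (∀ X, Sub B X → g X = f X ∨ r (g X) (f X)) ∧
      ∀ C h, Sub B C → Bad le C h → ¬ ∀ X, Sub C X → r (h X) (g X) := by
  classical
  by_contra hcon
  have H : ∀ B g, Sub A B → Bad le B g → (∀ X, Sub B X → g X = f X ∨ r (g X) (f X)) →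
      ∃ C h, Sub B C ∧ Bad le C h ∧ ∀ X, Sub C X → r (h X) (g X) := by
    intro B g h1 h2 h3
    by_contra hn
    exact hcon ⟨B, g, h1, h2, h3, fun C h h4 h5 h6 => hn ⟨C, h, h4, h5, h6⟩⟩
  have t1 : ∀ a b c, r a b → (b = c ∨ r b c) → r a c := by
    rintro a b c h (rfl | h')
    exacts [h, htr _ _ _ h h']
  have t2 : ∀ a b c, (a = b ∨ r a b) → (b = c ∨ r b c) → (a = c ∨ r a c) := by
    rintro a b c (rfl | h) h'
    exacts [h', Or.inr (t1 _ _ _ h h')]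
  let W : Set ℕ × (Set ℕ → α) → Set ℕ → (Set ℕ → α) → ℕ → Prop := fun p C h k =>
    Sub p.1 C ∧ Bad le C h ∧ (∀ X, Sub C X → r (h X) (p.2 X)) ∧
      ∀ Y, Sub C Y → (∀ i < k, i ∈ C ↔ i ∈ Y) → h Y = h C
  obtain ⟨u, -, h1, h2⟩ := exists_chain
    (fun p : Set ℕ × (Set ℕ → α) => Sub A p.1 ∧ Bad le p.1 p.2 ∧
      ∀ X, Sub p.1 X → p.2 X = f X ∨ r (p.2 X) (f X))
    (fun p q => ∃ C h k, W p C h k ∧ (∀ C' h' k', W p C' h' k' → k ≤ k') ∧
      q.1 = C ∪ p.1 ∩ Iio k ∧ q.2 = fun X => if X ⊆ C then h X else p.2 X)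
    (A, f) ⟨Sub.refl hf.1, hf, fun _ _ => Or.inl rfl⟩ (fun p hp => by
      obtain ⟨C0, g0, a1, a2, a3⟩ := H _ _ hp.1 hp.2.1 hp.2.2
      obtain ⟨k0, a4⟩ := a2.2.1 C0 (Sub.refl a1.2)
      obtain ⟨C, h, hW⟩ := Nat.sInf_mem (s := {k | ∃ C h, W p C h k}) ⟨k0, C0, g0, a1, a2, a3, a4⟩
      refine ⟨(C ∪ p.1 ∩ Iio _, fun X => if X ⊆ C then h X else p.2 X),
        ⟨⟨(union_subset hW.1.1 inter_subset_left).trans hp.1.1, hW.1.2.mono subset_union_left⟩,
          hp.2.1.patch hher hW.1 hW.2.1 hW.2.2.1 _, fun X hX => ?_⟩,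
        C, h, _, hW, fun C' h' k' hW' => Nat.sInf_le ⟨C', h', hW'⟩, rfl, rfl⟩
      have hX' := hX.mono (union_subset hW.1.1 inter_subset_left)
      by_cases hXC : X ⊆ C
      · simp only [hXC, if_true]
        exact Or.inr (t1 _ _ _ (hW.2.2.1 X ⟨hXC, hX.2⟩) (hp.2.2 X hX'))
      · simp only [hXC, if_false]
        exact hp.2.2 X hX')
  choose C h k hW hmin e1 e2 using h2
  have hanti : Antitone fun n => (u n).1 := antitone_nat_of_succ_le fun n => by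
    rw [e1]; exact union_subset (hW n).1.1 inter_subset_left
  have b1 : ∀ i X, X ⊆ C i → (u (i + 1)).2 X = h i X := fun i X hX => by simp [e2, hX]
  have b2 : ∀ i X, ¬ X ⊆ C i → (u (i + 1)).2 X = (u i).2 X := fun i X hX => by simp [e2, hX]
  have b3 : ∀ i j, i ≤ j → ∀ X, Sub (u j).1 X → (u j).2 X = (u i).2 X ∨ r ((u j).2 X) ((u i).2 X) := by
    intro i j hij
    induction j, hij using Nat.le_induction with
    | base => exact fun _ _ => Or.inl rfl
    | succ j _ ih =>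
      intro X hX
      refine t2 _ _ _ ?_ (ih X (hX.mono (hanti (Nat.le_succ j))))
      by_cases hXC : X ⊆ C j
      · rw [b1 j X hXC]
        exact Or.inr ((hW j).2.2.1 X ⟨hXC, hX.2⟩)
      · exact Or.inl (b2 j X hXC)
  have hk : Monotone k := monotone_nat_of_le_succ fun n => hmin n (C (n + 1)) (h (n + 1)) _
    ⟨(hW (n + 1)).1.mono (hanti (Nat.le_succ n)), (hW (n + 1)).2.1, fun X hX =>
      t1 _ _ _ ((hW (n + 1)).2.2.1 X hX) (b3 n (n + 1) (Nat.le_succ n) X ((hW (n + 1)).1.trans hX)),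
      (hW (n + 1)).2.2.2⟩
  have hin : ∀ i j x, i < j → x ∈ (u j).1 → k i ≤ x → x ∈ C i := by
    intro i j x hij hx hkx
    have := hanti (Nat.succ_le_of_lt hij) hx
    simp only [e1] at this
    rcases this with h' | h'
    · exact h'
    · exact absurd h'.2 (not_lt.2 hkx)
  have hunb : ∀ N, ∃ i, N < k i := by
    intro N
    by_contra hn
    push Not at hn
    have : Finite (Iic N ×ˢ {s : Set ℕ | s ⊆ Iic N} : Set (ℕ × Set ℕ)) :=
      ((finite_Iic N).prod (finite_Iic N).finite_subsets).to_subtype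
    obtain ⟨v, hv⟩ := Finite.exists_infinite_fiber
      (fun i => (⟨(k i, C i ∩ Iio (k i)), hn i, fun x hx => (le_of_lt hx.2).trans (hn i)⟩ :
        (Iic N ×ˢ {s : Set ℕ | s ⊆ Iic N} : Set (ℕ × Set ℕ))))
    refine not_desc hwf (infinite_coe_iff.1 hv) (fun i => h i (C i)) fun i hi j hj hij => ?_
    have e := congrArg Subtype.val ((mem_singleton_iff.1 hi).trans (mem_singleton_iff.1 hj).symm)
    simp only [Prod.mk.injEq] at e
    obtain ⟨ek, es⟩ := e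
    have hag : ∀ x < k i, x ∈ C i ↔ x ∈ C j := fun x hx =>
      ⟨fun hc => (es ▸ (⟨hc, hx⟩ : x ∈ C i ∩ Iio (k i)) : x ∈ C j ∩ Iio (k j)).1,
        fun hc => (es.symm ▸ (⟨hc, ek ▸ hx⟩ : x ∈ C j ∩ Iio (k j)) : x ∈ C i ∩ Iio (k i)).1⟩
    have hji : C j ⊆ C i := fun x hx => by
      by_cases hx' : x < k i
      · exact (hag x hx').2 hx
      · exact hin i j x hij ((hW j).1.1 hx) (not_lt.1 hx')
    have := t1 _ _ _ ((hW j).2.2.1 _ (Sub.refl (hW j).1.2)) (b3 (i + 1) j hij _ (hW j).1)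
    rwa [b1 i _ hji, (hW i).2.2.2 _ ⟨hji, (hW j).1.2⟩ hag] at this
  let Z : Set ℕ := ⋂ i, (u i).1
  have hZ : ∀ i, Z ⊆ (u i).1 := fun i => iInter_subset _ i
  have hZi : Z.Infinite := by
    refine Set.infinite_of_forall_exists_gt fun N => ?_
    obtain ⟨i, hi⟩ := hunb (N + 1)
    have hx : k i - 1 ∈ C i := by
      by_contra hx
      have := hmin i (C i) (h i) (k i - 1) ⟨(hW i).1, (hW i).2.1, (hW i).2.2.1, fun Y hY e =>
        (hW i).2.2.2 Y hY fun x hx' => by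
          by_cases hx'' : x < k i - 1
          · exact e x hx''
          · have : x = k i - 1 := by omega
            subst this
            exact ⟨fun hc => absurd hc hx, fun hc => hY.1 hc⟩⟩
      omega
    refine ⟨k i - 1, mem_iInter.2 fun j => ?_, by omega⟩
    rcases le_total j i with hji | hij
    · exact hanti hji ((hW i).1.1 hx)
    · induction j, hij using Nat.le_induction with
      | base => exact (hW i).1.1 hx
      | succ j hij ih =>
        rw [e1]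
        have := hk hij
        exact Or.inr ⟨ih, show k i - 1 < k j by omega⟩
  have hfin : ∀ X, Sub Z X → ¬ {i | X ⊆ C i}.Infinite := fun X hX hS =>
    not_desc hwf hS (fun i => h i X) fun i hi j hj hij => by
      have := t1 _ _ _ ((hW j).2.2.1 X ⟨hj, hX.2⟩) (b3 (i + 1) j hij X (hX.mono (hZ j)))
      rwa [b1 i X hi] at this
  have hloc : ∀ X, Sub Z X → ∃ n M, ∀ i, M ≤ i → ¬ X ∩ Iio n ⊆ C i := by
    intro X hX
    by_contra hn
    push Not at hn
    obtain ⟨w, -, w1, w2⟩ := exists_chain (fun p : ℕ × ℕ => p.1 ∈ X)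
      (fun p q => p.2 < q.2 ∧ X ∩ Iio (p.1 + 1) ⊆ C q.2 ∧ p.1 < q.1 ∧ k q.2 ≤ q.1)
      (sInf X, 0) hX.sInf_mem (fun p _ => by
        obtain ⟨i, hi, hs⟩ := hn (p.1 + 1) (p.2 + 1)
        obtain ⟨a, ha, hlt⟩ := hX.2.exists_gt (max p.1 (k i))
        exact ⟨(a, i), ha, hi, hs, (le_max_left _ _).trans_lt hlt,
          ((le_max_right _ _).trans_lt hlt).le⟩)
    have s1 : StrictMono fun n => (w n).1 := strictMono_nat_of_lt_succ fun n => (w2 n).2.2.1
    have s2 : StrictMono fun n => (w n).2 := strictMono_nat_of_lt_succ fun n => (w2 n).1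
    have hX' : Sub Z (range fun n => (w n).1) :=
      ⟨by rintro _ ⟨n, rfl⟩; exact hX.1 (w1 n), infinite_range_of_injective s1.injective⟩
    refine hfin _ hX' ((infinite_range_of_injective (f := fun n => (w (n + 1)).2)
      fun a b e => by simpa using s2.injective e).mono ?_)
    rintro _ ⟨j, rfl⟩ _ ⟨m, rfl⟩
    rcases le_or_gt m j with hm | hm
    · exact (w2 j).2.1 ⟨w1 m, Nat.lt_succ_of_le (s1.monotone hm)⟩
    · exact hin _ _ _ (Nat.lt_succ_self _) (hZ _ (hX.1 (w1 m)))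
        ((w2 j).2.2.2.trans (s1.monotone hm))
  have hst : ∀ Y M, (∀ i, M ≤ i → ¬ Y ⊆ C i) → ∀ j, M ≤ j → (u j).2 Y = (u M).2 Y := by
    intro Y M hM j hj
    induction j, hj using Nat.le_induction with
    | base => rfl
    | succ j hj ih => rw [b2 j Y (hM j hj), ih]
  choose! n M hM using hloc
  have hM' : ∀ X, Sub Z X → ∀ j, M X ≤ j → (u j).2 X = (u (M X)).2 X := fun X hX =>
    hst X _ fun i hi hc => hM X hX i hi (inter_subset_left.trans hc)
  have hbad : Bad le Z fun X => (u (M X)).2 X := by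
    refine ⟨hZi, fun X hX => ?_, fun X hX => ?_⟩
    · obtain ⟨m, hm⟩ := (h1 (M X)).2.1.2.1 X (hX.mono (hZ _))
      refine ⟨max m (n X), fun Y hY e => ?_⟩
      have := hst Y (M X) (fun i hi hc => hM X hX i hi fun x hx =>
        hc ((e x (lt_max_of_lt_right hx.2)).1 hx.1)) _ (le_max_left (M X) (M Y))
      simp only
      rw [← hM' Y hY _ (le_max_right (M X) (M Y)), this]
      exact hm Y (hY.mono (hZ _)) fun i hi => e i (lt_max_of_lt_left hi)
    · simp only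
      rw [← hM' X hX _ (le_max_left (M X) (M (sh X))),
        ← hM' _ hX.sh _ (le_max_right (M X) (M (sh X)))]
      exact (h1 _).2.1.2.2 X (hX.mono (hZ _))
  obtain ⟨C', h', c1, c2, c3⟩ := H Z _ ⟨(hZ 0).trans (h1 0).1.1, hZi⟩ hbad
    fun X hX => (h1 _).2.2 X (hX.mono (hZ _))
  obtain ⟨k', c4⟩ := c2.2.1 C' (Sub.refl c1.2)
  obtain ⟨i, hi⟩ := hunb k'
  refine absurd (hmin i C' h' k' ⟨c1.mono (hZ i), c2, fun X hX => ?_, c4⟩) (not_le.2 hi)
  have := c3 X hX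
  rw [← hM' X (c1.trans hX) _ (le_max_left (M X) i)] at this
  exact t1 _ _ _ this (b3 _ _ (le_max_right _ _) X ((c1.trans hX).mono (hZ _)))

theorem exists_strong_rec (F : (m : ℕ) → ((x : ℕ) → x < m → β) → β) :
    ∃ G : ℕ → β, ∀ m, G m = F m fun x _ => G x :=
  ⟨WellFounded.fix (C := fun _ => β) Nat.lt_wfRel.wf F, fun m => WellFounded.fix_eq _ _ m⟩

theorem exists_inj_avoid [Nonempty α] {M F : Set α} (hM : M.Countable) (hF : F.Finite)
    (D : α → Set α) (hD : ∀ a ∈ M, (D a).Infinite) :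
    ∃ ψ : α → α, InjOn ψ M ∧ ∀ a ∈ M, ψ a ∈ D a ∧ ψ a ∉ F := by
  obtain ⟨e, he⟩ := countable_iff_exists_injOn.1 hM
  obtain ⟨H, hH⟩ := exists_strong_rec (β := α) fun m ih => Classical.epsilon fun b =>
    b ∈ D (Function.invFunOn e M m) ∧ b ∉ F ∧ ∀ x (hx : x < m), b ≠ ih x hx
  have key : ∀ a ∈ M, H (e a) ∈ D a ∧ H (e a) ∉ F ∧ ∀ x < e a, H (e a) ≠ H x := by
    intro a ha
    rw [hH, he.leftInvOn_invFunOn ha]
    refine Classical.epsilon_spec (p := fun b => b ∈ D a ∧ b ∉ F ∧ ∀ x < e a, b ≠ H x) ?_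
    obtain ⟨b, hb1, hb2⟩ := (hD a ha).exists_notMem_finite (hF.union ((finite_Iio (e a)).image H))
    exact ⟨b, hb1, fun h => hb2 (Or.inl h), fun x hx h => hb2 (Or.inr ⟨x, hx, h.symm⟩)⟩
  refine ⟨fun a => H (e a), fun a ha b hb hab => he ha hb ?_,
    fun a ha => ⟨(key a ha).1, (key a ha).2.1⟩⟩
  rcases lt_trichotomy (e a) (e b) with h | h | h
  · exact absurd hab.symm ((key b hb).2.2 _ h)
  · exact h
  · exact absurd hab ((key a ha).2.2 _ h)

/-- Injective domination of sets. -/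
def fle (le : α → α → Prop) (M M' : Set α) : Prop :=
  ∃ φ : α → α, InjOn φ M ∧ ∀ a ∈ M, φ a ∈ M' ∧ le a (φ a)

theorem fle_union {le : α → α → Prop} {U V M' : Set α} {φ ψ : α → α} (h1 : InjOn φ U)
    (h2 : InjOn ψ V) (h3 : ∀ a ∈ U, φ a ∈ M' ∧ le a (φ a)) (h4 : ∀ a ∈ V, ψ a ∈ M' ∧ le a (ψ a))
    (h5 : ∀ a ∈ U, ∀ b ∈ V, φ a ≠ ψ b) : fle le (U ∪ V) M' := by
  classical
  refine ⟨fun a => if a ∈ U then φ a else ψ a, fun a ha b hb hab => ?_, fun a ha => ?_⟩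
  · by_cases ha' : a ∈ U <;> by_cases hb' : b ∈ U <;> simp only [ha', hb', if_true, if_false] at hab
    · exact h1 ha' hb' hab
    · exact absurd hab (h5 a ha' b (hb.resolve_left hb'))
    · exact absurd hab.symm (h5 b hb' a (ha.resolve_left ha'))
    · exact h2 (ha.resolve_left ha') (hb.resolve_left hb') hab
  · by_cases ha' : a ∈ U <;> simp only [ha', if_true, if_false]
    · exact h3 a ha'
    · exact h4 a (ha.resolve_left ha')

theorem bad_of_bad_finite {le : α → α → Prop} {A : Set ℕ} {M : Set ℕ → Set α}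
    (hM : Bad (fle le) A M) (hfin : ∀ X, Sub A X → (M X).Finite) :
    ∃ B g, Sub A B ∧ Bad le B g ∧ ∀ X, Sub B X → g X ∈ M X := by
  obtain ⟨B, F, hB, hF, hle, hmin⟩ := mba (le := fle le) (r := fun S T => T.Finite ∧ S ⊂ T)
    (Subrelation.wf (r := InvImage (· < ·) Set.ncard) (fun h => ncard_lt_ncard h.2 h.1)
      (InvImage.wf _ Nat.lt_wfRel.wf))
    (fun a b c h h' => ⟨h'.1, h.2.trans h'.2⟩)
    (fun s t t' h ⟨φ, h1, h2⟩ => ⟨φ, h1, fun a ha => ⟨h.2.1 (h2 a ha).1, (h2 a ha).2⟩⟩) hM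
  have hsub : ∀ X, Sub B X → F X ⊆ M X := fun X hX => by
    rcases hle X hX with h | h
    · exact h.subset
    · exact h.2.1
  have hne : ∀ X, Sub B X → (F X).Nonempty := fun X hX => by
    by_contra h
    rw [not_nonempty_iff_eq_empty] at h
    exact hF.2.2 X hX ⟨id, injOn_id _, by simp [h]⟩
  have : Nonempty α := ⟨(hne B (Sub.refl hB.2)).some⟩
  let a : Set ℕ → α := fun X => Classical.epsilon (· ∈ F X)
  have ha : ∀ X, Sub B X → a X ∈ F X := fun X hX => Classical.epsilon_spec (hne X hX)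
  have hla : LC B a := hF.2.1.comp fun S => Classical.epsilon (· ∈ S)
  obtain ⟨C, hC, h | h⟩ := good_or_bad le hB.2 hla
  swap
  · exact ⟨C, a, hB.trans hC, h, fun X hX => hsub X (hC.trans hX) (ha X (hC.trans hX))⟩
  exfalso
  obtain ⟨D, hD, h' | h'⟩ := good_or_bad (fle le) hC.2
    ((hF.2.1.comp₂ hla fun S x => S \ {x}).mono hC.1)
  · have hD' := hC.trans hD
    obtain ⟨φ, h1, h2⟩ := h' D (Sub.refl hD.2)
    apply hF.2.2 D hD'
    have := fle_union (le := le) (M' := F (sh D)) (ψ := fun _ => a (sh D)) h1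
      (injOn_singleton _ (a D)) (fun x hx => ⟨(h2 x hx).1.1, (h2 x hx).2⟩)
      (fun x hx => ⟨ha _ hD'.sh, by rw [hx]; exact h D hD⟩) fun x hx _ _ => (h2 x hx).1.2
    rwa [sdiff_union_of_subset (singleton_subset_iff.2 (ha D hD'))] at this
  · refine hmin D _ (hC.trans hD) h' fun X hX => ?_
    have hX' := (hC.trans hD).trans hX
    exact ⟨(hfin X (hB.trans hX')).subset (hsub X hX'), sdiff_singleton_ssubset.2 (ha X hX')⟩

/-- Countable sets under injective domination are well behaved. -/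
theorem bad_of_bad_fle {le : α → α → Prop} {A : Set ℕ} {M : Set ℕ → Set α}
    (hM : Bad (fle le) A M) (hc : ∀ X, Sub A X → (M X).Countable) :
    ∃ B g, Sub A B ∧ Bad le B g ∧ ∀ X, Sub B X → g X ∈ M X := by
  let U : Set ℕ → Set α := fun X => {a | a ∈ M X ∧ {b | b ∈ M (sh X) ∧ le a b}.Finite}
  have hU : LC A U := hM.2.1.comp₂ hM.2.1.sh fun S T => {a | a ∈ S ∧ {b | b ∈ T ∧ le a b}.Finite}
  have : Nonempty α := by
    by_contra h
    exact hM.2.2 A (Sub.refl hM.1) ⟨id, injOn_id _, fun a _ => absurd ⟨a⟩ h⟩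
  obtain ⟨B, hB, h | h⟩ := ramsey_prop hM.1 (hU.comp Set.Finite)
  · obtain ⟨C, g, h1, h2, h3⟩ := bad_of_bad_finite (le := le) (M := U)
      ⟨hB.2, hU.mono hB.1, fun X hX ⟨φ, p1, p2⟩ => by
        obtain ⟨ψ, q1, q2⟩ := exists_inj_avoid (M := M X \ U X)
          ((hc X (hB.trans hX)).mono sdiff_subset) ((h X hX).image φ)
          (fun a => {b | b ∈ M (sh X) ∧ le a b}) fun a ha hf => ha.2 ⟨ha.1, hf⟩
        apply hM.2.2 X (hB.trans hX)
        have := fle_union (le := le) (M' := M (sh X)) p1 q1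
          (fun a ha => ⟨(p2 a ha).1.1, (p2 a ha).2⟩) (fun a ha => (q2 a ha).1)
          fun a ha b hb e => (q2 b hb).2 ⟨a, ha, e⟩
        rwa [union_sdiff_cancel fun a ha => ha.1] at this⟩ h
    exact ⟨C, g, hB.trans h1, h2, fun X hX => (h3 X hX).1⟩
  obtain ⟨G, hG⟩ := exists_strong_rec (β := Set ℕ → α) fun m ih Y => Classical.epsilon fun b =>
    b ∈ U Y ∧ ∀ x (hx : x < m), x ∈ B → ¬ le (ih x hx (insert x Y)) b
  have c1 : ∀ m Y, Sub B Y → sInf Y = m →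
      G m Y ∈ U Y ∧ ∀ x < m, x ∈ B → ¬ le (G x (insert x Y)) (G m Y) := by
    intro m
    induction m using Nat.strong_induction_on with
    | _ m ih =>
      intro Y hY hm
      rw [hG m]
      refine Classical.epsilon_spec
        (p := fun b => b ∈ U Y ∧ ∀ x < m, x ∈ B → ¬ le (G x (insert x Y)) b) ?_
      have hfin : (⋃ x ∈ {x | x < m ∧ x ∈ B}, {b | b ∈ M Y ∧ le (G x (insert x Y)) b}).Finite := by
        refine ((finite_Iio m).subset fun x hx => hx.1).biUnion fun x hx => ?_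
        have hx' : x < sInf Y := hm ▸ hx.1
        have := (ih x hx.1 _ (hY.insert hx.2) (sInf_insert_of_lt hx')).1.2
        rwa [sh_insert_of_lt hx'] at this
      obtain ⟨b, hb1, hb2⟩ := Set.Infinite.exists_notMem_finite (h Y hY) hfin
      exact ⟨b, hb1, fun x hx hxB hle => hb2 (mem_biUnion (show x < m ∧ x ∈ B from ⟨hx, hxB⟩)
        ⟨hb1.1, hle⟩)⟩
  have c2 : ∀ m, LC B (G m) := by
    intro m
    induction m using Nat.strong_induction_on with
    | _ m ih =>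
      intro X hX
      obtain ⟨n, hn⟩ := exists_modulus (I := {x | x < m ∧ x ∈ B})
        ((finite_Iio m).subset fun x hx => hx.1)
        (fun x n => ∀ Y, Sub B Y → (∀ i < n, i ∈ X ↔ i ∈ Y) → G x (insert x Y) = G x (insert x X))
        (fun x n m hnm H Y hY e => H Y hY fun i hi => e i (hi.trans_le hnm))
        (fun x hx => by
          obtain ⟨n, hn⟩ := ih x hx.1 _ (hX.insert hx.2)
          exact ⟨n, fun Y hY e => hn _ (hY.insert hx.2) fun i hi => by simp [e i hi]⟩)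
      obtain ⟨n', hn'⟩ := hU.mono hB.1 X hX
      refine ⟨max n n', fun Y hY e => ?_⟩
      rw [hG m]
      simp only
      congr 1
      funext b
      rw [hn' Y hY fun i hi => e i (lt_max_of_lt_right hi)]
      congr 1
      refine propext (forall_congr' fun x => forall_congr' fun hx => forall_congr' fun hxB => ?_)
      rw [hn x ⟨hx, hxB⟩ Y hY fun i hi => e i (lt_max_of_lt_left hi)]
  refine ⟨B, fun Y => G (sInf Y) Y, hB, ⟨hB.2, fun X hX => ?_, fun X hX => ?_⟩,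
    fun X hX => (c1 _ X hX rfl).1.1⟩
  · obtain ⟨n, hn⟩ := c2 (sInf X) X hX
    refine ⟨max n (sInf X + 1), fun Y hY e => ?_⟩
    simp only
    rw [sInf_eq_of_agree hX.2.nonempty (lt_max_of_lt_right (Nat.lt_succ_self _)) e]
    exact hn Y hY fun i hi => e i (lt_max_of_lt_left hi)
  · have := (c1 _ _ hX.sh rfl).2 _ hX.lt_sInf_sh (hX.1 hX.sInf_mem)
    rwa [hX.insert_sh] at this

end Pool.Agent.H80W

end

-- part MP_699d75_co.Rect
section

/-!
Connected sets, and labelled rectangles of the square grid.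
-/

namespace Pool.Agent.H80W

open Set Relation

section conn

variable {V W : Type*} {R : V → V → Prop}

/-- Reachability inside a set. -/
def Reach (R : V → V → Prop) (S : Set V) : V → V → Prop :=
  ReflTransGen fun x y => R x y ∧ x ∈ S ∧ y ∈ S

/-- Connected (possibly empty) sets. -/
def Conn (R : V → V → Prop) (S : Set V) : Prop := ∀ a ∈ S, ∀ b ∈ S, Reach R S a b

theorem Reach.mono {S T : Set V} {a b : V} (h : Reach R S a b) (hST : S ⊆ T) : Reach R T a b := by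
  induction h with
  | refl => exact ReflTransGen.refl
  | tail _ h ih => exact ih.tail ⟨h.1, hST h.2.1, hST h.2.2⟩

theorem Reach.refl (S : Set V) (a : V) : Reach R S a a := ReflTransGen.refl

theorem Reach.trans {S : Set V} {a b c : V} (h : Reach R S a b) (h' : Reach R S b c) :
    Reach R S a c := ReflTransGen.trans h h'

theorem Reach.single {S : Set V} {a b : V} (h : R a b) (ha : a ∈ S) (hb : b ∈ S) :
    Reach R S a b := ReflTransGen.single ⟨h, ha, hb⟩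

theorem Reach.symm (hR : ∀ x y, R x y → R y x) {S : Set V} {a b : V} (h : Reach R S a b) :
    Reach R S b a := by
  induction h with
  | refl => exact Reach.refl _ _
  | tail _ h ih => exact (Reach.single (hR _ _ h.1) h.2.2 h.2.1).trans ih

theorem Reach.mem {S : Set V} {a b : V} (h : Reach R S a b) (ha : a ∈ S) : b ∈ S := by
  induction h with
  | refl => exact ha
  | tail _ h _ => exact h.2.2

theorem Reach.lift {R' : W → W → Prop} {S : Set V} {T : Set W} (f : V → W) {a b : V}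
    (h : Reach R S a b) (hf : ∀ x ∈ S, ∀ y ∈ S, R x y → Reach R' T (f x) (f y)) :
    Reach R' T (f a) (f b) := by
  induction h with
  | refl => exact Reach.refl _ _
  | tail _ h ih => exact ih.trans (hf _ h.2.1 _ h.2.2 h.1)

theorem conn_of_base (hR : ∀ x y, R x y → R y x) {S : Set V} (z : V)
    (h : ∀ a ∈ S, Reach R S a z) : Conn R S :=
  fun a ha b hb => (h a ha).trans ((h b hb).symm hR)

theorem conn_singleton (a : V) : Conn R {a} := by
  rintro _ rfl _ rfl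
  exact Reach.refl _ _

theorem Conn.image {R' : W → W → Prop} {S : Set V} (h : Conn R S) (f : V → W)
    (hf : ∀ x ∈ S, ∀ y ∈ S, R x y → R' (f x) (f y)) : Conn R' (f '' S) := by
  rintro _ ⟨a, ha, rfl⟩ _ ⟨b, hb, rfl⟩
  exact (h a ha b hb).lift f fun x hx y hy hxy =>
    Reach.single (hf x hx y hy hxy) ⟨x, hx, rfl⟩ ⟨y, hy, rfl⟩

/-- A set covered by connected subsets meeting a connected core. -/
theorem conn_of_core {C S : Set V} (hC : Conn R C) (hCS : C ⊆ S)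
    (h : ∀ a ∈ S, ∃ Q, Q ⊆ S ∧ Conn R Q ∧ a ∈ Q ∧ ∃ z ∈ Q, z ∈ C) : Conn R S := by
  intro a ha b hb
  obtain ⟨Q, h1, h2, h3, z, h4, h5⟩ := h a ha
  obtain ⟨Q', h1', h2', h3', z', h4', h5'⟩ := h b hb
  exact ((h2 a h3 z h4).mono h1).trans
    (((hC z h5 z' h5').mono hCS).trans ((h2' z' h4' b h3').mono h1'))

theorem Conn.union {S T : Set V} (hS : Conn R S) (hT : Conn R T) {z : V} (h1 : z ∈ S)
    (h2 : z ∈ T) : Conn R (S ∪ T) := by
  refine conn_of_core hS subset_union_left ?_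
  rintro a (ha | ha)
  · exact ⟨S, subset_union_left, hS, ha, z, h1, h1⟩
  · exact ⟨T, subset_union_right, hT, ha, z, h2, h1⟩

end conn

/-- Adjacency in the square grid. -/
def GA (p q : ℕ × ℕ) : Prop :=
  (p.1 = q.1 ∧ (p.2 + 1 = q.2 ∨ q.2 + 1 = p.2)) ∨ (p.2 = q.2 ∧ (p.1 + 1 = q.1 ∨ q.1 + 1 = p.1))

/-- Equal or adjacent for the king. -/
def KA (p q : ℕ × ℕ) : Prop := p.1 ≤ q.1 + 1 ∧ q.1 ≤ p.1 + 1 ∧ p.2 ≤ q.2 + 1 ∧ q.2 ≤ p.2 + 1

theorem GA_symm (p q : ℕ × ℕ) (h : GA p q) : GA q p := by unfold GA at *; omega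

/-- A horizontal segment. -/
def hseg (y a b : ℕ) : Set (ℕ × ℕ) := {z | z.2 = y ∧ a ≤ z.1 ∧ z.1 ≤ b}

/-- A vertical segment. -/
def vseg (x a b : ℕ) : Set (ℕ × ℕ) := {z | z.1 = x ∧ a ≤ z.2 ∧ z.2 ≤ b}

theorem conn_hseg (y a b : ℕ) : Conn GA (hseg y a b) := by
  refine conn_of_base GA_symm (a, y) ?_
  rintro ⟨x, _⟩ ⟨rfl, h1, h2⟩
  simp only at h1 h2
  induction x, h1 using Nat.le_induction with
  | base => exact Reach.refl _ _
  | succ x hx ih =>
    refine (Reach.single ?_ ?_ ?_).trans (ih (by omega))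
    · unfold GA; simp
    · exact ⟨rfl, by simp only; omega, h2⟩
    · exact ⟨rfl, hx, by simp only; omega⟩

theorem conn_vseg (x a b : ℕ) : Conn GA (vseg x a b) := by
  have := (conn_hseg x a b).image (R' := GA) Prod.swap fun p _ q _ h => by
    unfold GA at *; simp only [Prod.fst_swap, Prod.snd_swap]; omega
  convert this using 1
  ext ⟨i, j⟩
  simp [hseg, vseg, and_comm, eq_comm]

/-- Labelled rectangles. -/
structure Rect (L : Type*) where
  x : ℕ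
  y : ℕ
  w : ℕ
  h : ℕ
  lab : ℕ × ℕ → ℕ × ℕ → L

variable {L : Type*}

/-- The points of a rectangle. -/
def Rect.pts (R : Rect L) : Set (ℕ × ℕ) :=
  {p | R.x ≤ p.1 ∧ p.1 ≤ R.x + R.w ∧ R.y ≤ p.2 ∧ p.2 ≤ R.y + R.h}

/-- Strictly increasing on an interval. -/
def SM (f : ℕ → ℕ) (a n : ℕ) : Prop := ∀ i j, a ≤ i → i < j → j ≤ a + n → f i < f j

/-- Minor models between labelled rectangles, reaching the four sides in order. -/
structure Mod (le : L → L → Prop) (S R : Rect L) (B : ℕ × ℕ → Set (ℕ × ℕ))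
    (l r b t : ℕ → ℕ) : Prop where
  sub : ∀ p ∈ S.pts, B p ⊆ R.pts
  conn : ∀ p ∈ S.pts, Conn GA (B p)
  disj : ∀ p ∈ S.pts, ∀ q ∈ S.pts, ∀ z ∈ B p, z ∈ B q → p = q
  lab : ∀ p ∈ S.pts, ∀ q ∈ S.pts, KA p q →
    ∃ p' ∈ B p, ∃ q' ∈ B q, (p = q → p' = q') ∧ le (S.lab p q) (R.lab p' q')
  ml : SM l S.y S.h
  mr : SM r S.y S.h
  mb : SM b S.x S.w
  mt : SM t S.x S.w
  hl : ∀ j, S.y ≤ j → j ≤ S.y + S.h → (R.x, l j) ∈ B (S.x, j)
  hr : ∀ j, S.y ≤ j → j ≤ S.y + S.h → (R.x + R.w, r j) ∈ B (S.x + S.w, j)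
  hb : ∀ i, S.x ≤ i → i ≤ S.x + S.w → (b i, R.y) ∈ B (i, S.y)
  ht : ∀ i, S.x ≤ i → i ≤ S.x + S.w → (t i, R.y + R.h) ∈ B (i, S.y + S.h)

/-- The order on labelled rectangles. -/
def rle (le : L → L → Prop) (S R : Rect L) : Prop := ∃ B l r b t, Mod le S R B l r b t

/-- Transposition. -/
def Rect.tr (R : Rect L) : Rect L := ⟨R.y, R.x, R.h, R.w, fun p q => R.lab p.swap q.swap⟩

/-- The left part. -/
def Rect.cl (R : Rect L) (j : ℕ) : Rect L := ⟨R.x, R.y, j, R.h, R.lab⟩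

/-- The right part. -/
def Rect.cr (R : Rect L) (j : ℕ) : Rect L := ⟨R.x + j, R.y, R.w - j, R.h, R.lab⟩

variable {le : L → L → Prop}

theorem mem_tr {R : Rect L} {p : ℕ × ℕ} : p ∈ R.tr.pts ↔ p.swap ∈ R.pts := by
  simp only [Rect.pts, Rect.tr, mem_ofPred_eq, Prod.fst_swap, Prod.snd_swap]; omega

theorem rle.tr {S R : Rect L} (h : rle le S R) : rle le S.tr R.tr := by
  obtain ⟨B, l, r, b, t, h⟩ := h
  refine ⟨fun p => Prod.swap '' B p.swap, b, t, l, r, ?_, ?_, ?_, ?_, h.mb, h.mt, h.ml, h.mr,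
    fun j h1 h2 => ⟨_, h.hb j h1 h2, rfl⟩, fun j h1 h2 => ⟨_, h.ht j h1 h2, rfl⟩,
    fun j h1 h2 => ⟨_, h.hl j h1 h2, rfl⟩, fun j h1 h2 => ⟨_, h.hr j h1 h2, rfl⟩⟩
  · rintro p hp _ ⟨z, hz, rfl⟩
    exact mem_tr.2 (h.sub _ (mem_tr.1 hp) hz)
  · intro p hp
    exact (h.conn _ (mem_tr.1 hp)).image _ fun p _ q _ h => by
      unfold GA at *; simp only [Prod.fst_swap, Prod.snd_swap]; omega
  · rintro p hp q hq _ ⟨z, hz, rfl⟩ ⟨z', hz', e⟩
    rw [Prod.swap_inj.1 e] at hz'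
    exact Prod.swap_inj.1 (h.disj _ (mem_tr.1 hp) _ (mem_tr.1 hq) z hz hz')
  · intro p hp q hq hK
    obtain ⟨p', hp', q', hq', e, hle⟩ := h.lab _ (mem_tr.1 hp) _ (mem_tr.1 hq) (by
      unfold KA at *; simp only [Prod.fst_swap, Prod.snd_swap]; omega)
    exact ⟨_, ⟨p', hp', rfl⟩, _, ⟨q', hq', rfl⟩, fun e' => by rw [e (by rw [e'])], hle⟩

theorem SM.inj {f : ℕ → ℕ} {a n i j : ℕ} (h : SM f a n) (h1 : a ≤ i) (h2 : i ≤ a + n) (h3 : a ≤ j)
    (h4 : j ≤ a + n) (e : f i = f j) : i = j := by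
  rcases lt_trichotomy i j with hij | hij | hij
  · exact absurd e (h i j h1 hij h4).ne
  · exact hij
  · exact absurd e (h j i h3 hij h2).ne'

theorem ext_right {S R : Rect L} {j : ℕ} (h : rle le S (R.cl j)) (hj : j ≤ R.w) : rle le S R := by
  obtain ⟨B, l, r, b, t, h⟩ := h
  have k1 : ∀ p ∈ S.pts, p.1 = S.x + S.w → (R.x + j, r p.2) ∈ B p := fun p hp e => by
    have := h.hr p.2 hp.2.2.1 hp.2.2.2
    rwa [← e] at this
  have k2 : ∀ p ∈ S.pts, ∀ q ∈ S.pts, ∀ z ∈ B p, q.1 = S.x + S.w →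
      z ∈ hseg (r q.2) (R.x + j) (R.x + R.w) → p = q := fun p hp q hq z hz e hs => by
    have h1 : z.1 ≤ R.x + j := (h.sub p hp hz).2.1
    have h2 : z = (R.x + j, r q.2) := Prod.ext (le_antisymm h1 hs.2.1) hs.1
    exact h.disj p hp q hq z hz (h2 ▸ k1 q hq e)
  refine ⟨fun p => {z | z ∈ B p ∨ (p.1 = S.x + S.w ∧ z ∈ hseg (r p.2) (R.x + j) (R.x + R.w))},
    l, r, b, t, ?_, ?_, ?_, ?_, h.ml, h.mr, h.mb, h.mt, fun i h1 h2 => Or.inl (h.hl i h1 h2),
    fun i h1 h2 => Or.inr ⟨rfl, rfl, by simp only; omega, le_rfl⟩,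
    fun i h1 h2 => Or.inl (h.hb i h1 h2), fun i h1 h2 => Or.inl (h.ht i h1 h2)⟩
  · rintro p hp z (hz | ⟨e, hz⟩)
    · have := h.sub p hp hz
      simp only [Rect.pts, Rect.cl, mem_ofPred_eq] at this ⊢
      omega
    · have := h.sub p hp (k1 p hp e)
      simp only [Rect.pts, Rect.cl, hseg, mem_ofPred_eq] at this hz ⊢
      omega
  · intro p hp
    by_cases e : p.1 = S.x + S.w
    · simp only [e, true_and]
      exact (h.conn p hp).union (conn_hseg (r p.2) (R.x + j) (R.x + R.w))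
        (k1 p hp e) ⟨rfl, le_rfl, by simp only; omega⟩
    · simp only [e, false_and, or_false]
      exact h.conn p hp
  · rintro p hp q hq z (hz | ⟨e, hz⟩) (hz' | ⟨e', hz'⟩)
    · exact h.disj p hp q hq z hz hz'
    · exact k2 p hp q hq z hz e' hz'
    · exact (k2 q hq p hp z hz' e hz).symm
    · exact Prod.ext (e.trans e'.symm)
        (h.mr.inj hp.2.2.1 hp.2.2.2 hq.2.2.1 hq.2.2.2 (hz.1.symm.trans hz'.1))
  · intro p hp q hq hK
    obtain ⟨p', hp', q', hq', e⟩ := h.lab p hp q hq hK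
    exact ⟨p', Or.inl hp', q', Or.inl hq', e⟩

theorem ext_left {S R : Rect L} {j : ℕ} (h : rle le S (R.cr j)) (hj : j ≤ R.w) : rle le S R := by
  obtain ⟨B, l, r, b, t, h⟩ := h
  have k1 : ∀ p ∈ S.pts, p.1 = S.x → (R.x + j, l p.2) ∈ B p := fun p hp e => by
    have := h.hl p.2 hp.2.2.1 hp.2.2.2
    rwa [← e] at this
  have k2 : ∀ p ∈ S.pts, ∀ q ∈ S.pts, ∀ z ∈ B p, q.1 = S.x →
      z ∈ hseg (l q.2) R.x (R.x + j) → p = q := fun p hp q hq z hz e hs => by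
    have h1 : R.x + j ≤ z.1 := (h.sub p hp hz).1
    have h2 : z = (R.x + j, l q.2) := Prod.ext (le_antisymm hs.2.2 h1) hs.1
    exact h.disj p hp q hq z hz (h2 ▸ k1 q hq e)
  refine ⟨fun p => {z | z ∈ B p ∨ (p.1 = S.x ∧ z ∈ hseg (l p.2) R.x (R.x + j))},
    l, r, b, t, ?_, ?_, ?_, ?_, h.ml, h.mr, h.mb, h.mt,
    fun i h1 h2 => Or.inr ⟨rfl, rfl, le_rfl, by simp only; omega⟩,
    fun i h1 h2 => Or.inl ?_,
    fun i h1 h2 => Or.inl (h.hb i h1 h2), fun i h1 h2 => Or.inl (h.ht i h1 h2)⟩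
  · rintro p hp z (hz | ⟨e, hz⟩)
    · have := h.sub p hp hz
      simp only [Rect.pts, Rect.cr, mem_ofPred_eq] at this ⊢
      omega
    · have := h.sub p hp (k1 p hp e)
      simp only [Rect.pts, Rect.cr, hseg, mem_ofPred_eq] at this hz ⊢
      omega
  · intro p hp
    by_cases e : p.1 = S.x
    · simp only [e, true_and]
      exact (h.conn p hp).union (conn_hseg (l p.2) R.x (R.x + j))
        (k1 p hp e) ⟨rfl, by simp only; omega, le_rfl⟩
    · simp only [e, false_and, or_false]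
      exact h.conn p hp
  · rintro p hp q hq z (hz | ⟨e, hz⟩) (hz' | ⟨e', hz'⟩)
    · exact h.disj p hp q hq z hz hz'
    · exact k2 p hp q hq z hz e' hz'
    · exact (k2 q hq p hp z hz' e hz).symm
    · exact Prod.ext (e.trans e'.symm)
        (h.ml.inj hp.2.2.1 hp.2.2.2 hq.2.2.1 hq.2.2.2 (hz.1.symm.trans hz'.1))
  · intro p hp q hq hK
    obtain ⟨p', hp', q', hq', e⟩ := h.lab p hp q hq hK
    exact ⟨p', Or.inl hp', q', Or.inl hq', e⟩
  · have := h.hr i h1 h2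
    simp only [Rect.cr] at this
    rwa [add_assoc, Nat.add_sub_cancel' hj] at this

/-- A route from height `u` at column `a` to height `v` at column `b`, turning at column `c`. -/
def route (a c b u v : ℕ) : Set (ℕ × ℕ) := hseg u a c ∪ vseg c (min u v) (max u v) ∪ hseg v c b

theorem conn_route {a c b : ℕ} (h1 : a ≤ c) (h2 : c ≤ b) (u v : ℕ) : Conn GA (route a c b u v) :=
  ((conn_hseg u a c).union (conn_vseg c _ _) (z := (c, u)) ⟨rfl, h1, le_rfl⟩
    ⟨rfl, min_le_left _ _, le_max_left _ _⟩).union (conn_hseg v c b) (z := (c, v))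
    (Or.inr ⟨rfl, min_le_right _ _, le_max_right _ _⟩) ⟨rfl, le_rfl, h2⟩

theorem mem_route {a c b u v : ℕ} {z : ℕ × ℕ} : z ∈ route a c b u v ↔
    (z.2 = u ∧ a ≤ z.1 ∧ z.1 ≤ c) ∨ (z.1 = c ∧ min u v ≤ z.2 ∧ z.2 ≤ max u v) ∨
      (z.2 = v ∧ c ≤ z.1 ∧ z.1 ≤ b) := by
  simp only [route, hseg, vseg, mem_union, mem_ofPred_eq, or_assoc]

theorem glue {S R : Rect L} {c a b : ℕ} (h1 : rle le (S.cl c) (R.cl a))
    (h2 : rle le (S.cr c) (R.cr b)) (hc : c ≤ S.w) (hab : a + S.h + 2 ≤ b) (hb : b ≤ R.w) :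
    rle le S R := by
  obtain ⟨B1, l1, r1, b1, t1, h1⟩ := h1
  obtain ⟨B2, l2, r2, b2, t2, h2⟩ := h2
  let κ : ℕ → ℕ := fun j => if r1 j ≤ l2 j then R.x + a + (S.y + S.h - j) + 1
    else R.x + a + (j - S.y) + 1
  let T : ℕ → Set (ℕ × ℕ) := fun j => route (R.x + a) (κ j) (R.x + b) (r1 j) (l2 j)
  have m1 : ∀ p ∈ S.pts, p.1 ≤ S.x + c → p ∈ (S.cl c).pts := fun p hp e =>
    ⟨hp.1, e, hp.2.2⟩
  have m2 : ∀ p ∈ S.pts, S.x + c ≤ p.1 → p ∈ (S.cr c).pts := fun p hp e =>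
    ⟨e, by have := hp.2.1; simp only [Rect.cr]; omega, hp.2.2⟩
  have hκ : ∀ p ∈ S.pts, R.x + a < κ p.2 ∧ κ p.2 < R.x + b := fun p hp => by
    have := hp.2.2
    simp only [κ]
    split_ifs <;> omega
  have k1 : ∀ p ∈ S.pts, p.1 = S.x + c → (R.x + a, r1 p.2) ∈ B1 p := fun p hp e => by
    have := h1.hr p.2 hp.2.2.1 hp.2.2.2
    simp only [Rect.cl] at this
    rwa [← e] at this
  have k2 : ∀ p ∈ S.pts, p.1 = S.x + c → (R.x + b, l2 p.2) ∈ B2 p := fun p hp e => by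
    have := h2.hl p.2 hp.2.2.1 hp.2.2.2
    simp only [Rect.cr] at this
    rwa [← e] at this
  have s1 : ∀ p ∈ S.pts, p.1 ≤ S.x + c → ∀ z ∈ B1 p,
      R.x ≤ z.1 ∧ z.1 ≤ R.x + a ∧ R.y ≤ z.2 ∧ z.2 ≤ R.y + R.h := fun p hp e z hz =>
    h1.sub p (m1 p hp e) hz
  have s2 : ∀ p ∈ S.pts, S.x + c ≤ p.1 → ∀ z ∈ B2 p,
      R.x + b ≤ z.1 ∧ z.1 ≤ R.x + R.w ∧ R.y ≤ z.2 ∧ z.2 ≤ R.y + R.h := fun p hp e z hz => by
    have := h2.sub p (m2 p hp e) hz
    simp only [Rect.pts, Rect.cr, mem_ofPred_eq] at this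
    omega
  have d1 : ∀ p ∈ S.pts, ∀ q ∈ S.pts, ∀ z, p.1 ≤ S.x + c → z ∈ B1 p → q.1 = S.x + c →
      z ∈ T q.2 → p = q := fun p hp q hq z e hz e' hT => by
    have a1 := s1 p hp e z hz
    have a2 := hκ q hq
    rw [mem_route] at hT
    have : z = (R.x + a, r1 q.2) := Prod.ext (by simp only; omega) (by simp only; omega)
    exact h1.disj p (m1 p hp e) q (m1 q hq e'.le) z hz (this ▸ k1 q hq e')
  have d2 : ∀ p ∈ S.pts, ∀ q ∈ S.pts, ∀ z, S.x + c ≤ p.1 → z ∈ B2 p → q.1 = S.x + c →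
      z ∈ T q.2 → p = q := fun p hp q hq z e hz e' hT => by
    have a1 := s2 p hp e z hz
    have a2 := hκ q hq
    rw [mem_route] at hT
    have : z = (R.x + b, l2 q.2) := Prod.ext (by simp only; omega) (by simp only; omega)
    exact h2.disj p (m2 p hp e) q (m2 q hq e'.ge) z hz (this ▸ k2 q hq e')
  have d3 : ∀ i j z, S.y ≤ i → i < j → j ≤ S.y + S.h → z ∈ T i → z ∈ T j → False := by
    intro i j z a1 a2 a3 hi hj
    have a4 := h1.mr i j a1 a2 a3
    have a5 := h2.ml i j a1 a2 a3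
    rw [mem_route] at hi hj
    simp only [κ] at hi hj
    split_ifs at hi hj <;> omega
  refine ⟨fun p => {z | (p.1 ≤ S.x + c ∧ z ∈ B1 p) ∨ (S.x + c ≤ p.1 ∧ z ∈ B2 p) ∨
      (p.1 = S.x + c ∧ z ∈ T p.2)}, l1, r2, fun i => if i ≤ S.x + c then b1 i else b2 i,
    fun i => if i ≤ S.x + c then t1 i else t2 i, ?_, ?_, ?_, ?_, h1.ml, h2.mr, ?_, ?_,
    fun i a1 a2 => Or.inl ⟨Nat.le_add_right _ _, h1.hl i a1 a2⟩,
    fun i a1 a2 => Or.inr (Or.inl ⟨Nat.add_le_add_left hc _, ?_⟩), ?_, ?_⟩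
  · rintro p hp z (⟨e, hz⟩ | ⟨e, hz⟩ | ⟨e, hz⟩)
    · have := s1 p hp e z hz
      simp only [Rect.pts, mem_ofPred_eq]
      omega
    · have := s2 p hp e z hz
      simp only [Rect.pts, mem_ofPred_eq]
      omega
    · have a1 := s1 p hp e.le _ (k1 p hp e)
      have a2 := s2 p hp e.ge _ (k2 p hp e)
      have a3 := hκ p hp
      rw [mem_route] at hz
      simp only [Rect.pts, mem_ofPred_eq] at a1 a2 ⊢
      omega
  · intro p hp
    rcases lt_trichotomy p.1 (S.x + c) with e | e | e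
    · simp only [e.le, e.ne, not_le.2 e, true_and, false_and, or_false]
      exact h1.conn p (m1 p hp e.le)
    · simp only [e, le_refl, true_and]
      have a3 := hκ p hp
      have c1 := conn_route a3.1.le a3.2.le (r1 p.2) (l2 p.2)
      exact (h1.conn p (m1 p hp e.le)).union ((h2.conn p (m2 p hp e.ge)).union c1 (k2 p hp e)
        (mem_route.2 (Or.inr (Or.inr ⟨rfl, a3.2.le, le_rfl⟩)))) (k1 p hp e)
        (Or.inr (mem_route.2 (Or.inl ⟨rfl, le_rfl, a3.1.le⟩)))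
    · simp only [e.le, e.ne', not_le.2 e, true_and, false_and, or_false, false_or]
      exact h2.conn p (m2 p hp e.le)
  · rintro p hp q hq z (⟨e, hz⟩ | ⟨e, hz⟩ | ⟨e, hz⟩) (⟨e', hz'⟩ | ⟨e', hz'⟩ | ⟨e', hz'⟩)
    · exact h1.disj p (m1 p hp e) q (m1 q hq e') z hz hz'
    · have a1 := s1 p hp e z hz
      have a2 := s2 q hq e' z hz'
      omega
    · exact d1 p hp q hq z e hz e' hz'
    · have a1 := s1 q hq e' z hz'
      have a2 := s2 p hp e z hz
      omega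
    · exact h2.disj p (m2 p hp e) q (m2 q hq e') z hz hz'
    · exact d2 p hp q hq z e hz e' hz'
    · exact (d1 q hq p hp z e' hz' e hz).symm
    · exact (d2 q hq p hp z e' hz' e hz).symm
    · refine Prod.ext (e.trans e'.symm) ?_
      rcases lt_trichotomy p.2 q.2 with h | h | h
      · exact (d3 _ _ z hp.2.2.1 h hq.2.2.2 hz hz').elim
      · exact h
      · exact (d3 _ _ z hq.2.2.1 h hp.2.2.2 hz' hz).elim
  · intro p hp q hq hK
    by_cases e : p.1 ≤ S.x + c ∧ q.1 ≤ S.x + c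
    · obtain ⟨p', hp', q', hq', e'⟩ := h1.lab p (m1 p hp e.1) q (m1 q hq e.2) hK
      exact ⟨p', Or.inl ⟨e.1, hp'⟩, q', Or.inl ⟨e.2, hq'⟩, e'⟩
    · have e1 : S.x + c ≤ p.1 := by unfold KA at hK; omega
      have e2 : S.x + c ≤ q.1 := by unfold KA at hK; omega
      obtain ⟨p', hp', q', hq', e'⟩ := h2.lab p (m2 p hp e1) q (m2 q hq e2) hK
      exact ⟨p', Or.inr (Or.inl ⟨e1, hp'⟩), q', Or.inr (Or.inl ⟨e2, hq'⟩), e'⟩
  · intro i j a1 a2 a3
    simp only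
    split_ifs with c1 c2 c2
    · exact h1.mb i j a1 a2 c2
    · have a4 := s1 (i, S.y) ⟨a1, by simp only; omega, le_rfl, Nat.le_add_right _ _⟩ c1 _
        (h1.hb i a1 c1)
      have a5 := s2 (j, S.y) ⟨by simp only; omega, a3, le_rfl, Nat.le_add_right _ _⟩
        (by simp only; omega) _
        (h2.hb j (by simp only [Rect.cr]; omega) (by simp only [Rect.cr]; omega))
      simp only at a4 a5
      omega
    · omega
    · exact h2.mb i j (by simp only [Rect.cr]; omega) a2 (by simp only [Rect.cr]; omega)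
  · intro i j a1 a2 a3
    simp only
    split_ifs with c1 c2 c2
    · exact h1.mt i j a1 a2 c2
    · have a4 := s1 (i, S.y + S.h) ⟨a1, by simp only; omega, Nat.le_add_right _ _, le_rfl⟩ c1 _
        (h1.ht i a1 c1)
      have a5 := s2 (j, S.y + S.h) ⟨by simp only; omega, a3, Nat.le_add_right _ _, le_rfl⟩
        (by simp only; omega) _
        (h2.ht j (by simp only [Rect.cr]; omega) (by simp only [Rect.cr]; omega))
      simp only at a4 a5
      omega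
    · omega
    · exact h2.mt i j (by simp only [Rect.cr]; omega) a2 (by simp only [Rect.cr]; omega)
  · have := h2.hr i a1 a2
    simp only [Rect.cr] at this
    rwa [add_assoc R.x, Nat.add_sub_cancel' hb, add_assoc S.x, Nat.add_sub_cancel' hc] at this
  · intro i a1 a2
    simp only
    split_ifs with c1
    · exact Or.inl ⟨c1, h1.hb i a1 c1⟩
    · exact Or.inr (Or.inl ⟨(not_le.1 c1).le,
        h2.hb i (by simp only [Rect.cr]; omega) (by simp only [Rect.cr]; omega)⟩)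
  · intro i a1 a2
    simp only
    split_ifs with c1
    · exact Or.inl ⟨c1, h1.ht i a1 c1⟩
    · exact Or.inr (Or.inl ⟨(not_le.1 c1).le,
        h2.ht i (by simp only [Rect.cr]; omega) (by simp only [Rect.cr]; omega)⟩)

theorem rle_transl {S R : Rect L} (hw : S.w = R.w) (hh : S.h = R.h)
    (h : ∀ p ∈ Iic (S.w, S.h), ∀ q ∈ Iic (S.w, S.h),
      le (S.lab ((S.x, S.y) + p) ((S.x, S.y) + q)) (R.lab ((R.x, R.y) + p) ((R.x, R.y) + q))) :
    rle le S R := by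
  refine ⟨fun p => {(R.x + (p.1 - S.x), R.y + (p.2 - S.y))}, fun j => R.y + (j - S.y),
    fun j => R.y + (j - S.y), fun i => R.x + (i - S.x), fun i => R.x + (i - S.x),
    ?_, fun p _ => conn_singleton _, ?_, ?_, ?_, ?_, ?_, ?_, ?_, ?_, ?_, ?_⟩
  · rintro p hp _ rfl
    simp only [Rect.pts, mem_ofPred_eq] at hp ⊢
    omega
  · rintro p hp q hq _ rfl e
    simp only [Rect.pts, mem_ofPred_eq, mem_singleton_iff, Prod.mk.injEq] at hp hq e
    exact Prod.ext (by omega) (by omega)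
  · intro p hp q hq _
    refine ⟨_, rfl, _, rfl, fun e => by rw [e], ?_⟩
    simp only [Rect.pts, mem_ofPred_eq] at hp hq
    have := h (p.1 - S.x, p.2 - S.y) ⟨by simp only; omega, by simp only; omega⟩
      (q.1 - S.x, q.2 - S.y) ⟨by simp only; omega, by simp only; omega⟩
    simp only [Prod.mk_add_mk] at this
    rwa [Nat.add_sub_cancel' hp.1, Nat.add_sub_cancel' hp.2.2.1, Nat.add_sub_cancel' hq.1,
      Nat.add_sub_cancel' hq.2.2.1] at this
  iterate 4 intro i j a1 a2 a3; simp only; omega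
  all_goals intro i a1 a2; simp [hw, hh]

/-- Proper hereditary subrectangles. -/
def rr (le : L → L → Prop) (R' R : Rect L) : Prop :=
  R'.lab = R.lab ∧ R'.w + R'.h < R.w + R.h ∧ ∀ S, rle le S R' → rle le S R

theorem cut_wide {A : Set ℕ} {f : Set ℕ → Rect L} (hf : Bad (rle le) A f)
    (hw : ∀ X, Sub A X → (f X).h ≤ (f X).w) :
    (∃ B g, Sub A B ∧ Bad le B g ∧ ∀ X, Sub B X → ∃ p q, g X = (f X).lab p q) ∨
      ∃ B g, Sub A B ∧ Bad (rle le) B g ∧ ∀ X, Sub B X → rr le (g X) (f X) := by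
  obtain ⟨B, hB, ⟨w, hc⟩ | hg⟩ := growth hf.1 (hf.2.1.comp Rect.w)
    fun m => ((m + 1) * (m + 1) + 1) * ((m + 1) * (m + 1) + 1) + 1
  · left
    obtain ⟨C, hC, h, hh⟩ := ramsey_bdd hB.2 ((hf.2.1.comp Rect.h).mono hB.1) (N := w)
      fun X hX => (hw X (hB.trans hX)).trans (hc X hX).le
    obtain ⟨D, hD, hgood | ⟨i, hbad⟩⟩ := all_good_or_bad le
      ((finite_Iic (w, h)).prod (finite_Iic (w, h))) hC.2
      (f := fun (i : (ℕ × ℕ) × (ℕ × ℕ)) X =>
        (f X).lab (((f X).x, (f X).y) + i.1) (((f X).x, (f X).y) + i.2))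
      fun i => (hf.2.1.comp fun R => R.lab ((R.x, R.y) + i.1) ((R.x, R.y) + i.2)).mono
        (hC.1.trans hB.1)
    · exfalso
      have e1 := hc D (hC.trans hD)
      have e2 := hc _ (hC.trans hD).sh
      have e3 := hh D hD
      have e4 := hh _ hD.sh
      refine hf.2.2 D (hB.trans (hC.trans hD)) (rle_transl (e1.trans e2.symm) (e3.trans e4.symm)
        fun p hp q hq => hgood (p, q) ⟨?_, ?_⟩ D (Sub.refl hD.2))
      · rwa [e1, e3] at hp
      · rwa [e1, e3] at hq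
    · exact ⟨D, _, hB.trans (hC.trans hD), hbad, fun X _ => ⟨_, _, rfl⟩⟩
  right
  let N : Rect L → ℕ := fun R => Nat.sqrt (R.w - 1)
  let Gd : Rect L → Set (Rect L) → ℕ → Prop := fun R P j => 1 ≤ j ∧ j ≤ N R ∧
    ∀ R' ∈ P, ∀ c ≤ R'.w, rle le (R'.cl c) (R.cl (j * N R)) → rle le (R'.cl c) (R.cl ((j - 1) * N R))
  let c : Set ℕ → ℕ := fun Y => Classical.epsilon (Gd (f Y) (preds B f Y)) * N (f Y)
  have hfB := hf.2.1.mono hB.1
  have hcL : LC B c := hfB.comp₂ hfB.preds fun R P => Classical.epsilon (Gd R P) * N R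
  have hN : ∀ X, Sub B X → ((f X).w + sInf X + 1) * ((f X).w + sInf X + 1) + 1 ≤ N (f (sh X)) :=
    fun X hX => Nat.le_sqrt.2 (Nat.le_sub_one_of_lt (hg X hX))
  have hB' := (Sub.refl hB.2).sh
  have hGd : ∀ Y, Sub (sh B) Y →
      Gd (f Y) (preds B f Y) (Classical.epsilon (Gd (f Y) (preds B f Y))) := by
    intro Y hY
    refine Classical.epsilon_spec ?_
    obtain ⟨x, ⟨hx1, hx2⟩, hx3⟩ := Set.exists_max_image {x | x ∈ B ∧ x < sInf Y}
      (fun x => (f (insert x Y)).w + x) ((finite_Iio (sInf Y)).subset fun _ hx => hx.2)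
      ⟨sInf B, (Sub.refl hB.2).sInf_mem, (mem_sh.1 (hY.1 hY.sInf_mem)).2⟩
    have a1 := hN _ ((hB'.trans hY).insert hx1)
    rw [sh_insert_of_lt hx2, sInf_insert_of_lt hx2] at a1
    set m := (f (insert x Y)).w + x
    obtain ⟨j, hj1, hj2⟩ := Finset.exists_mem_notMem_of_card_lt_card (t := Finset.Icc 1 (N (f Y)))
      (s := (Finset.range (m + 1) ×ˢ Finset.range (m + 1)).image fun i =>
        sInf {j | rle le ((f (insert i.1 Y)).cl i.2) ((f Y).cl (j * N (f Y)))})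
      (Finset.card_image_le.trans_lt (by simpa using a1))
    rw [Finset.mem_Icc] at hj1
    refine ⟨j, hj1.1, hj1.2, ?_⟩
    rintro _ ⟨x', hx', rfl⟩ c' hc' hle
    have a2 := hx3 x' hx'
    simp only at a2 hc'
    have a3 := Nat.sInf_le (s := {j | rle le ((f (insert x' Y)).cl c') ((f Y).cl (j * N (f Y)))}) hle
    have a4 := Nat.sInf_mem
      (s := {j | rle le ((f (insert x' Y)).cl c') ((f Y).cl (j * N (f Y)))}) ⟨j, hle⟩
    have a5 : sInf {j | rle le ((f (insert x' Y)).cl c') ((f Y).cl (j * N (f Y)))} ≠ j := fun e =>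
      hj2 (Finset.mem_image.2 ⟨(x', c'), by simp only [Finset.mem_product, Finset.mem_range]; omega, e⟩)
    exact ext_right (R := (f Y).cl ((j - 1) * N (f Y))) a4
      (Nat.mul_le_mul_right _ (by omega))
  have hc1 : ∀ Y, Sub (sh B) Y → 0 < c Y ∧ c Y < (f Y).w := by
    intro Y hY
    obtain ⟨a1, a2, -⟩ := hGd Y hY
    have a3 : N (f Y) * N (f Y) ≤ (f Y).w - 1 := Nat.sqrt_le _
    have a4 := Nat.mul_le_mul_right (N (f Y)) a2
    have a5 := Nat.mul_pos a1 (a1.trans a2)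
    simp only [c]
    omega
  obtain ⟨C, hC, h1 | h1⟩ := good_or_bad (rle le) hB'.2 ((hfB.comp₂ hcL Rect.cl).mono hB'.1)
  swap
  · refine ⟨C, _, hB.trans (hB'.trans hC), h1, fun X hX => ?_⟩
    have := hc1 X (hC.trans hX)
    exact ⟨rfl, by simp only [Rect.cl]; omega, fun S hS => ext_right hS this.2.le⟩
  obtain ⟨D, hD, h2 | h2⟩ := good_or_bad (rle le) hC.2
    ((hfB.comp₂ hcL Rect.cr).mono (hC.1.trans hB'.1))
  swap
  · refine ⟨D, _, hB.trans (hB'.trans (hC.trans hD)), h2, fun X hX => ?_⟩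
    have := hc1 X (hC.trans (hD.trans hX))
    exact ⟨rfl, by simp only [Rect.cr]; omega, fun S hS => ext_left hS this.2.le⟩
  exfalso
  have hD' := hC.trans hD
  have hDB := hB'.trans hD'
  obtain ⟨a1, a2, a3⟩ := hGd _ hD'.sh
  have a4 := a3 _ (mem_preds f hDB) _ (hc1 D hD').2.le (h1 D hD)
  refine hf.2.2 D (hB.trans hDB) (glue a4 (h2 D (Sub.refl hD.2)) (hc1 D hD').2.le ?_
    (hc1 _ hD'.sh).2.le)
  have a5 := hN D hDB
  have a6 := hw D (hB.trans hDB)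
  have a7 : (f D).w + sInf D + 1 ≤ ((f D).w + sInf D + 1) * ((f D).w + sInf D + 1) :=
    Nat.le_mul_self _
  simp only [c]
  obtain ⟨j, hj⟩ := Nat.exists_eq_add_of_le' a1
  rw [hj, Nat.add_sub_cancel, add_mul, one_mul]
  omega

/-- Labelled rectangles are well behaved. -/
theorem bad_of_bad_rle {A : Set ℕ} {f : Set ℕ → Rect L} (hf : Bad (rle le) A f) :
    ∃ B g, Sub A B ∧ Bad le B g ∧ ∀ X, Sub B X → ∃ p q, g X = (f X).lab p q := by
  obtain ⟨B, F, hB, hF, hle, hmin⟩ := mba (r := rr le)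
    (Subrelation.wf (r := InvImage (· < ·) fun R : Rect L => R.w + R.h) (fun h => h.2.1)
      (InvImage.wf _ Nat.lt_wfRel.wf))
    (fun a b c h h' => ⟨h.1.trans h'.1, h.2.1.trans h'.2.1, fun S hS => h'.2.2 S (h.2.2 S hS)⟩)
    (fun s t t' h h' => h.2.2 s h') hf
  have hlab : ∀ X, Sub B X → (F X).lab = (f X).lab := fun X hX => by
    rcases hle X hX with h | h
    · rw [h]
    · exact h.1
  obtain ⟨C, hC, h | h⟩ := ramsey_prop hB.2 (hF.2.1.comp fun R => R.h ≤ R.w)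
  · rcases cut_wide (hF.mono hC) h with ⟨D, g, h1, h2, h3⟩ | ⟨D, g, h1, h2, h3⟩
    · exact ⟨D, g, hB.trans (hC.trans h1), h2, fun X hX => hlab X ((hC.trans h1).trans hX) ▸ h3 X hX⟩
    · exact absurd h3 (hmin D g (hC.trans h1) h2)
  · have hT : Bad (rle le) C fun X => (F X).tr :=
      ⟨hC.2, (hF.2.1.comp Rect.tr).mono hC.1, fun X hX hle => hF.2.2 X (hC.trans hX) hle.tr⟩
    rcases cut_wide hT fun X hX => (not_le.1 (h X hX)).le with ⟨D, g, h1, h2, h3⟩ | ⟨D, g, h1, h2, h3⟩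
    · refine ⟨D, g, hB.trans (hC.trans h1), h2, fun X hX => ?_⟩
      obtain ⟨p, q, e⟩ := h3 X hX
      exact ⟨p.swap, q.swap, hlab X ((hC.trans h1).trans hX) ▸ e⟩
    · refine absurd (fun X hX => ?_) (hmin D (fun X => (g X).tr) (hC.trans h1)
        ⟨h2.1, h2.2.1.comp Rect.tr, fun X hX hle => h2.2.2 X hX hle.tr⟩)
      obtain ⟨a1, a2, a3⟩ := h3 X hX
      refine ⟨?_, ?_, fun S hS => (a3 S.tr hS.tr).tr⟩
      · simp only [Rect.tr] at a1 ⊢
        rw [a1]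
        rfl
      · simp only [Rect.tr] at a2 ⊢
        omega

end Pool.Agent.H80W

end

-- part MP_699d75_co.Tree
section

/-!
Tree decompositions of adhesion at most two over rayless forests.
-/

namespace Pool.Agent.H80W

open Set Relation

section link

variable {V : Type*} {R : V → V → Prop}

theorem Reach.exit {T D : Set V} {x u : V} (h : Reach R T x u) (hx : x ∈ D) (hu : u ∉ D) :
    ∃ a c, Reach R (T ∩ D) x a ∧ a ∈ D ∧ a ∈ T ∧ c ∈ T ∧ c ∉ D ∧ R a c := by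
  induction h using ReflTransGen.head_induction_on with
  | refl => exact absurd hx hu
  | @head a c h _ ih =>
    by_cases hc : c ∈ D
    · obtain ⟨a', c', h1, h2⟩ := ih hc
      exact ⟨a', c', Reach.trans (Reach.single h.1 (mem_inter h.2.1 hx) (mem_inter h.2.2 hc)) h1, h2⟩
    · exact ⟨a, c, Reach.refl _ _, hx, h.2.1, h.2.2, hc, h.1⟩

theorem Reach.self {T : Set V} {v b : V} (h : Reach R T v b) :
    Reach R {y | y ∈ T ∧ Reach R T v y} v b := by
  induction h with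
  | refl => exact Reach.refl _ _
  | tail h1 h2 ih => exact ih.trans (Reach.single h2.1 ⟨h2.2.1, h1⟩ ⟨h2.2.2, h1.tail h2⟩)

theorem move_vertex (hR : ∀ x y, R x y → R y x) {S D : Set V} (hS : S.Finite)
    (h2 : ∀ w, Conn R (S \ {w})) (hDS : D ⊆ S) (hD : Conn R D) (hC : Conn R (S \ D)) {u v x : V}
    (hu : u ∈ S \ D) (hv : v ∈ D) (hx : x ∈ D) (hxv : x ≠ v) :
    ∃ w ∈ D, w ≠ v ∧ Conn R (D \ {w}) ∧ Conn R (insert w (S \ D)) := by
  let K : V → Set V := fun w => {y | y ∈ D \ {w} ∧ Reach R (D \ {w}) v y}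
  have ex : ∀ w x, w ∈ D → x ∈ D → x ≠ w →
      ∃ a, Reach R (D \ {w}) x a ∧ a ∈ D \ {w} ∧ ∃ c ∈ S \ D, R a c := by
    intro w x hw hx hxw
    obtain ⟨a, c, h1, h3, h4, h5, h6, h7⟩ := (h2 w x ⟨hDS hx, hxw⟩ u
      ⟨hu.1, fun e => hu.2 (e ▸ hw)⟩).exit hx hu.2
    exact ⟨a, h1.mono fun y hy => ⟨hy.2, hy.1.2⟩, ⟨h3, h4.2⟩, c, ⟨h5.1, h6⟩, h7⟩
  obtain ⟨w, ⟨hw1, c, hc, hwc⟩, hmax⟩ := Set.exists_max_image
    {w | w ∈ D \ {v} ∧ ∃ c ∈ S \ D, R w c} (fun w => (K w).ncard)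
    (hS.subset fun w hw => hDS hw.1.1) (by
      obtain ⟨a, _, h⟩ := ex v x hv hx hxv
      exact ⟨a, h⟩)
  refine ⟨w, hw1.1, hw1.2, conn_of_base hR v fun y hy => ?_, ?_⟩
  · by_contra hn
    obtain ⟨a, h1, h3, h4⟩ := ex w y hw1.1 hy.1 hy.2
    have haK : a ∉ K w := fun h => hn (h1.trans (h.2.symm hR))
    have hvK : v ∈ K w := ⟨⟨hv, Ne.symm hw1.2⟩, Reach.refl _ _⟩
    have hsub : K w ⊆ K a := fun b hb =>
      ⟨⟨hb.1.1, fun e => haK (e ▸ hb)⟩, hb.2.self.mono fun y hy => ⟨hy.1.1, fun e => haK (e ▸ hy)⟩⟩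
    have hwK : w ∉ K w := fun h => h.1.2 rfl
    obtain ⟨a', c', -, k1, -, k2, k3, k4⟩ := (hD v hv w hw1.1).exit hvK hwK
    have e : c' = w := by
      by_contra e
      exact k3 ⟨⟨k2, e⟩, k1.2.trans (Reach.single k4 k1.1 ⟨k2, e⟩)⟩
    subst e
    have hwa : c' ∈ D \ {a} := ⟨k2, fun e => h3.2 (Eq.symm e)⟩
    have hlt := ncard_lt_ncard (s := K c') (t := K a) ⟨hsub, fun h => hwK (h
      ⟨hwa, (hsub k1).2.trans (Reach.single k4 (hsub k1).1 hwa)⟩)⟩
      (hS.subset fun y hy => hDS hy.1.1)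
    exact absurd (hmax a ⟨⟨h3.1, fun e => haK (e ▸ hvK)⟩, h4⟩) (not_le.2 hlt)
  · refine conn_of_base hR c ?_
    rintro y (rfl | hy)
    · exact Reach.single hwc (Or.inl rfl) (Or.inr hc)
    · exact (hC y hy c hc).mono (subset_insert _ _)

/-- Two disjoint connections between two pairs of vertices. -/
theorem two_link (hR : ∀ x y, R x y → R y x) {S : Set V} (hS : S.Finite)
    (h2 : ∀ w, Conn R (S \ {w})) {u v x y : V} (hu : u ∈ S) (hv : v ∈ S) (huv : u ≠ v)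
    (hx : x ∈ S) (hy : y ∈ S) (hxy : x ≠ y) :
    ∃ D ⊆ S, Conn R D ∧ Conn R (S \ D) ∧ u ∉ D ∧ v ∈ D ∧ ((x ∉ D ∧ y ∈ D) ∨ (y ∉ D ∧ x ∈ D)) := by
  have key : ∀ n (D : Set V), D.ncard = n → D ⊆ S → Conn R D → Conn R (S \ D) → u ∉ D → v ∈ D →
      (x ∈ D ∨ y ∈ D) → ∃ D ⊆ S, Conn R D ∧ Conn R (S \ D) ∧ u ∉ D ∧ v ∈ D ∧
        ((x ∉ D ∧ y ∈ D) ∨ (y ∉ D ∧ x ∈ D)) := by
    intro n
    induction n using Nat.strong_induction_on with
    | _ n ih =>
      intro D hn h3 h4 h5 h6 h7 h8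
      by_cases hxy' : x ∈ D ∧ y ∈ D
      · obtain ⟨z, hz, hzv⟩ : ∃ z ∈ D, z ≠ v := by
          by_cases e : x = v
          · exact ⟨y, hxy'.2, fun e' => hxy (e.trans e'.symm)⟩
          · exact ⟨x, hxy'.1, e⟩
        obtain ⟨w, k1, k2, k3, k4⟩ := move_vertex hR hS h2 h3 h4 h5 ⟨hu, h6⟩ h7 hz hzv
        refine ih _ (hn ▸ ncard_lt_ncard (sdiff_singleton_ssubset.2 k1) (hS.subset h3)) _ rfl
          (sdiff_subset.trans h3) k3 ?_ (fun h => h6 h.1) ⟨h7, Ne.symm k2⟩ ?_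
        · convert k4 using 1
          ext i
          by_cases e : i = w
          · simp [e, h3 k1]
          · simp [e]
        · by_cases e : x = w
          · exact Or.inr ⟨hxy'.2, fun e' => hxy (e.trans (Eq.symm e'))⟩
          · exact Or.inl ⟨hxy'.1, e⟩
      · exact ⟨D, h3, h4, h5, h6, h7, by tauto⟩
  refine key _ (S \ {u}) rfl sdiff_subset (h2 u) ?_ (fun h => h.2 rfl) ⟨hv, huv.symm⟩ ?_
  · rw [sdiff_sdiff_cancel_left (singleton_subset_iff.2 hu)]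
    exact conn_singleton u
  · by_cases e : x = u
    · exact Or.inr ⟨hy, fun e' => hxy (e.trans (Eq.symm e'))⟩
    · exact Or.inl ⟨hx, e⟩

/-- The points of the grid with given side lengths. -/
def box (a b : ℕ) : Set (ℕ × ℕ) := {p | p.1 ≤ a ∧ p.2 ≤ b}

theorem conn_box {a b : ℕ} (ha : 1 ≤ a) (hb : 1 ≤ b) (w : ℕ × ℕ) : Conn GA (box a b \ {w}) := by
  obtain ⟨i, hi1, hi2⟩ : ∃ i, i ≤ a ∧ i ≠ w.1 := by
    by_cases e : w.1 = 0
    exacts [⟨1, ha, by omega⟩, ⟨0, by omega, by omega⟩]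
  obtain ⟨j, hj1, hj2⟩ : ∃ j, j ≤ b ∧ j ≠ w.2 := by
    by_cases e : w.2 = 0
    exacts [⟨1, hb, by omega⟩, ⟨0, by omega, by omega⟩]
  have r : ∀ y, y ≤ b → y ≠ w.2 → hseg y 0 a ⊆ box a b \ {w} := fun y h1 h2 z hz =>
    ⟨⟨hz.2.2, hz.1 ▸ h1⟩, fun e => h2 (by rw [← hz.1, e])⟩
  have c : ∀ x, x ≤ a → x ≠ w.1 → vseg x 0 b ⊆ box a b \ {w} := fun x h1 h2 z hz =>
    ⟨⟨hz.1 ▸ h1, hz.2.2⟩, fun e => h2 (by rw [← hz.1, e])⟩
  refine conn_of_base GA_symm (i, j) fun p hp => ?_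
  by_cases e : p.1 = w.1
  · have e' : p.2 ≠ w.2 := fun e' => hp.2 (Prod.ext e e')
    exact ((conn_hseg p.2 0 a p ⟨rfl, Nat.zero_le _, hp.1.1⟩ (i, p.2)
      ⟨rfl, Nat.zero_le _, hi1⟩).mono (r _ hp.1.2 e')).trans
      ((conn_vseg i 0 b (i, p.2) ⟨rfl, Nat.zero_le _, hp.1.2⟩ (i, j)
      ⟨rfl, Nat.zero_le _, hj1⟩).mono (c _ hi1 hi2))
  · exact ((conn_vseg p.1 0 b p ⟨rfl, Nat.zero_le _, hp.1.2⟩ (p.1, j)
      ⟨rfl, Nat.zero_le _, hj1⟩).mono (c _ hp.1.1 e)).trans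
      ((conn_hseg j 0 a (p.1, j) ⟨rfl, Nat.zero_le _, hp.1.1⟩ (i, j)
      ⟨rfl, Nat.zero_le _, hi1⟩).mono (r _ hj1 hj2))

end link

variable {V T : Type*}

/-- Adjacency in the torso of a node. -/
def TA (G : SimpleGraph V) (par : T → Option T) (bag : T → Set V) (t : T) (x y : V) : Prop :=
  x ≠ y ∧ x ∈ bag t ∧ y ∈ bag t ∧
    (G.Adj x y ∨ ∃ s, (par s = some t ∨ par t = some s) ∧ x ∈ bag s ∧ y ∈ bag s)

/-- Rooted forest decompositions of adhesion at most two with finite two-connected torsos. -/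
structure TD (G : SimpleGraph V) (T : Type*) where
  par : T → Option T
  bag : T → Set V
  rt : T → V × V
  wf : WellFounded fun c t => par c = some t
  cnt : ∀ t, {c | par c = some t}.Countable
  edge : ∀ u v, G.Adj u v → ∃ t, u ∈ bag t ∧ v ∈ bag t
  sub : ∀ v s t, v ∈ bag s → v ∈ bag t →
    EqvGen (fun a b => par a = some b ∧ v ∈ bag a ∧ v ∈ bag b) s t
  adh : ∀ c t, par c = some t → bag c ∩ bag t = {(rt c).1, (rt c).2}
  rtmem : ∀ t, (rt t).1 ∈ bag t ∧ (rt t).2 ∈ bag t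
  can : ∀ c d t, par c = some t → par d = some t →
    ({(rt c).1, (rt c).2} : Set V) = {(rt d).1, (rt d).2} → rt c = rt d
  big : ∀ c t, par c = some t → ¬ bag c ⊆ bag t
  fin : ∀ t, (bag t).Finite
  conn1 : ∀ t, Conn (TA G par bag t) (bag t)
  conn2 : ∀ t w, Conn (TA G par bag t) (bag t \ {w})

namespace TD

variable {G : SimpleGraph V} (D : TD G T)

/-- The child relation. -/
def ch (c t : T) : Prop := D.par c = some t

/-- Torso adjacency. -/
def ta (t : T) : V → V → Prop := TA G D.par D.bag t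

/-- The vertices below a node. -/
def P (t : T) : Set V := {v | ∃ s, ReflTransGen D.ch s t ∧ v ∈ D.bag s}

variable {D}

theorem ta_symm (t : T) (x y : V) (h : D.ta t x y) : D.ta t y x :=
  ⟨h.1.symm, h.2.2.1, h.2.1, h.2.2.2.imp (fun h => h.symm) fun ⟨s, h1, h2, h3⟩ => ⟨s, h1, h3, h2⟩⟩

theorem ch_unique {c s t : T} (h : D.ch c s) (h' : D.ch c t) : s = t :=
  Option.some_injective _ (h.symm.trans h')

theorem not_transGen (t : T) : ¬ TransGen D.ch t t := (D.wf.transGen.irrefl).irrefl t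

theorem desc_total {s a b : T} (h : ReflTransGen D.ch s a) (h' : ReflTransGen D.ch s b) :
    ReflTransGen D.ch a b ∨ ReflTransGen D.ch b a :=
  ReflTransGen.total_of_right_unique (fun _ _ _ h h' => ch_unique h h') h h'

theorem bag_subset_P (t : T) : D.bag t ⊆ D.P t := fun _ hv => ⟨t, ReflTransGen.refl, hv⟩

theorem P_mono {s t : T} (h : ReflTransGen D.ch s t) : D.P s ⊆ D.P t :=
  fun _ ⟨a, h1, h2⟩ => ⟨a, h1.trans h, h2⟩

theorem mem_P {t : T} {v : V} : v ∈ D.P t ↔ v ∈ D.bag t ∨ ∃ c, D.ch c t ∧ v ∈ D.P c := by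
  constructor
  · rintro ⟨s, h1, h2⟩
    rcases h1.cases_tail with rfl | ⟨c, h3, h4⟩
    · exact Or.inl h2
    · exact Or.inr ⟨c, h4, s, h3, h2⟩
  · rintro (h | ⟨c, h1, h2⟩)
    · exact bag_subset_P t h
    · exact P_mono (ReflTransGen.single h1) h2

theorem key {v : V} {s t c : T} (hs : v ∈ D.bag s) (ht : v ∈ D.bag t)
    (h : ReflTransGen D.ch s c) (h' : ¬ ReflTransGen D.ch t c) :
    v ∈ D.bag c ∧ ∃ p, D.ch c p ∧ v ∈ D.bag p := by
  have k : ∀ a b, EqvGen (fun a b => D.par a = some b ∧ v ∈ D.bag a ∧ v ∈ D.bag b) a b →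
      (v ∈ D.bag c ∧ ∃ p, D.ch c p ∧ v ∈ D.bag p) ∨
        (ReflTransGen D.ch a c ↔ ReflTransGen D.ch b c) := by
    intro a b hab
    induction hab with
    | rel a b hab =>
      by_cases e : a = c
      · subst e
        exact Or.inl ⟨hab.2.1, b, hab.1, hab.2.2⟩
      · refine Or.inr ⟨fun h => ?_, fun h => h.head hab.1⟩
        rcases h.cases_head with e' | ⟨b', h1, h2⟩
        · exact absurd e' e
        · rwa [ch_unique h1 hab.1] at h2
    | refl a => exact Or.inr Iff.rfl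
    | symm a b _ ih => exact ih.imp_right Iff.symm
    | trans a b d _ _ ih1 ih2 =>
      rcases ih1 with h | h
      · exact Or.inl h
      · exact ih2.imp_right h.trans
  exact (k s t (D.sub v s t hs ht)).resolve_right fun e => h' (e.1 h)

theorem mem_rt {c t : T} (h : D.ch c t) {v : V} (h1 : v ∈ D.P c) (h2 : v ∈ D.bag t) :
    v = (D.rt c).1 ∨ v = (D.rt c).2 := by
  obtain ⟨s, h3, h4⟩ := h1
  have := (key h4 h2 h3 fun h' => not_transGen t (TransGen.tail' h' h)).1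
  exact (D.adh c t h).subset ⟨this, h2⟩

theorem rt_mem_par {c t : T} (h : D.ch c t) : (D.rt c).1 ∈ D.bag t ∧ (D.rt c).2 ∈ D.bag t :=
  ⟨((D.adh c t h).superset (Or.inl rfl)).2, ((D.adh c t h).superset (Or.inr rfl)).2⟩

theorem sib {c d t : T} (hc : D.ch c t) (hd : D.ch d t) {v : V} (h1 : v ∈ D.P c)
    (h2 : v ∈ D.P d) (h3 : v ∉ D.bag t) : c = d := by
  obtain ⟨s, a1, a2⟩ := h1
  obtain ⟨s', b1, b2⟩ := h2
  by_cases h : ReflTransGen D.ch s' c
  · rcases desc_total h b1 with h' | h'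
    · rcases h'.cases_head with e | ⟨p, k1, k2⟩
      · exact e
      · rw [ch_unique k1 hc] at k2
        exact absurd (TransGen.tail' k2 hd) (not_transGen t)
    · rcases h'.cases_head with e | ⟨p, k1, k2⟩
      · exact e.symm
      · rw [ch_unique k1 hd] at k2
        exact absurd (TransGen.tail' k2 hc) (not_transGen t)
  · obtain ⟨-, p, k1, k2⟩ := key a2 b2 a1 h
    exact absurd (ch_unique k1 hc ▸ k2) h3

theorem edge_cases {t : T} {x y : V} (hx : x ∈ D.P t) (hy : y ∈ D.P t) (h : G.Adj x y) :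
    (x ∈ D.bag t ∧ y ∈ D.bag t) ∨ ∃ c, D.ch c t ∧ x ∈ D.P c ∧ y ∈ D.P c := by
  obtain ⟨s, h1, h2⟩ := D.edge x y h
  by_cases hs : ReflTransGen D.ch s t
  · rcases hs.cases_tail with rfl | ⟨c, h3, h4⟩
    · exact Or.inl ⟨h1, h2⟩
    · exact Or.inr ⟨c, h4, ⟨s, h3, h1⟩, ⟨s, h3, h2⟩⟩
  · obtain ⟨a, a1, a2⟩ := hx
    obtain ⟨b, b1, b2⟩ := hy
    exact Or.inl ⟨(key a2 h1 a1 hs).1, (key b2 h2 b1 hs).1⟩

/-- Torso adjacency without the edge between the roots. -/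
def da (D : TD G T) (t : T) (x y : V) : Prop :=
  x ≠ y ∧ (G.Adj x y ∨ ∃ s, D.ch s t ∧ x ∈ D.bag s ∧ y ∈ D.bag s)

theorem da_of_ta {t : T} {x y : V} (h : D.ta t x y)
    (hn : ¬ ((x = (D.rt t).1 ∨ x = (D.rt t).2) ∧ (y = (D.rt t).1 ∨ y = (D.rt t).2))) :
    D.da t x y := by
  refine ⟨h.1, h.2.2.2.imp_right ?_⟩
  rintro ⟨s, h1 | h1, h2, h3⟩
  · exact ⟨s, h1, h2, h3⟩
  · exact absurd ⟨(D.adh t s h1).subset ⟨h.2.1, h2⟩, (D.adh t s h1).subset ⟨h.2.2.1, h3⟩⟩ hn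

theorem conn_da_of_ta {t : T} {C : Set V} (h : Conn (D.ta t) C)
    (hn : (D.rt t).1 ∈ C → (D.rt t).2 ∈ C → (D.rt t).1 = (D.rt t).2) : Conn (D.da t) C :=
  fun a ha b hb => (h a ha b hb).lift id fun x hx y hy hxy => Reach.single (da_of_ta hxy (by
    rintro ⟨rfl | rfl, rfl | rfl⟩
    exacts [hxy.1 rfl, hxy.1 (hn hx hy), hxy.1 (hn hy hx).symm, hxy.1 rfl])) hx hy

theorem da_symm (t : T) (x y : V) (h : D.da t x y) : D.da t y x :=
  ⟨h.1.symm, h.2.imp (fun h => h.symm) fun ⟨s, h1, h2, h3⟩ => ⟨s, h1, h3, h2⟩⟩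

theorem conn_da (t : T) : Conn (D.da t) (D.bag t) := by
  rcases e : D.par t with _ | p
  · exact fun a ha b hb => (D.conn1 t a ha b hb).lift id fun x hx y hy hxy =>
      Reach.single ⟨hxy.1, hxy.2.2.2.imp_right fun ⟨s, h1, h2⟩ =>
        ⟨s, h1.resolve_right (by simp [e]), h2⟩⟩ hx hy
  by_cases e' : (D.rt t).1 = (D.rt t).2
  · exact conn_da_of_ta (D.conn1 t) fun _ _ => e'
  obtain ⟨z, hz, hz'⟩ := not_subset.1 (D.big t p e)
  have h1 := rt_mem_par (D := D) e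
  refine conn_of_base (da_symm t) z fun a ha => ?_
  by_cases e1 : a = (D.rt t).1
  · exact (conn_da_of_ta (D.conn2 t (D.rt t).2) (fun _ h => absurd rfl h.2) a
      ⟨ha, fun h => e' (e1.symm.trans h)⟩ z ⟨hz, fun h => hz' (h ▸ h1.2)⟩).mono sdiff_subset
  · exact (conn_da_of_ta (D.conn2 t (D.rt t).1) (fun h _ => absurd rfl h.2) a
      ⟨ha, e1⟩ z ⟨hz, fun h => hz' (h ▸ h1.1)⟩).mono sdiff_subset

theorem conn_exp {t : T} {C : Set V} (hC : C ⊆ D.bag t) (h : Conn (D.da t) C) (I : T → Prop)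
    (Q : T → Set V) (hI : ∀ d, D.ch d t → (D.rt d).1 ≠ (D.rt d).2 → (D.rt d).1 ∈ C →
      (D.rt d).2 ∈ C → I d)
    (hQ : ∀ d, I d → Conn G.Adj (Q d) ∧ (D.rt d).1 ∈ Q d ∧ (D.rt d).2 ∈ Q d ∧ (D.rt d).1 ∈ C) :
    Conn G.Adj {x | x ∈ C ∨ ∃ d, I d ∧ x ∈ Q d} := by
  have k : ∀ a ∈ C, ∀ b ∈ C, Reach G.Adj {x | x ∈ C ∨ ∃ d, I d ∧ x ∈ Q d} a b := by
    intro a ha b hb
    refine (h a ha b hb).lift id fun x hx y hy hxy => ?_
    rcases hxy.2 with h1 | ⟨s, h1, h2, h3⟩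
    · exact Reach.single h1 (Or.inl hx) (Or.inl hy)
    · have e1 := (D.adh s t h1).subset ⟨h2, hC hx⟩
      have e2 := (D.adh s t h1).subset ⟨h3, hC hy⟩
      have hs : I s := by
        rcases e1 with rfl | rfl <;> rcases e2 with rfl | rfl
        exacts [absurd rfl hxy.1, hI s h1 hxy.1 hx hy, hI s h1 hxy.1.symm hy hx, absurd rfl hxy.1]
      obtain ⟨q1, q2, q3, -⟩ := hQ s hs
      refine (q1 x ?_ y ?_).mono fun z hz => Or.inr ⟨s, hs, hz⟩
      · rcases e1 with rfl | rfl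
        exacts [q2, q3]
      · rcases e2 with rfl | rfl
        exacts [q2, q3]
  have k2 : ∀ a ∈ {x | x ∈ C ∨ ∃ d, I d ∧ x ∈ Q d}, ∃ z ∈ C,
      Reach G.Adj {x | x ∈ C ∨ ∃ d, I d ∧ x ∈ Q d} a z := by
    rintro a (ha | ⟨d, hd, ha⟩)
    · exact ⟨a, ha, Reach.refl _ _⟩
    · obtain ⟨q1, q2, -, q4⟩ := hQ d hd
      exact ⟨_, q4, (q1 a ha _ q2).mono fun z hz => Or.inr ⟨d, hd, hz⟩⟩
  intro a ha b hb
  obtain ⟨z, hz, h1⟩ := k2 a ha
  obtain ⟨z', hz', h2⟩ := k2 b hb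
  exact h1.trans ((k z hz z' hz').trans (h2.symm fun _ _ h => h.symm))

theorem conn_P (t : T) : Conn G.Adj (D.P t) := by
  induction t using D.wf.induction with
  | _ t ih =>
    have := conn_exp Subset.rfl (conn_da t) (fun d => D.ch d t) D.P (fun _ h _ _ _ => h)
      fun d hd => ⟨ih d hd, bag_subset_P d (D.rtmem d).1, bag_subset_P d (D.rtmem d).2,
        (rt_mem_par hd).1⟩
    convert this using 1
    ext v
    exact mem_P

theorem conn_P_sdiff {a : T} (ha : (D.rt a).1 = (D.rt a).2) (t : T)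
    (ht : ¬ ReflTransGen D.ch t a) : D.bag t ⊆ D.P t \ (D.P a \ {(D.rt a).1}) ∧
      Conn G.Adj (D.P t \ (D.P a \ {(D.rt a).1})) := by
  have k : ∀ t, ¬ ReflTransGen D.ch t a → ∀ v ∈ D.bag t, v ∉ D.P a \ {(D.rt a).1} := by
    rintro t ht v hv ⟨⟨s, h1, h2⟩, h3⟩
    obtain ⟨h4, p, h5, h6⟩ := key h2 hv h1 ht
    rcases (D.adh a p h5).subset ⟨h4, h6⟩ with e | e
    exacts [h3 e, h3 (e.trans ha.symm)]
  refine ⟨fun v hv => ⟨bag_subset_P t hv, k t ht v hv⟩, ?_⟩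
  induction t using D.wf.induction with
  | _ t ih =>
    have := conn_exp Subset.rfl (conn_da t) (fun d => D.ch d t)
      (fun d => D.P d \ (D.P a \ {(D.rt a).1})) (fun _ h _ _ _ => h)
      fun d hd => ⟨?_, ⟨bag_subset_P d (D.rtmem d).1, k t ht _ (rt_mem_par hd).1⟩,
        ⟨bag_subset_P d (D.rtmem d).2, k t ht _ (rt_mem_par hd).2⟩, (rt_mem_par hd).1⟩
    · convert this using 1
      ext v
      constructor
      · rintro ⟨h1, h2⟩
        exact (mem_P.1 h1).imp_right fun ⟨c, h3, h4⟩ => ⟨c, h3, h4, h2⟩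
      · rintro (h | ⟨c, h1, h2, h3⟩)
        · exact ⟨bag_subset_P t h, k t ht v h⟩
        · exact ⟨mem_P.2 (Or.inr ⟨c, h1, h2⟩), h3⟩
    · by_cases e : d = a
      · subst e
        rw [sdiff_sdiff_cancel_left (singleton_subset_iff.2 (bag_subset_P d (D.rtmem d).1))]
        exact conn_singleton _
      · refine ih d hd fun h => ?_
        rcases h.cases_head with e' | ⟨p, h1, h2⟩
        · exact e e'
        · exact ht (ch_unique h1 hd ▸ h2)

/-- A subset of a bag together with the pieces glued to its edges. -/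
def ex (D : TD G T) (t : T) (C : Set V) : Set V :=
  {x | x ∈ C ∨ ∃ d, (D.ch d t ∧ (D.rt d).1 ≠ (D.rt d).2 ∧ (D.rt d).1 ∈ C ∧ (D.rt d).2 ∈ C) ∧
    x ∈ D.P d}

theorem conn_ex {t : T} {C : Set V} (hC : C ⊆ D.bag t) (h : Conn (D.ta t) C)
    (hn : (D.rt t).1 ∈ C → (D.rt t).2 ∈ C → (D.rt t).1 = (D.rt t).2) : Conn G.Adj (D.ex t C) :=
  conn_exp hC (conn_da_of_ta h hn) _ D.P (fun _ h1 h2 h3 h4 => ⟨h1, h2, h3, h4⟩)
    fun d hd => ⟨conn_P d, bag_subset_P d (D.rtmem d).1, bag_subset_P d (D.rtmem d).2, hd.2.2.1⟩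

theorem ex_subset {t : T} {C : Set V} (hC : C ⊆ D.bag t) : D.ex t C ⊆ D.P t := by
  rintro x (hx | ⟨d, hd, hx⟩)
  · exact bag_subset_P t (hC hx)
  · exact mem_P.2 (Or.inr ⟨d, hd.1, hx⟩)

theorem mem_of_ex {t : T} {C : Set V} {x : V} (h : x ∈ D.ex t C) (hx : x ∈ D.bag t) : x ∈ C := by
  rcases h with h | ⟨d, hd, h⟩
  · exact h
  · rcases mem_rt hd.1 h hx with rfl | rfl
    exacts [hd.2.2.1, hd.2.2.2]

theorem rt_mem_of_ex {t d : T} {C : Set V} (hC : C ⊆ D.bag t) {x : V} (h : x ∈ D.ex t C)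
    (hx : x ∉ D.bag t) (hd : D.ch d t) (hxd : x ∈ D.P d) :
    (D.rt d).1 ≠ (D.rt d).2 ∧ (D.rt d).1 ∈ C ∧ (D.rt d).2 ∈ C := by
  rcases h with h | ⟨d', hd', h⟩
  · exact absurd (hC h) hx
  · rw [sib hd hd'.1 hxd h hx]
    exact hd'.2

theorem ex_inter {t : T} {C C' : Set V} (hC : C ⊆ D.bag t) (hC' : C' ⊆ D.bag t) {x : V}
    (h : x ∈ D.ex t C) (h' : x ∈ D.ex t C') : ∃ z, z ∈ C ∧ z ∈ C' := by
  by_cases hx : x ∈ D.bag t
  · exact ⟨x, mem_of_ex h hx, mem_of_ex h' hx⟩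
  · rcases h with h | ⟨d, hd, h⟩
    · exact absurd (hC h) hx
    · exact ⟨_, hd.2.2.1, (rt_mem_of_ex hC' h' hx hd.1 h).2.1⟩

end TD

end Pool.Agent.H80W

end
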